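import Mathlib

/-!
# MP_5e7226_co, campaign HL: `s(K, o) ≤ C d 2^d` for centrally symmetric bodies. Definitions.
-/

set_option autoImplicit false

open MeasureTheory Set
open scoped InnerProductSpace ENNReal Pointwise

namespace Pool.Agent.MP5e7226.HL

/-- Euclidean space of dimension `n` -/
abbrev E (n : ℕ) := EuclideanSpace ℝ (Fin n)

/-- a convex body symmetric about the origin -/
structure SB {n : ℕ} (K : Set (E n)) : Prop where
  conv : Convex ℝ K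
  comp : IsCompact K
  neg : ∀ x ∈ K, -x ∈ K
  int : (0 : E n) ∈ interior K

/-- the polar body -/
def pol {n : ℕ} (K : Set (E n)) : Set (E n) := {y | ∀ x ∈ K, ⟪x, y⟫_ℝ ≤ 1}

/-- the support function of `K`, i.e. the norm with the unit ball `pol K` -/
noncomputable def hN {n : ℕ} (K : Set (E n)) (y : E n) : ℝ := sSup ((fun x => ⟪x, y⟫_ℝ) '' K)

/-- the volume as a real number -/
noncomputable def vol {n : ℕ} (K : Set (E n)) : ℝ := (volume K).toReal

/-- the cap of `K` in the direction `x`, of width `r` -/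
def cap {n : ℕ} (K : Set (E n)) (x : E n) (r : ℝ) : Set (E n) := {f | f ∈ K ∧ 1 - r ≤ ⟪f, x⟫_ℝ}

/-- the symmetric polar of the cap -/
def Mx {n : ℕ} (K : Set (E n)) (x : E n) (r : ℝ) : Set (E n) :=
  {y | ∀ f ∈ cap K x r, |⟪f, y⟫_ℝ| ≤ 1}

/-- the points `y` with `y + x, y - x ∈ 2 L`, where `L = pol K` -/
def Ax {n : ℕ} (K : Set (E n)) (x : E n) : Set (E n) := {y | hN K (y + x) ≤ 2 ∧ hN K (y - x) ≤ 2}

/-- the convex hull of `cap ∪ -cap` -/
def Zx {n : ℕ} (K : Set (E n)) (x : E n) (r : ℝ) : Set (E n) :=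
  {f | ∃ t ∈ Icc (0 : ℝ) 1, ∃ a ∈ cap K x r, ∃ b ∈ cap K x r, f = t • a - (1 - t) • b}

/-- the convex hull of `cap ∪ {0}` -/
def A0 {n : ℕ} (K : Set (E n)) (x : E n) (r : ℝ) : Set (E n) :=
  {f | ∃ t ∈ Icc (0 : ℝ) 1, ∃ a ∈ cap K x r, f = t • a}

/-- the points `h` with `f + h, f - h ∈ V` -/
def TT {n : ℕ} (V : Set (E n)) (f : E n) : Set (E n) := {h | f + h ∈ V ∧ f - h ∈ V}

/-! ### slices of `E (n + 1)` -/

/-- the vector `(s, x)` of `E (n + 1)` -/
noncomputable def cs {n : ℕ} (s : ℝ) (x : E n) : E (n + 1) :=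
  WithLp.toLp 2 (Fin.cons s (fun i => x i) : Fin (n + 1) → ℝ)

/-- the slice at height `s` -/
def sl {n : ℕ} (D : Set (E (n + 1))) (s : ℝ) : Set (E n) := {y | cs s y ∈ D}

/-- half of the difference body of a slice -/
def Ds {n : ℕ} (D : Set (E (n + 1))) (s : ℝ) : Set (E n) :=
  {y | ∃ y1 ∈ sl D s, ∃ y2 ∈ sl D s, y = (1 / 2 : ℝ) • (y1 - y2)}

/-- the points over which the fibre of `Z` has length at least `2 t` (slices of the Steiner
symmetral) -/
def Zp {n : ℕ} (Z : Set (E (n + 1))) (t : ℝ) : Set (E n) :=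
  {x | ∃ s1 s2 : ℝ, 2 * t ≤ s1 - s2 ∧ cs s1 x ∈ Z ∧ cs s2 x ∈ Z}

/-- `(1 - r)^n` for `r ≤ 1`, zero for `r > 1` -/
noncomputable def kn (n : ℕ) (r : ℝ) : ℝ≥0∞ := if r ≤ 1 then ENNReal.ofReal ((1 - r) ^ n) else 0

end Pool.Agent.MP5e7226.HL
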