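import Mathlib
import Pool.Agent.Lib.MP_5e7226_co.HL.Defs

/-!
Task HL A1: symmetric bodies, support function, polar body: basic facts.
-/

set_option autoImplicit false

open MeasureTheory Set
open scoped InnerProductSpace ENNReal Pointwise

namespace Pool.Agent.MP5e7226.HL

variable {n : ℕ} {K : Set (E n)}

theorem SB.zero_mem (h : SB K) : (0 : E n) ∈ K := interior_subset h.int

theorem SB.exists_bound (h : SB K) : ∃ R, 0 < R ∧ ∀ x ∈ K, ‖x‖ ≤ R := by
  obtain ⟨R, hR⟩ := h.comp.isBounded.exists_norm_le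
  exact ⟨max R 1, lt_max_of_lt_right one_pos, fun x hx => (hR x hx).trans (le_max_left _ _)⟩

theorem A1_compact (h : SB K) (y : E n) : IsCompact ((fun x => ⟪x, y⟫_ℝ) '' K) :=
  h.comp.image (by fun_prop)

theorem A1_nonempty (h : SB K) (y : E n) : ((fun x => ⟪x, y⟫_ℝ) '' K).Nonempty :=
  ⟨_, 0, h.zero_mem, rfl⟩

theorem SB.le_hN (h : SB K) {x : E n} (hx : x ∈ K) (y : E n) : ⟪x, y⟫_ℝ ≤ hN K y :=
  le_csSup (A1_compact h y).bddAbove ⟨x, hx, rfl⟩

theorem SB.abs_le_hN (h : SB K) {x : E n} (hx : x ∈ K) (y : E n) : |⟪x, y⟫_ℝ| ≤ hN K y := by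
  rw [abs_le]
  refine ⟨?_, h.le_hN hx y⟩
  have h1 := h.le_hN (h.neg x hx) y
  rw [inner_neg_left] at h1
  linarith

theorem SB.exists_hN (h : SB K) (y : E n) : ∃ x ∈ K, ⟪x, y⟫_ℝ = hN K y := by
  obtain ⟨x, hx, hxy⟩ := (A1_compact h y).sSup_mem (A1_nonempty h y)
  exact ⟨x, hx, hxy⟩

theorem SB.hN_le_iff (h : SB K) {y : E n} {c : ℝ} : hN K y ≤ c ↔ ∀ x ∈ K, ⟪x, y⟫_ℝ ≤ c := by
  constructor
  · intro h1 x hx
    exact (h.le_hN hx y).trans h1
  · intro h1
    obtain ⟨x, hx, hxy⟩ := h.exists_hN y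
    rw [← hxy]
    exact h1 x hx

theorem SB.hN_nonneg (h : SB K) (y : E n) : 0 ≤ hN K y := by
  have h1 := h.le_hN h.zero_mem y
  rwa [inner_zero_left] at h1

theorem SB.hN_zero (h : SB K) : hN K 0 = 0 := by
  refine le_antisymm (h.hN_le_iff.2 fun x _ => ?_) (h.hN_nonneg 0)
  rw [inner_zero_right]

theorem A1_smul_le (h : SB K) (c : ℝ) (y : E n) : hN K (c • y) ≤ |c| * hN K y := by
  rw [h.hN_le_iff]
  intro x hx
  rw [inner_smul_right]
  calc c * ⟪x, y⟫_ℝ ≤ |c * ⟪x, y⟫_ℝ| := le_abs_self _
    _ = |c| * |⟪x, y⟫_ℝ| := abs_mul _ _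
    _ ≤ |c| * hN K y := mul_le_mul_of_nonneg_left (h.abs_le_hN hx y) (abs_nonneg _)

theorem SB.hN_smul (h : SB K) (c : ℝ) (y : E n) : hN K (c • y) = |c| * hN K y := by
  refine le_antisymm (A1_smul_le h c y) ?_
  by_cases hc : c = 0
  · rw [hc, abs_zero, zero_mul]
    exact h.hN_nonneg _
  · have h1 := A1_smul_le h c⁻¹ (c • y)
    rw [smul_smul, inv_mul_cancel₀ hc, one_smul, abs_inv] at h1
    rwa [← le_inv_mul_iff₀ (abs_pos.2 hc)]

theorem SB.hN_neg (h : SB K) (y : E n) : hN K (-y) = hN K y := by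
  have h1 := h.hN_smul (-1) y
  rwa [neg_one_smul, abs_neg, abs_one, one_mul] at h1

theorem SB.hN_add_le (h : SB K) (y z : E n) : hN K (y + z) ≤ hN K y + hN K z := by
  rw [h.hN_le_iff]
  intro x hx
  rw [inner_add_right]
  exact add_le_add (h.le_hN hx y) (h.le_hN hx z)

theorem SB.hN_sub_le (h : SB K) (y z : E n) : hN K (y - z) ≤ hN K y + hN K z := by
  have h1 := h.hN_add_le y (-z)
  rwa [h.hN_neg, ← sub_eq_add_neg] at h1

theorem SB.exists_upper (h : SB K) : ∃ R, 0 < R ∧ ∀ y, hN K y ≤ R * ‖y‖ := by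
  obtain ⟨R, hR, hK⟩ := h.exists_bound
  refine ⟨R, hR, fun y => h.hN_le_iff.2 fun x hx => ?_⟩
  exact (real_inner_le_norm x y).trans (mul_le_mul_of_nonneg_right (hK x hx) (norm_nonneg _))

theorem SB.exists_lower (h : SB K) : ∃ c, 0 < c ∧ ∀ y, c * ‖y‖ ≤ hN K y := by
  obtain ⟨r, hr, hball⟩ := Metric.isOpen_iff.1 isOpen_interior (0 : E n) h.int
  refine ⟨r / 2, by positivity, fun y => ?_⟩
  by_cases hy : y = 0
  · rw [hy, norm_zero, mul_zero]
    exact h.hN_nonneg _
  · have hyn : 0 < ‖y‖ := norm_pos_iff.2 hy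
    have hmem : (r / 2 / ‖y‖) • y ∈ K := by
      apply interior_subset
      apply hball
      rw [mem_ball_zero_iff, norm_smul, Real.norm_eq_abs, abs_of_pos (by positivity),
        div_mul_cancel₀ _ hyn.ne']
      linarith
    have h1 := h.le_hN hmem y
    rw [inner_smul_left, conj_trivial, real_inner_self_eq_norm_sq] at h1
    have h2 : r / 2 / ‖y‖ * ‖y‖ ^ 2 = r / 2 * ‖y‖ := by field_simp
    rwa [h2] at h1

theorem SB.hN_pos (h : SB K) {y : E n} (hy : y ≠ 0) : 0 < hN K y := by
  obtain ⟨c, hc, hlow⟩ := h.exists_lower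
  exact (mul_pos hc (norm_pos_iff.2 hy)).trans_le (hlow y)

theorem SB.continuous_hN (h : SB K) : Continuous (hN K) := by
  obtain ⟨R, hR, hup⟩ := h.exists_upper
  have hlip : LipschitzWith (Real.toNNReal R) (hN K) := by
    apply LipschitzWith.of_le_add_mul
    intro x y
    rw [Real.coe_toNNReal _ hR.le, dist_eq_norm]
    have h1 := h.hN_add_le y (x - y)
    rw [add_sub_cancel] at h1
    exact h1.trans (add_le_add le_rfl (hup _))
  exact hlip.continuous

theorem SB.mem_pol (h : SB K) {y : E n} : y ∈ pol K ↔ hN K y ≤ 1 := by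
  rw [h.hN_le_iff]
  rfl

theorem SB.polar (h : SB K) : SB (pol K) := by
  obtain ⟨c, hc, hlow⟩ := h.exists_lower
  obtain ⟨R, hR, hup⟩ := h.exists_upper
  have hpe : pol K = {y | hN K y ≤ 1} := by
    ext y
    exact h.mem_pol
  refine ⟨?_, ?_, ?_, ?_⟩
  · intro x hx y hy a b ha hb hab
    rw [h.mem_pol] at hx hy ⊢
    refine (h.hN_add_le _ _).trans ?_
    rw [h.hN_smul, h.hN_smul, abs_of_nonneg ha, abs_of_nonneg hb]
    have h1 := mul_le_mul_of_nonneg_left hx ha
    have h2 := mul_le_mul_of_nonneg_left hy hb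
    linarith
  · refine Metric.isCompact_of_isClosed_isBounded ?_ ?_
    · rw [hpe]
      exact isClosed_le h.continuous_hN continuous_const
    · refine (Metric.isBounded_closedBall (x := (0 : E n)) (r := 1 / c)).subset fun y hy => ?_
      rw [mem_closedBall_zero_iff, le_div_iff₀ hc]
      have := h.mem_pol.1 hy
      linarith [hlow y, mul_comm c ‖y‖]
  · intro y hy
    rw [h.mem_pol] at hy ⊢
    rwa [h.hN_neg]
  · rw [mem_interior]
    refine ⟨Metric.ball 0 (1 / R), fun y hy => ?_, Metric.isOpen_ball,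
      Metric.mem_ball_self (by positivity)⟩
    rw [mem_ball_zero_iff, lt_div_iff₀ hR] at hy
    rw [h.mem_pol]
    linarith [hup y, mul_comm R ‖y‖]

theorem SB.measurableSet (h : SB K) : MeasurableSet K := h.comp.measurableSet

theorem SB.volume_pos (h : SB K) : 0 < volume K :=
  (isOpen_interior.measure_pos volume ⟨0, h.int⟩).trans_le (measure_mono interior_subset)

theorem SB.volume_lt_top (h : SB K) : volume K < ⊤ := h.comp.measure_lt_top

theorem SB.vol_pos (h : SB K) : 0 < vol K :=
  ENNReal.toReal_pos h.volume_pos.ne' h.volume_lt_top.ne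

theorem vol_smul (c : ℝ) (A : Set (E n)) : vol (c • A) = |c| ^ n * vol A := by
  unfold vol
  rw [Measure.addHaar_smul, ENNReal.toReal_mul]
  simp only [finrank_euclideanSpace, Fintype.card_fin]
  rw [ENNReal.toReal_ofReal (abs_nonneg _), abs_pow]

theorem vol_mono {A B : Set (E n)} (h : A ⊆ B) (hB : IsCompact B) : vol A ≤ vol B :=
  ENNReal.toReal_mono hB.measure_lt_top.ne (measure_mono h)

theorem vol_nonneg (A : Set (E n)) : 0 ≤ vol A := ENNReal.toReal_nonneg

/-- a compact convex symmetric set with positive volume is a body -/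
theorem SB.of_volume {A : Set (E n)} (h1 : Convex ℝ A) (h2 : IsCompact A) (h3 : ∀ x ∈ A, -x ∈ A)
    (h4 : volume A ≠ 0) : SB A := by
  refine ⟨h1, h2, h3, ?_⟩
  have hne : (interior A).Nonempty := by
    by_contra hcon
    rw [Set.not_nonempty_iff_eq_empty] at hcon
    apply h4
    have h5 : A ⊆ frontier A := by
      intro x hx
      refine ⟨subset_closure hx, ?_⟩
      rw [hcon]
      exact notMem_empty x
    exact le_antisymm ((measure_mono h5).trans (h1.addHaar_frontier volume).le) bot_le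
  obtain ⟨q, hq⟩ := hne
  have hq' : -q ∈ A := h3 q (interior_subset hq)
  have h6 := h1.combo_interior_self_mem_interior hq hq' (a := 1 / 2) (b := 1 / 2) (by norm_num)
    (by norm_num) (by norm_num)
  have e : (1 / 2 : ℝ) • q + (1 / 2 : ℝ) • (-q) = 0 := by
    rw [smul_neg, add_neg_cancel]
  rwa [e] at h6

theorem A1_set_eq (h : SB K) (a : E n) {c : ℝ} (hc : 0 < c) :
    {y | hN K (y - a) ≤ c} = (fun v => a + v) '' (c • pol K) := by
  ext y
  constructor
  · intro hy
    refine ⟨y - a, ⟨c⁻¹ • (y - a), ?_, ?_⟩, by simp⟩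
    · rw [h.mem_pol, h.hN_smul, abs_of_pos (inv_pos.2 hc), inv_mul_le_iff₀ hc, mul_one]
      exact hy
    · show c • c⁻¹ • (y - a) = y - a
      rw [smul_smul, mul_inv_cancel₀ hc.ne', one_smul]
  · rintro ⟨_, ⟨v, hv, rfl⟩, rfl⟩
    show hN K (a + c • v - a) ≤ c
    rw [add_sub_cancel_left, h.hN_smul, abs_of_pos hc]
    have := h.mem_pol.1 hv
    calc c * hN K v ≤ c * 1 := mul_le_mul_of_nonneg_left this hc.le
      _ = c := mul_one c

theorem SB.volume_hN_le (h : SB K) (a : E n) {c : ℝ} (hc : 0 < c) :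
    volume {y | hN K (y - a) ≤ c} = ENNReal.ofReal (c ^ n) * volume (pol K) := by
  rw [A1_set_eq h a hc, Set.image_add_left, measure_preimage_add, Measure.addHaar_smul]
  simp only [finrank_euclideanSpace, Fintype.card_fin]
  rw [abs_of_pos (by positivity)]

theorem SB.volume_hN_lt (h : SB K) (a : E n) {c : ℝ} (hc : 0 < c) :
    volume {y | hN K (y - a) < c} = ENNReal.ofReal (c ^ n) * volume (pol K) := by
  rw [← h.volume_hN_le a hc]
  have hmono : {y | hN K (y - a) < c} ⊆ {y | hN K (y - a) ≤ c} := by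
    intro y hy
    have hy' : hN K (y - a) < c := hy
    exact hy'.le
  refine le_antisymm (measure_mono hmono) ?_
  have hconv : Convex ℝ {y | hN K (y - a) < c} := by
    intro x hx y hy s t hs ht hst
    show hN K (s • x + t • y - a) < c
    have e : s • x + t • y - a = s • (x - a) + t • (y - a) := by
      have : a = s • a + t • a := by rw [← add_smul, hst, one_smul]
      rw [smul_sub, smul_sub]
      nth_rewrite 1 [this]
      abel
    rw [e]
    refine (h.hN_add_le _ _).trans_lt ?_
    rw [h.hN_smul, h.hN_smul, abs_of_nonneg hs, abs_of_nonneg ht]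
    have hx' : hN K (x - a) < c := hx
    have hy' : hN K (y - a) < c := hy
    rcases hs.eq_or_lt with h0 | h0
    · rw [← h0] at hst ⊢
      rw [zero_add] at hst
      rw [hst]
      linarith
    · have h1 : s * hN K (x - a) < s * c := mul_lt_mul_of_pos_left hx' h0
      have h2 : t * hN K (y - a) ≤ t * c := mul_le_mul_of_nonneg_left hy'.le ht
      have h3 : s * c + t * c = c := by rw [← add_mul, hst, one_mul]
      linarith
  have hopen : IsOpen {y | hN K (y - a) < c} :=
    isOpen_lt (h.continuous_hN.comp (continuous_id.sub continuous_const)) continuous_const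
  have hfr := hconv.addHaar_frontier volume
  have hsub : {y | hN K (y - a) ≤ c} ⊆ {y | hN K (y - a) < c} ∪ frontier {y | hN K (y - a) < c} := by
    intro y hy
    by_cases hlt : hN K (y - a) < c
    · exact Or.inl hlt
    · right
      refine ⟨?_, ?_⟩
      · -- approximate from inside
        have hy1 : hN K (y - a) ≤ c := hy
        rw [Metric.mem_closure_iff]
        intro ε hε
        by_cases hya : y - a = 0
        · exfalso
          apply hlt
          rw [hya, h.hN_zero]
          exact hc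
        have hyn : 0 < ‖y - a‖ := norm_pos_iff.2 hya
        set t : ℝ := min (ε / 2 / ‖y - a‖) 1 with ht
        have ht0 : 0 < t := lt_min (by positivity) one_pos
        have ht1 : t ≤ 1 := min_le_right _ _
        refine ⟨a + (1 - t) • (y - a), ?_, ?_⟩
        · show hN K (a + (1 - t) • (y - a) - a) < c
          rw [add_sub_cancel_left, h.hN_smul, abs_of_nonneg (by linarith)]
          have h1 : (1 - t) * hN K (y - a) ≤ (1 - t) * c :=
            mul_le_mul_of_nonneg_left hy1 (by linarith)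
          have h2 : 0 < t * c := mul_pos ht0 hc
          linarith
        · rw [dist_eq_norm]
          have e : y - (a + (1 - t) • (y - a)) = t • (y - a) := by
            rw [sub_smul, one_smul]
            abel
          rw [e, norm_smul, Real.norm_eq_abs, abs_of_pos ht0]
          have h1 : t * ‖y - a‖ ≤ ε / 2 / ‖y - a‖ * ‖y - a‖ :=
            mul_le_mul_of_nonneg_right (min_le_left _ _) hyn.le
          rw [div_mul_cancel₀ _ hyn.ne'] at h1
          linarith
      · rw [hopen.interior_eq]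
        exact hlt
  calc volume {y | hN K (y - a) ≤ c} ≤ volume ({y | hN K (y - a) < c} ∪
        frontier {y | hN K (y - a) < c}) := measure_mono hsub
    _ ≤ volume {y | hN K (y - a) < c} + volume (frontier {y | hN K (y - a) < c}) :=
        measure_union_le _ _
    _ = volume {y | hN K (y - a) < c} := by rw [hfr, add_zero]

end Pool.Agent.MP5e7226.HL
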