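import Mathlib
import Pool.Agent.Lib.MP_5e7226_co.HL.A1
import Pool.Agent.Lib.MP_c95dcf_gt.PL
import Pool.Agent.Lib.MP_c95dcf_gt.PL1

/-!
Task HL A2: Brunn–Minkowski.

`bm_mid`: apply `Pool.Agent.Lib.MP_c95dcf_gt.pl` (with `pl1`), i.e. `pl pl1 n f g h`, to the
indicators `A.indicator 1`, `B.indicator 1`, `C.indicator 1` (`lintegral_indicator_one`). If the
left side `f x * g y` is not zero then `x ∈ A`, `y ∈ B`, and the right side is `1`.

`bm_iter`: induction on `j`.

`diff_body`: For `A` convex and compact. Fubini: `∫⁻ y, volume {a | a ∈ A ∧ a - y ∈ A} = volume A ^ 2`.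
If `y = (1/2) (p - q)` with `p, q ∈ A` then `{a | a ∈ A ∧ a - y ∈ A}` contains
`(1/2) • A + (1/2) • p`, which has the volume `2^-n volume A`.
-/

set_option autoImplicit false

open MeasureTheory Set
open scoped InnerProductSpace ENNReal Pointwise

namespace Pool.Agent.MP5e7226.HL

variable {n : ℕ}

theorem bm_mid {A B C : Set (E n)} (hA : MeasurableSet A) (hB : MeasurableSet B)
    (hC : MeasurableSet C) (h : ∀ a ∈ A, ∀ b ∈ B, (1 / 2 : ℝ) • (a + b) ∈ C) :
    volume A * volume B ≤ volume C ^ 2 := by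
  have key := Pool.Agent.Lib.MP_c95dcf_gt.pl Pool.Agent.Lib.MP_c95dcf_gt.pl1 n
    (A.indicator 1) (B.indicator 1) (C.indicator 1) (measurable_one.indicator hA)
    (measurable_one.indicator hB) (measurable_one.indicator hC) ?_
  · rwa [lintegral_indicator_one hA, lintegral_indicator_one hB, lintegral_indicator_one hC] at key
  · intro x y
    by_cases hx : x ∈ A
    · by_cases hy : y ∈ B
      · have h1 := h x hx y hy
        rw [Set.indicator_of_mem hx, Set.indicator_of_mem hy, Set.indicator_of_mem h1]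
        simp
      · rw [Set.indicator_of_notMem hy]
        simp
    · rw [Set.indicator_of_notMem hx]
      simp

theorem bm_iter (j : ℕ) {L M : Set (E n)} (hLc : Convex ℝ L) (hL : IsCompact L) (hM : IsCompact M)
    (hL0 : L.Nonempty) :
    volume L ^ (2 ^ j - 1) * volume M ≤
      (volume ((fun p : E n × E n => (1 - (1 / 2 : ℝ) ^ j) • p.1 + ((1 / 2 : ℝ) ^ j) • p.2) ''
        (L ×ˢ M))) ^ (2 ^ j) := by
  induction j with
  | zero =>
    simp only [pow_zero, Nat.sub_self, one_mul, pow_one]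
    apply measure_mono
    intro m hm
    obtain ⟨l, hl⟩ := hL0
    exact ⟨(l, m), ⟨hl, hm⟩, by simp⟩
  | succ j ih =>
    set S : ℕ → Set (E n) := fun j => (fun p : E n × E n =>
      (1 - (1 / 2 : ℝ) ^ j) • p.1 + ((1 / 2 : ℝ) ^ j) • p.2) '' (L ×ˢ M) with hS
    have hcomp : ∀ j, IsCompact (S j) := fun j =>
      (hL.prod hM).image (by fun_prop)
    have hstep : volume L * volume (S j) ≤ volume (S (j + 1)) ^ 2 := by
      refine bm_mid hL.measurableSet (hcomp j).measurableSet (hcomp (j + 1)).measurableSet ?_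
      rintro l hl _ ⟨⟨l', m⟩, ⟨hl', hm⟩, rfl⟩
      have hp0 : (0 : ℝ) < (1 / 2) ^ j := by positivity
      have hp1 : (1 / 2 : ℝ) ^ j ≤ 1 := pow_le_one₀ (by norm_num) (by norm_num)
      set a : ℝ := (1 / 2) ^ j with ha
      have hden : 0 < 1 - a / 2 := by linarith
      have hconv : ((1 / 2) / (1 - a / 2)) • l + ((1 - a) / 2 / (1 - a / 2)) • l' ∈ L := by
        apply hLc hl hl'
        · positivity
        · apply div_nonneg _ hden.le
          linarith
        · rw [← add_div, div_eq_one_iff_eq hden.ne']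
          ring
      refine ⟨(_, m), ⟨hconv, hm⟩, ?_⟩
      have e1 : (1 / 2 : ℝ) ^ (j + 1) = a / 2 := by
        rw [pow_succ, ← ha]
        ring
      simp only [e1]
      rw [smul_add, smul_smul, smul_smul, mul_div_cancel₀ _ hden.ne', mul_div_cancel₀ _ hden.ne',
        smul_add, smul_add, smul_smul, smul_smul]
      have e2 : (1 / 2 : ℝ) * (1 - a) = (1 - a) / 2 := by ring
      have e3 : (1 / 2 : ℝ) * a = a / 2 := by ring
      rw [e2, e3, add_assoc]
    have h1 : volume L ^ (2 ^ (j + 1) - 1) * volume M ≤ (volume L * volume (S j)) ^ (2 ^ j) := by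
      have e : 2 ^ (j + 1) - 1 = 2 ^ j + (2 ^ j - 1) := by
        have : 1 ≤ 2 ^ j := Nat.one_le_two_pow
        rw [pow_succ]
        omega
      rw [e, pow_add, mul_assoc, mul_pow]
      gcongr
    calc volume L ^ (2 ^ (j + 1) - 1) * volume M ≤ (volume L * volume (S j)) ^ (2 ^ j) := h1
      _ ≤ (volume (S (j + 1)) ^ 2) ^ (2 ^ j) := by gcongr
      _ = volume (S (j + 1)) ^ (2 ^ (j + 1)) := by rw [← pow_mul, pow_succ, mul_comm]

/-- `∫⁻ y, volume {a | a ∈ A ∧ a - y ∈ A} = volume A ^ 2` -/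
theorem A2_fubini {A : Set (E n)} (h2 : IsCompact A) :
    ∫⁻ y, volume {a : E n | a ∈ A ∧ a - y ∈ A} = volume A * volume A := by
  have hA := h2.measurableSet
  have e1 : ∀ y : E n, volume {a : E n | a ∈ A ∧ a - y ∈ A} =
      ∫⁻ a, A.indicator 1 a * A.indicator 1 (a - y) := by
    intro y
    have hm : MeasurableSet {a : E n | a ∈ A ∧ a - y ∈ A} :=
      hA.inter ((measurable_id.sub_const y) hA)
    rw [← lintegral_indicator_one hm]
    congr 1
    ext a
    by_cases h1 : a ∈ A
    · by_cases h3 : a - y ∈ A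
      · rw [Set.indicator_of_mem h1, Set.indicator_of_mem h3, Set.indicator_of_mem (by exact ⟨h1, h3⟩)]
        simp
      · rw [Set.indicator_of_notMem h3, Set.indicator_of_notMem (fun h => h3 h.2)]
        simp
    · rw [Set.indicator_of_notMem h1, Set.indicator_of_notMem (fun h => h1 h.1)]
      simp
  simp_rw [e1]
  have hmi : Measurable (A.indicator (1 : E n → ℝ≥0∞)) := measurable_one.indicator hA
  rw [lintegral_lintegral_swap]
  · have e2 : ∀ a : E n, ∫⁻ y, A.indicator 1 a * A.indicator (1 : E n → ℝ≥0∞) (a - y) =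
        A.indicator 1 a * volume A := by
      intro a
      have hm1 : Measurable fun y : E n => A.indicator (1 : E n → ℝ≥0∞) (a - y) :=
        hmi.comp (measurable_const.sub measurable_id)
      rw [lintegral_const_mul _ hm1]
      congr 1
      rw [lintegral_sub_left_eq_self (fun z => A.indicator (1 : E n → ℝ≥0∞) z) a]
      exact lintegral_indicator_one hA
    simp_rw [e2]
    rw [lintegral_mul_const _ hmi, lintegral_indicator_one hA]
  · apply Measurable.aemeasurable
    exact (hmi.comp measurable_snd).mul (hmi.comp (measurable_snd.sub measurable_fst))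

theorem diff_body {A : Set (E n)} (h1 : Convex ℝ A) (h2 : IsCompact A) (hA0 : volume A ≠ 0) :
    volume (A - A) ≤ ENNReal.ofReal (4 ^ n) * volume A := by
  have hAtop : volume A ≠ ⊤ := h2.measure_lt_top.ne
  have hAA : IsCompact (A - A) := by
    have e : A - A = (fun q : E n × E n => q.1 - q.2) '' (A ×ˢ A) := by
      ext x
      constructor
      · rintro ⟨a, ha, b, hb, rfl⟩
        exact ⟨(a, b), ⟨ha, hb⟩, rfl⟩
      · rintro ⟨⟨a, b⟩, ⟨ha, hb⟩, rfl⟩
        exact ⟨a, ha, b, hb, rfl⟩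
    rw [e]
    exact (h2.prod h2).image (by fun_prop)
  have hDcomp : IsCompact ((1 / 2 : ℝ) • (A - A)) := hAA.smul _
  have hlow : ∀ y ∈ (1 / 2 : ℝ) • (A - A),
      ENNReal.ofReal ((1 / 2) ^ n) * volume A ≤ volume {a : E n | a ∈ A ∧ a - y ∈ A} := by
    rintro _ ⟨_, ⟨p, hp, q, hq, rfl⟩, rfl⟩
    have hsub : (fun v => (1 / 2 : ℝ) • p + v) '' ((1 / 2 : ℝ) • A) ⊆
        {a : E n | a ∈ A ∧ a - (1 / 2 : ℝ) • (p - q) ∈ A} := by
      rintro _ ⟨_, ⟨a, ha, rfl⟩, rfl⟩
      constructor
      · exact h1 hp ha (by norm_num) (by norm_num) (by norm_num)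
      · have e : (1 / 2 : ℝ) • p + (1 / 2 : ℝ) • a - (1 / 2 : ℝ) • (p - q) =
            (1 / 2 : ℝ) • q + (1 / 2 : ℝ) • a := by
          rw [smul_sub]
          abel
        show (1 / 2 : ℝ) • p + (1 / 2 : ℝ) • a - (1 / 2 : ℝ) • (p - q) ∈ A
        rw [e]
        exact h1 hq ha (by norm_num) (by norm_num) (by norm_num)
    refine le_trans ?_ (measure_mono hsub)
    rw [Set.image_add_left, measure_preimage_add, Measure.addHaar_smul]
    simp only [finrank_euclideanSpace, Fintype.card_fin]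
    rw [abs_of_pos (by positivity)]
  have hint : ∫⁻ _ in (1 / 2 : ℝ) • (A - A), ENNReal.ofReal ((1 / 2) ^ n) * volume A ≤
      volume A * volume A := by
    rw [← A2_fubini h2]
    calc ∫⁻ _ in (1 / 2 : ℝ) • (A - A), ENNReal.ofReal ((1 / 2) ^ n) * volume A
        ≤ ∫⁻ y in (1 / 2 : ℝ) • (A - A), volume {a : E n | a ∈ A ∧ a - y ∈ A} :=
          setLIntegral_mono' hDcomp.measurableSet hlow
      _ ≤ _ := setLIntegral_le_lintegral _ _
  rw [setLIntegral_const, Measure.addHaar_smul] at hint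
  simp only [finrank_euclideanSpace, Fintype.card_fin] at hint
  rw [abs_of_pos (by positivity)] at hint
  -- cancel
  have h3 : volume A * (ENNReal.ofReal ((1 / 2) ^ n) * (ENNReal.ofReal ((1 / 2) ^ n) *
      volume (A - A))) ≤ volume A * volume A := by
    calc volume A * (ENNReal.ofReal ((1 / 2) ^ n) * (ENNReal.ofReal ((1 / 2) ^ n) *
          volume (A - A))) = ENNReal.ofReal ((1 / 2) ^ n) * volume A *
          (ENNReal.ofReal ((1 / 2) ^ n) * volume (A - A)) := by ring
      _ ≤ _ := hint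
  have h4 := (ENNReal.mul_le_mul_iff_right hA0 hAtop).1 h3
  have e4 : ENNReal.ofReal (4 ^ n) * (ENNReal.ofReal ((1 / 2) ^ n) * ENNReal.ofReal ((1 / 2) ^ n)) =
      1 := by
    rw [← ENNReal.ofReal_mul (by positivity), ← ENNReal.ofReal_mul (by positivity), ← mul_pow,
      ← mul_pow]
    norm_num
  calc volume (A - A) = ENNReal.ofReal (4 ^ n) * (ENNReal.ofReal ((1 / 2) ^ n) *
        (ENNReal.ofReal ((1 / 2) ^ n) * volume (A - A))) := by
        rw [← mul_assoc (ENNReal.ofReal ((1 / 2) ^ n)), ← mul_assoc, e4, one_mul]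
    _ ≤ _ := mul_le_mul_right h4 _

end Pool.Agent.MP5e7226.HL
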