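import Mathlib
import Pool.Agent.Lib.MP_5e7226_co.HL.Defs
import Pool.Agent.Lib.MP_ca0fc2_an.Mg.G082

/-!
# MP_5e7226_co, campaign HL, part B: definitions (Berndtsson's proof of the Bourgain–Milman inequality)
-/

set_option autoImplicit false

open MeasureTheory Set
open scoped InnerProductSpace ENNReal Pointwise

namespace Pool.Agent.MP5e7226.HL

open Pool.Agent.MPca0fc2.CX (En ee db)

/-- `Q x = ∑ ⟪f, x⟫^(2p)` -/
noncomputable def Qf {n : ℕ} (F : Finset (E n)) (p : ℕ) (x : E n) : ℝ :=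
  ∑ f ∈ F, ⟪f, x⟫_ℝ ^ (2 * p)

/-- the gradient of `Q` -/
noncomputable def gQ {n : ℕ} (F : Finset (E n)) (p : ℕ) (x : E n) : E n :=
  ∑ f ∈ F, (2 * (p : ℝ) * ⟪f, x⟫_ℝ ^ (2 * p - 1)) • f

/-- the Hessian of `Q` -/
noncomputable def HQ {n : ℕ} (F : Finset (E n)) (p : ℕ) (x : E n) : Matrix (Fin n) (Fin n) ℝ :=
  Matrix.of fun j k => ∑ f ∈ F, 2 * (p : ℝ) * (2 * (p : ℝ) - 1) * ⟪f, x⟫_ℝ ^ (2 * p - 2) * f j * f k

/-- `φ = Q + (e/2) |x|²` -/
noncomputable def ph {n : ℕ} (F : Finset (E n)) (p : ℕ) (e : ℝ) (x : E n) : ℝ :=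
  Qf F p x + e / 2 * ‖x‖ ^ 2

/-- the gradient of `φ` -/
noncomputable def gp {n : ℕ} (F : Finset (E n)) (p : ℕ) (e : ℝ) (x : E n) : E n := gQ F p x + e • x

/-- the Hessian of `φ` -/
noncomputable def Hp {n : ℕ} (F : Finset (E n)) (p : ℕ) (e : ℝ) (x : E n) :
    Matrix (Fin n) (Fin n) ℝ := HQ F p x + e • (1 : Matrix (Fin n) (Fin n) ℝ)

/-- a lower bound of the Legendre transform of `φ` -/
noncomputable def ps {n : ℕ} (θ : ℝ) (Z : Set (E n)) (v : E n) : ℝ := θ⁻¹ * hN Z v - Real.log θ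

/-- the real part of a vector of `ℂⁿ` -/
noncomputable def reP {n : ℕ} (z : En n) : E n := WithLp.toLp 2 fun j => (z j).re

/-- the imaginary part of a vector of `ℂⁿ` -/
noncomputable def imP {n : ℕ} (z : En n) : E n := WithLp.toLp 2 fun j => (z j).im

/-- `a + i b` -/
noncomputable def zP {n : ℕ} (q : E n × E n) : En n :=
  WithLp.toLp 2 fun j => (q.1 j : ℂ) + Complex.I * (q.2 j : ℂ)

/-- `u_j = ∂_j Q (Re z) - i ∂_j Q (Im z)` -/
noncomputable def uQ {n : ℕ} (F : Finset (E n)) (p : ℕ) (z : En n) (j : Fin n) : ℂ :=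
  (gQ F p (reP z) j : ℂ) - Complex.I * (gQ F p (imP z) j : ℂ)

/-- `v_j = e z̄_j` -/
noncomputable def vQ {n : ℕ} (e : ℝ) (z : En n) (j : Fin n) : ℂ := (e : ℂ) * (starRingEnd ℂ) (z j)

/-- `w = s² u + v` -/
noncomputable def Ws {n : ℕ} (u v : En n → Fin n → ℂ) (s : ℝ) (z : En n) (j : Fin n) : ℂ :=
  (s : ℂ) ^ 2 * u z j + v z j

/-- the matrix of the `∂̄_k w_j` -/
noncomputable def MW {n : ℕ} (w : En n → Fin n → ℂ) (z : En n) : Matrix (Fin n) (Fin n) ℂ :=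
  Matrix.of fun j k => db k (fun y => w y j) z

/-- `exp (- z·w / 2)` -/
noncomputable def ex {n : ℕ} (w : En n → Fin n → ℂ) (z : En n) : ℂ :=
  Complex.exp (-(1 / 2) * ∑ j, z j * w z j)

/-- the integrand -/
noncomputable def FI {n : ℕ} (w : En n → Fin n → ℂ) (z : En n) : ℂ := ex w z * (MW w z).det

/-- the vector field -/
noncomputable def VI {n : ℕ} (w η : En n → Fin n → ℂ) (k : Fin n) (z : En n) : ℂ :=
  ex w z * ((MW w z).updateCol k (fun j => η z j)).det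

end Pool.Agent.MP5e7226.HL
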