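import Mathlib
import Pool.Agent.Lib.MP_5e7226_co.HL.BDefs
import Pool.Agent.Lib.MP_5e7226_co.HL.A1

/-!
Task HL B1: the function `φ = Q + (e/2)|x|²`: convexity, monotone gradient, Hessian.
-/

set_option autoImplicit false

open MeasureTheory Set
open scoped InnerProductSpace ENNReal Pointwise

namespace Pool.Agent.MP5e7226.HL

variable {n : ℕ}

theorem Qf_nonneg (F : Finset (E n)) (p : ℕ) (x : E n) : 0 ≤ Qf F p x :=
  Finset.sum_nonneg fun _ _ => (even_two_mul p).pow_nonneg _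

theorem B1_inner_gQ (F : Finset (E n)) (p : ℕ) (x y : E n) :
    ⟪gQ F p x, y⟫_ℝ = ∑ f ∈ F, 2 * (p : ℝ) * ⟪f, x⟫_ℝ ^ (2 * p - 1) * ⟪f, y⟫_ℝ := by
  unfold gQ
  rw [sum_inner]
  refine Finset.sum_congr rfl fun f _ => ?_
  rw [real_inner_smul_left]

theorem inner_gQ_nonneg (F : Finset (E n)) {p : ℕ} (hp : 1 ≤ p) (x : E n) : 0 ≤ ⟪gQ F p x, x⟫_ℝ := by
  rw [B1_inner_gQ]
  refine Finset.sum_nonneg fun f _ => ?_
  rw [mul_assoc, ← pow_succ, show 2 * p - 1 + 1 = 2 * p by omega]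
  exact mul_nonneg (by positivity) ((even_two_mul p).pow_nonneg _)

theorem B1_amgm {a b : ℝ} (ha : 0 ≤ a) (hb : 0 ≤ b) (m : ℕ) :
    ((m : ℝ) + 1) * b ^ m * a ≤ a ^ (m + 1) + m * b ^ (m + 1) := by
  induction m with
  | zero => simp
  | succ m ih =>
    have h1 := mul_le_mul_of_nonneg_left ih ha
    have h2 : 0 ≤ ((m : ℝ) + 1) * b ^ m * (a - b) ^ 2 := by positivity
    push_cast
    have e1 : a * (((m : ℝ) + 1) * b ^ m * a) = ((m : ℝ) + 1) * b ^ m * a ^ 2 := by ring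
    have e2 : a * (a ^ (m + 1) + m * b ^ (m + 1)) = a ^ (m + 1 + 1) + m * (b ^ m * b * a) := by ring
    have e3 : ((m : ℝ) + 1) * b ^ m * (a - b) ^ 2 = ((m : ℝ) + 1) * b ^ m * a ^ 2
        - 2 * ((m : ℝ) + 1) * (b ^ m * b * a) + ((m : ℝ) + 1) * b ^ (m + 1 + 1) := by ring
    have e4 : ((m : ℝ) + 1 + 1) * b ^ (m + 1) * a = ((m : ℝ) + 2) * (b ^ m * b * a) := by ring
    rw [e1, e2] at h1
    rw [e3] at h2
    rw [e4]
    linarith

theorem B1_scalar {p : ℕ} (hp : 1 ≤ p) (u v : ℝ) :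
    v ^ (2 * p) + 2 * (p : ℝ) * v ^ (2 * p - 1) * (u - v) ≤ u ^ (2 * p) := by
  have h1 := B1_amgm (abs_nonneg u) (abs_nonneg v) (2 * p - 1)
  have e0 : 2 * p - 1 + 1 = 2 * p := by omega
  have e1 : ((2 * p - 1 : ℕ) : ℝ) = 2 * (p : ℝ) - 1 := by
    rw [Nat.cast_sub (by omega)]
    push_cast
    ring
  rw [e0, e1, (even_two_mul p).pow_abs, (even_two_mul p).pow_abs] at h1
  have h2 : v ^ (2 * p - 1) * u ≤ |v| ^ (2 * p - 1) * |u| := by
    rw [← abs_pow, ← abs_mul]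
    exact le_abs_self _
  have h3 : v ^ (2 * p - 1) * v = v ^ (2 * p) := by
    rw [← pow_succ, e0]
  have hpp : (0 : ℝ) ≤ 2 * (p : ℝ) := by positivity
  have h4 := mul_le_mul_of_nonneg_left h2 hpp
  have e5 : 2 * (p : ℝ) * v ^ (2 * p - 1) * (u - v) =
      2 * (p : ℝ) * (v ^ (2 * p - 1) * u) - 2 * (p : ℝ) * (v ^ (2 * p - 1) * v) := by ring
  have e6 : (2 * (p : ℝ) - 1 + 1) * |v| ^ (2 * p - 1) * |u| =
      2 * (p : ℝ) * (|v| ^ (2 * p - 1) * |u|) := by ring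
  rw [e5, h3]
  rw [e6] at h1
  linarith

theorem ph_first_order (F : Finset (E n)) {p : ℕ} (hp : 1 ≤ p) {e : ℝ} (he : 0 ≤ e) (a y : E n) :
    ph F p e a + ⟪gp F p e a, y - a⟫_ℝ ≤ ph F p e y := by
  unfold ph gp
  rw [inner_add_left, B1_inner_gQ, real_inner_smul_left]
  have h1 : Qf F p a + ∑ f ∈ F, 2 * (p : ℝ) * ⟪f, a⟫_ℝ ^ (2 * p - 1) * ⟪f, y - a⟫_ℝ ≤ Qf F p y := by
    unfold Qf
    rw [← Finset.sum_add_distrib]
    refine Finset.sum_le_sum fun f _ => ?_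
    rw [inner_sub_right]
    exact B1_scalar hp _ _
  have h2 : e / 2 * ‖a‖ ^ 2 + e * ⟪a, y - a⟫_ℝ ≤ e / 2 * ‖y‖ ^ 2 := by
    have h3 : ‖y‖ ^ 2 = ‖a‖ ^ 2 + 2 * ⟪a, y - a⟫_ℝ + ‖y - a‖ ^ 2 := by
      have := norm_add_sq_real a (y - a)
      rwa [add_sub_cancel] at this
    rw [h3]
    nlinarith [mul_nonneg he (sq_nonneg ‖y - a‖)]
  linarith

theorem ph_midpoint (F : Finset (E n)) {p : ℕ} (hp : 1 ≤ p) {e : ℝ} (he : 0 ≤ e) (a b : E n) :
    ph F p e ((1 / 2 : ℝ) • (a + b)) ≤ (1 / 2) * (ph F p e a + ph F p e b) := by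
  have h1 := ph_first_order F hp he ((1 / 2 : ℝ) • (a + b)) a
  have h2 := ph_first_order F hp he ((1 / 2 : ℝ) • (a + b)) b
  have h3 : b - (1 / 2 : ℝ) • (a + b) = -(a - (1 / 2 : ℝ) • (a + b)) := by
    module
  rw [h3, inner_neg_right] at h2
  linarith

theorem gp_monotone (F : Finset (E n)) {p : ℕ} (hp : 1 ≤ p) (e : ℝ) (a b : E n) :
    e * ‖a - b‖ ^ 2 ≤ ⟪gp F p e a - gp F p e b, a - b⟫_ℝ := by
  have h1 := ph_first_order F hp (le_refl (0 : ℝ)) a b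
  have h2 := ph_first_order F hp (le_refl (0 : ℝ)) b a
  unfold ph gp at h1 h2
  simp only [zero_div, zero_mul, add_zero, zero_smul] at h1 h2
  unfold gp
  have h3 : gQ F p a + e • a - (gQ F p b + e • b) = (gQ F p a - gQ F p b) + e • (a - b) := by
    rw [smul_sub]
    abel
  rw [h3, inner_add_left, real_inner_smul_left, real_inner_self_eq_norm_sq, inner_sub_left]
  have h4 : b - a = -(a - b) := by abel
  rw [h4, inner_neg_right] at h1
  linarith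

theorem hasFDerivAt_gp (F : Finset (E n)) {p : ℕ} (hp : 1 ≤ p) (e : ℝ) (x : E n) :
    HasFDerivAt (gp F p e) (Matrix.toEuclideanCLM (n := Fin n) (𝕜 := ℝ) (Hp F p e x)) x := by
  have h1 : ∀ f : E n, HasFDerivAt (fun x : E n => (2 * (p : ℝ) * ⟪f, x⟫_ℝ ^ (2 * p - 1)) • f)
      ((2 * (p : ℝ)) • (((2 * p - 1 : ℕ) : ℝ) * ⟪f, x⟫_ℝ ^ (2 * p - 2)) •
        (innerSL ℝ f).smulRight f) x := by
    intro f
    have h2 : HasFDerivAt (fun x : E n => ⟪f, x⟫_ℝ) (innerSL ℝ f) x := (innerSL ℝ f).hasFDerivAt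
    have h3 := ((h2.pow (2 * p - 1)).const_mul (2 * (p : ℝ))).smul_const f
    refine h3.congr_fderiv ?_
    ext h j
    simp only [ContinuousLinearMap.smulRight_apply, smul_apply, PiLp.smul_apply,
      smul_eq_mul, innerSL_apply_apply, nsmul_eq_mul]
    rw [show 2 * p - 1 - 1 = 2 * p - 2 by omega]
    ring
  have h4 : HasFDerivAt (gp F p e) (∑ f ∈ F, ((2 * (p : ℝ)) • (((2 * p - 1 : ℕ) : ℝ) *
      ⟪f, x⟫_ℝ ^ (2 * p - 2)) • (innerSL ℝ f).smulRight f) + e • ContinuousLinearMap.id ℝ (E n)) x :=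
    (HasFDerivAt.fun_sum fun f _ => h1 f).add ((hasFDerivAt_id x).const_smul e)
  refine h4.congr_fderiv ?_
  have e1 : ((2 * p - 1 : ℕ) : ℝ) = 2 * (p : ℝ) - 1 := by
    rw [Nat.cast_sub (by omega)]
    push_cast
    ring
  ext h j
  rw [Matrix.ofLp_toEuclideanCLM]
  simp only [add_apply, sum_apply, smul_apply, ContinuousLinearMap.smulRight_apply, PiLp.add_apply,
    PiLp.smul_apply, smul_eq_mul, ContinuousLinearMap.id_apply]
  have e2 : (Hp F p e x).mulVec h.ofLp j = (∑ f ∈ F, 2 * (p : ℝ) * (2 * (p : ℝ) - 1) *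
      ⟪f, x⟫_ℝ ^ (2 * p - 2) * f j * ⟪f, h⟫_ℝ) + e * h j := by
    unfold Hp HQ Matrix.mulVec dotProduct
    simp only [Matrix.add_apply, Matrix.of_apply, Matrix.smul_apply, smul_eq_mul, add_mul,
      Finset.sum_add_distrib, Matrix.one_apply, mul_ite, mul_one, mul_zero, ite_mul, zero_mul,
      Finset.sum_ite_eq, Finset.mem_univ, if_true]
    congr 1
    simp only [Finset.sum_mul]
    rw [Finset.sum_comm]
    refine Finset.sum_congr rfl fun f _ => ?_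
    have e3 : ⟪f, h⟫_ℝ = ∑ k, ⟪f k, h k⟫_ℝ := PiLp.inner_apply _ _
    rw [e3, Finset.mul_sum]
    refine Finset.sum_congr rfl fun k _ => ?_
    simp only [RCLike.inner_apply, conj_trivial]
    ring
  rw [e2, WithLp.ofLp_sum, Finset.sum_apply]
  congr 1
  refine Finset.sum_congr rfl fun f _ => ?_
  simp only [PiLp.smul_apply, smul_eq_mul, innerSL_apply_apply]
  rw [e1]
  ring

theorem continuous_gp (F : Finset (E n)) (p : ℕ) (e : ℝ) : Continuous (gp F p e) := by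
  unfold gp gQ
  fun_prop

theorem continuous_Hp (F : Finset (E n)) (p : ℕ) (e : ℝ) : Continuous (Hp F p e) := by
  refine continuous_matrix fun j k => ?_
  unfold Hp HQ
  simp only [Matrix.add_apply, Matrix.of_apply, Matrix.smul_apply]
  refine Continuous.add ?_ continuous_const
  refine continuous_finsetSum _ fun f _ => ?_
  fun_prop

theorem det_pos (F : Finset (E n)) {p : ℕ} (hp : 1 ≤ p) {e : ℝ} (he : 0 < e) (a b : E n) :
    0 < (Hp F p e a + Hp F p e b).det := by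
  have h1 : ∀ x : E n, (HQ F p x).PosSemidef := by
    intro x
    have h2 : HQ F p x = ∑ f ∈ F, (2 * (p : ℝ) * (2 * (p : ℝ) - 1) * ⟪f, x⟫_ℝ ^ (2 * p - 2)) •
        Matrix.vecMulVec (fun j => f j) (star fun j => f j) := by
      ext j k
      rw [Matrix.sum_apply]
      unfold HQ
      rw [Matrix.of_apply]
      refine Finset.sum_congr rfl fun f _ => ?_
      simp only [Matrix.smul_apply, Matrix.vecMulVec_apply, smul_eq_mul, star_trivial]
      ring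
    rw [h2]
    refine Matrix.posSemidef_sum _ fun f _ => ?_
    refine (Matrix.posSemidef_vecMulVec_self_star _).smul ?_
    have h3 : (1 : ℝ) ≤ p := by exact_mod_cast hp
    have h4 : 2 * p - 2 = 2 * (p - 1) := by omega
    rw [h4]
    have h5 : 0 ≤ ⟪f, x⟫_ℝ ^ (2 * (p - 1)) := (even_two_mul (p - 1)).pow_nonneg _
    have h6 : (0 : ℝ) ≤ 2 * (p : ℝ) * (2 * (p : ℝ) - 1) := mul_nonneg (by linarith) (by linarith)
    exact mul_nonneg h6 h5
  have h7 : ∀ x : E n, (Hp F p e x).PosDef := by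
    intro x
    exact Matrix.PosDef.posSemidef_add (h1 x) (Matrix.PosDef.one.smul he)
  exact ((h7 a).add (h7 b)).det_pos

theorem B1_ps_le {Z : Set (E n)} (h : SB Z) (F : Finset (E n)) {p : ℕ} (hp : 1 ≤ p) {e : ℝ} (he : 0 ≤ e)
    {θ : ℝ} (H : ∀ x ∈ Z, ph F p e (θ⁻¹ • x) ≤ Real.log θ) (a : E n) :
    ps θ Z (gp F p e a) ≤ ⟪a, gp F p e a⟫_ℝ - ph F p e a := by
  obtain ⟨x₀, hx₀, hx⟩ := h.exists_hN (gp F p e a)
  have h1 := ph_first_order F hp he a (θ⁻¹ • x₀)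
  have h2 := H x₀ hx₀
  rw [inner_sub_right, real_inner_smul_right, real_inner_comm, hx, real_inner_comm] at h1
  unfold ps
  linarith

theorem young {Z : Set (E n)} (h : SB Z) (F : Finset (E n)) {p : ℕ} (hp : 1 ≤ p) {e : ℝ} (he : 0 ≤ e)
    {θ : ℝ} (hθ : 1 < θ) (H : ∀ x ∈ Z, ph F p e (θ⁻¹ • x) ≤ Real.log θ) (a b : E n) :
    ph F p e ((1 / 2 : ℝ) • (a + b)) + ps θ Z ((1 / 2 : ℝ) • (gp F p e a - gp F p e b)) ≤
      (1 / 2) * (⟪a, gp F p e a⟫_ℝ + ⟪b, gp F p e b⟫_ℝ) := by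
  have h1 := ph_midpoint F hp he a b
  have h2 := B1_ps_le h F hp he H a
  have h3 := B1_ps_le h F hp he H b
  have h4 : hN Z ((1 / 2 : ℝ) • (gp F p e a - gp F p e b)) ≤
      (1 / 2) * (hN Z (gp F p e a) + hN Z (gp F p e b)) := by
    rw [h.hN_smul, abs_of_pos (by norm_num)]
    exact mul_le_mul_of_nonneg_left (h.hN_sub_le _ _) (by norm_num)
  have h5 : 0 < θ⁻¹ := inv_pos.2 (by linarith)
  have h6 := mul_le_mul_of_nonneg_left h4 h5.le
  unfold ps at h2 h3 ⊢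
  linarith

end Pool.Agent.MP5e7226.HL
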