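import Mathlib
import Pool.Agent.Lib.MP_5e7226_co.HL.B1

/-!
Task HL B10: the two integrals.

PROOFS. Both use `MeasureTheory.measure_lt_one_eq_integral_div_gamma` (Mathlib, VolumeOfBalls) for the
volume on `E n`, `finrank = n`.
`lintegral_ps`: `g = hN Z`, exponent `1`: `volume {v | hN Z v < 1} = ofReal ((∫ exp(-hN Z v)) / Γ(n + 1))`,
`Γ(n+1) = n!`; `{hN Z v < 1} ⊆ pol Z`. With the factor `θ⁻¹`: apply it to `g v = θ⁻¹ hN Z v`:
`{g < 1} = {hN Z v < θ} ⊆ θ • pol Z`, so `∫ exp(-θ⁻¹ hN Z v) ≤ θ^n n! vol (pol Z)`, and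
`exp(-ps) = θ exp(-θ⁻¹ hN Z v)`. To pass from the Bochner integral to `∫⁻`: the function is integrable
(`exp(-θ⁻¹ c‖v‖)` with `exists_lower`; e.g. bounded by a constant times `(1 + ‖v‖)^(-n-1)`,
`integrable_one_add_norm`), `ofReal_integral_eq_lintegral_ofReal`.
`lintegral_ph`: let `g x = max (over f ∈ F) |⟪f, x⟫|` (e.g. `((F.sup fun f => ‖⟪f, x⟫‖₊ : ℝ≥0) : ℝ)`), a norm:
if `g x = 0` then `g (t x) = 0 ≤ 1`, so `t x ∈ θ • Z` for all `t`, which is bounded, so `x = 0`.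
`Qf F p x ≥ (g x)^(2p)` so `∫ exp(-ph) ≤ ∫ exp(-(g x)^(2p)) = Γ(n/(2p) + 1) vol {g < 1}`, and
`Γ ≤ 1` on `[1, 2]` (`Real.convexOn_Gamma`, `Γ 1 = Γ 2 = 1`), `{g < 1} ⊆ θ • Z` has volume `≤ θ^n vol Z`.
(Integrability: from `g x ≥ c ‖x‖`, or because the integral formula would give volume `0` for the
nonempty open set `{g < 1}` if the integral were zero, `integral_undef`.)
If `n = 0`: the functions are constants on a one point space; the general argument works too.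
-/

set_option autoImplicit false

open MeasureTheory Set
open scoped InnerProductSpace ENNReal Pointwise Nat

namespace Pool.Agent.MP5e7226.HL

variable {n : ℕ}

private theorem B10_lint {g : E n → ℝ} (h1 : g 0 = 0)
    (h2 : ∀ x, g (-x) = g x) (h3 : ∀ x y, g (x + y) ≤ g x + g y) (h4 : ∀ {x}, g x = 0 → x = 0)
    (h5 : ∀ (r : ℝ) x, g (r • x) ≤ |r| * (g x)) (hc : Continuous g) {p : ℝ} (hp : 0 < p) :
    ∫⁻ x, ENNReal.ofReal (Real.exp (-(g x) ^ p)) =
      ENNReal.ofReal (Real.Gamma ((n : ℝ) / p + 1)) * volume {x | g x < 1} := by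
  have key := MeasureTheory.measure_lt_one_eq_integral_div_gamma (volume : Measure (E n))
    h1 h2 h3 h4 h5 hp
  have hfr : Module.finrank ℝ (E n) = n := finrank_euclideanSpace_fin
  rw [hfr] at key
  have hΓ : 0 < Real.Gamma ((n : ℝ) / p + 1) := Real.Gamma_pos_of_pos (by positivity)
  have hopen : IsOpen {x | g x < 1} := isOpen_lt hc continuous_const
  have hpos : volume {x | g x < 1} ≠ 0 := by
    refine (hopen.measure_pos volume ⟨0, ?_⟩).ne'
    show g 0 < 1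
    rw [h1]
    exact one_pos
  have hint : Integrable (fun x => Real.exp (-(g x) ^ p)) (volume : Measure (E n)) := by
    by_contra hni
    rw [integral_undef hni, zero_div, ENNReal.ofReal_zero] at key
    exact hpos key
  rw [← ofReal_integral_eq_lintegral_ofReal hint (Filter.Eventually.of_forall fun x =>
    (Real.exp_pos _).le), key, ← ENNReal.ofReal_mul hΓ.le, mul_div_cancel₀ _ hΓ.ne']

private theorem B10_gamma {x : ℝ} (h1 : 1 ≤ x) (h2 : x ≤ 2) : Real.Gamma x ≤ 1 := by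
  have m1 : (1 : ℝ) ∈ Ioi (0 : ℝ) := mem_Ioi.2 one_pos
  have m2 : (2 : ℝ) ∈ Ioi (0 : ℝ) := mem_Ioi.2 two_pos
  have h := Real.convexOn_Gamma.2 m1 m2 (show 0 ≤ 2 - x by linarith)
    (show 0 ≤ x - 1 by linarith) (by ring)
  rw [Real.Gamma_one, Real.Gamma_two] at h
  have e1 : (2 - x) • (1 : ℝ) + (x - 1) • (2 : ℝ) = x := by simp only [smul_eq_mul]; ring
  rw [e1] at h
  simp only [smul_eq_mul] at h
  linarith

private noncomputable def B10_g (F : Finset (E n)) (x : E n) : ℝ :=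
  ((F.sup fun f => ‖⟪f, x⟫_ℝ‖₊ : NNReal) : ℝ)

private theorem B10_le {F : Finset (E n)} {x : E n} {f : E n} (hf : f ∈ F) :
    |⟪f, x⟫_ℝ| ≤ B10_g F x := by
  have h1 : ‖⟪f, x⟫_ℝ‖₊ ≤ F.sup fun f => ‖⟪f, x⟫_ℝ‖₊ :=
    Finset.le_sup (f := fun f => ‖⟪f, x⟫_ℝ‖₊) hf
  have h2 := NNReal.coe_le_coe.2 h1
  rwa [coe_nnnorm, Real.norm_eq_abs] at h2

private theorem B10_le_of {F : Finset (E n)} {x : E n} {r : ℝ} (hr : 0 ≤ r)
    (h : ∀ f ∈ F, |⟪f, x⟫_ℝ| ≤ r) : B10_g F x ≤ r := by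
  have h1 : (F.sup fun f => ‖⟪f, x⟫_ℝ‖₊) ≤ r.toNNReal := by
    refine Finset.sup_le fun f hf => ?_
    refine NNReal.coe_le_coe.1 ?_
    rw [Real.coe_toNNReal r hr, coe_nnnorm, Real.norm_eq_abs]
    exact h f hf
  have h2 := NNReal.coe_le_coe.2 h1
  rwa [Real.coe_toNNReal r hr] at h2

private theorem B10_nonneg (F : Finset (E n)) (x : E n) : 0 ≤ B10_g F x := NNReal.coe_nonneg _

private theorem B10_pow {F : Finset (E n)} {p : ℕ} (hp : 1 ≤ p) (x : E n) :
    B10_g F x ^ (2 * p) ≤ Qf F p x := by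
  rcases F.eq_empty_or_nonempty with hF | hF
  · subst hF
    have : B10_g (∅ : Finset (E n)) x = 0 := by simp [B10_g]
    rw [this, zero_pow (by omega)]
    exact Qf_nonneg _ _ _
  · obtain ⟨f, hf, he⟩ := Finset.exists_mem_eq_sup F hF fun f => ‖⟪f, x⟫_ℝ‖₊
    have h1 : B10_g F x = |⟪f, x⟫_ℝ| := by
      rw [B10_g, he, coe_nnnorm, Real.norm_eq_abs]
    rw [h1, pow_mul, sq_abs, ← pow_mul, Qf]
    exact Finset.single_le_sum (f := fun f => ⟪f, x⟫_ℝ ^ (2 * p))
      (fun i _ => by rw [pow_mul]; positivity) hf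

theorem lintegral_ph {Z : Set (E n)} (h : SB Z) {θ : ℝ} (hθ : 1 < θ) (F : Finset (E n))
    (hF : ∀ x : E n, (∀ f ∈ F, |⟪f, x⟫_ℝ| ≤ 1) → x ∈ θ • Z) {p : ℕ} (hp : 1 ≤ p) (hn : n ≤ 2 * p)
    {e : ℝ} (he : 0 ≤ e) :
    ∫⁻ x, ENNReal.ofReal (Real.exp (-ph F p e x)) ≤ ENNReal.ofReal (θ ^ n) * volume Z := by
  have hθ0 : 0 < θ := by linarith
  obtain ⟨R, hR, hRZ⟩ := h.exists_bound
  have g1 : B10_g F (0 : E n) = 0 :=
    le_antisymm (B10_le_of le_rfl fun f _ => by simp) (B10_nonneg _ _)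
  have g2 : ∀ x : E n, B10_g F (-x) = B10_g F x := by
    intro x
    simp [B10_g]
  have g3 : ∀ x y : E n, B10_g F (x + y) ≤ B10_g F x + B10_g F y := by
    intro x y
    refine B10_le_of (add_nonneg (B10_nonneg _ _) (B10_nonneg _ _)) fun f hf => ?_
    rw [inner_add_right]
    exact (abs_add_le _ _).trans (add_le_add (B10_le hf) (B10_le hf))
  have g5 : ∀ (r : ℝ) (x : E n), B10_g F (r • x) ≤ |r| * B10_g F x := by
    intro r x
    refine B10_le_of (mul_nonneg (abs_nonneg _) (B10_nonneg _ _)) fun f hf => ?_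
    rw [inner_smul_right, abs_mul]
    exact mul_le_mul_of_nonneg_left (B10_le hf) (abs_nonneg _)
  have g4 : ∀ {x : E n}, B10_g F x = 0 → x = 0 := by
    intro x hx
    by_contra hne
    have hxn : 0 < ‖x‖ := norm_pos_iff.2 hne
    have h1 : ((θ * R + 1) / ‖x‖) • x ∈ θ • Z := by
      refine hF _ fun f hf => ?_
      have h2 := B10_le (x := x) hf
      rw [hx] at h2
      rw [inner_smul_right, abs_mul]
      have h3 : |⟪f, x⟫_ℝ| = 0 := le_antisymm h2 (abs_nonneg _)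
      rw [h3, mul_zero]
      exact zero_le_one
    obtain ⟨z, hz, hzx⟩ := h1
    have h4 : ‖((θ * R + 1) / ‖x‖) • x‖ = θ * R + 1 := by
      rw [norm_smul, Real.norm_eq_abs, abs_of_nonneg (by positivity)]
      field_simp
    have h5 : ‖((θ * R + 1) / ‖x‖) • x‖ ≤ θ * R := by
      rw [← hzx]
      show ‖θ • z‖ ≤ θ * R
      rw [norm_smul, Real.norm_eq_abs, abs_of_pos hθ0]
      exact mul_le_mul_of_nonneg_left (hRZ z hz) hθ0.le
    linarith
  have gc : Continuous (B10_g F : E n → ℝ) := by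
    unfold B10_g
    refine NNReal.continuous_coe.comp ?_
    refine Continuous.finset_sup_apply fun f _ => ?_
    fun_prop
  have hp0 : (0 : ℝ) < ((2 * p : ℕ) : ℝ) := by
    have : 0 < 2 * p := by omega
    exact_mod_cast this
  have key := B10_lint g1 g2 g3 g4 g5 gc hp0
  calc ∫⁻ x, ENNReal.ofReal (Real.exp (-ph F p e x))
      ≤ ∫⁻ x : E n, ENNReal.ofReal (Real.exp (-(B10_g F x) ^ (((2 * p : ℕ) : ℝ)))) := by
        refine lintegral_mono fun x => ENNReal.ofReal_le_ofReal (Real.exp_le_exp.2 ?_)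
        rw [Real.rpow_natCast]
        have h1 := B10_pow (F := F) hp x
        have h2 : 0 ≤ e / 2 * ‖x‖ ^ 2 := by positivity
        unfold ph
        linarith
    _ = ENNReal.ofReal (Real.Gamma ((n : ℝ) / ((2 * p : ℕ) : ℝ) + 1)) *
        volume {x : E n | B10_g F x < 1} := key
    _ ≤ 1 * volume (θ • Z) := by
        refine mul_le_mul' ?_ (measure_mono fun x hx => hF x fun f hf => ?_)
        · rw [ENNReal.ofReal_le_one]
          refine B10_gamma ?_ ?_
          · have : (0 : ℝ) ≤ (n : ℝ) / ((2 * p : ℕ) : ℝ) := by positivity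
            linarith
          · have : (n : ℝ) / ((2 * p : ℕ) : ℝ) ≤ 1 := by
              rw [div_le_one hp0]
              exact_mod_cast hn
            linarith
        · exact (B10_le hf).trans (le_of_lt hx)
    _ = ENNReal.ofReal (θ ^ n) * volume Z := by
        rw [one_mul, Measure.addHaar_smul, finrank_euclideanSpace_fin, abs_of_pos (by positivity)]

theorem lintegral_ps {Z : Set (E n)} (h : SB Z) {θ : ℝ} (hθ : 1 < θ) :
    ∫⁻ v, ENNReal.ofReal (Real.exp (-ps θ Z v)) ≤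
      ENNReal.ofReal (θ ^ (n + 1) * n !) * volume (pol Z) := by
  have hθ0 : 0 < θ := by linarith
  have hi : 0 < θ⁻¹ := inv_pos.2 hθ0
  have g1 : θ⁻¹ * hN Z 0 = 0 := by rw [h.hN_zero, mul_zero]
  have g2 : ∀ x : E n, θ⁻¹ * hN Z (-x) = θ⁻¹ * hN Z x := fun x => by rw [h.hN_neg]
  have g3 : ∀ x y : E n, θ⁻¹ * hN Z (x + y) ≤ θ⁻¹ * hN Z x + θ⁻¹ * hN Z y := by
    intro x y
    rw [← mul_add]
    exact mul_le_mul_of_nonneg_left (h.hN_add_le x y) hi.le
  have g4 : ∀ {x : E n}, θ⁻¹ * hN Z x = 0 → x = 0 := by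
    intro x hx
    by_contra hne
    have := mul_pos hi (h.hN_pos hne)
    linarith
  have g5 : ∀ (r : ℝ) (x : E n), θ⁻¹ * hN Z (r • x) ≤ |r| * (θ⁻¹ * hN Z x) := by
    intro r x
    rw [h.hN_smul]
    exact le_of_eq (by ring)
  have gc : Continuous fun x : E n => θ⁻¹ * hN Z x := continuous_const.mul h.continuous_hN
  have key := B10_lint (g := fun x : E n => θ⁻¹ * hN Z x) g1 g2 g3 g4 g5 gc one_pos
  have hset : {x : E n | θ⁻¹ * hN Z x < 1} = {y | hN Z (y - 0) < θ} := by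
    ext x
    simp only [Set.mem_ofPred_eq, sub_zero]
    rw [inv_mul_lt_iff₀ hθ0, mul_one]
  rw [hset, h.volume_hN_lt 0 hθ0] at key
  have hexp : ∀ v : E n, ENNReal.ofReal (Real.exp (-ps θ Z v)) =
      ENNReal.ofReal θ * ENNReal.ofReal (Real.exp (-(θ⁻¹ * hN Z v) ^ (1 : ℝ))) := by
    intro v
    rw [← ENNReal.ofReal_mul hθ0.le, Real.rpow_one, ps]
    congr 1
    rw [neg_sub, sub_eq_add_neg, Real.exp_add, Real.exp_log hθ0]
  simp only [hexp]
  rw [lintegral_const_mul' _ _ ENNReal.ofReal_ne_top, key]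
  rw [div_one, Real.Gamma_nat_eq_factorial, ← mul_assoc, ← mul_assoc,
    ← ENNReal.ofReal_mul hθ0.le, ← ENNReal.ofReal_mul (by positivity)]
  refine le_of_eq ?_
  congr 2
  ring

end Pool.Agent.MP5e7226.HL
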