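import Mathlib
import Pool.Agent.Lib.MP_5e7226_co.HL.BDefs
import Pool.Agent.Lib.MP_ca0fc2_an.Mg.G082
import Pool.Agent.Lib.MP_ca0fc2_an.Mg.G083

/-!
Task HL B2: `u` and `v`: temperate growth, the matrix of the `∂̄_k w_j`, the exponent.

PROOFS. `hasTemperateGrowth_uQ`: `reP`, `imP` are (real) continuous linear, composition with the
continuous linear functionals `z ↦ ⟪f, reP z⟫`, powers, products, sums, `Complex.ofReal`
(file Mathlib/Analysis/Distribution/TemperateGrowth.lean: `HasTemperateGrowth.mul`, `.pow`, `.sum`,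
`.comp`, `ContinuousLinearMap.hasTemperateGrowth`).
`db_uQ`: `db k F z = (1/2) (fderiv ℝ F z e_k + i fderiv ℝ F z (i e_k))`; for `F = uQ · j`: the derivative in
the direction `e_k` only sees `reP` and is `HQ (reP z) j k`; in the direction `i e_k` it is
`-i HQ (imP z) j k`. So `db k = (1/2) (HQ (reP z) j k + HQ (imP z) j k)`.
(`gQ F p x j = ∑ f, 2p ⟪f, x⟫^(2p-1) f j`.) `db_vQ`: `db k z̄_j = δ_jk`.
`db_const_mul`, `db_add` are in CXDbA.
`sum_zw`: `z_j = a_j + i b_j`, `w_j = gp a j - i gp b j` where `w = Ws u v 1`. For general `s`: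
`Re ∑ z_j w_j = s² (⟪a, gQ a⟫ + ⟪b, gQ b⟫) + e ‖z‖² ≥ e ‖z‖²` (`inner_gQ_nonneg` is in B1; prove it again
privately or import B1).
-/

set_option autoImplicit false

open MeasureTheory Set
open scoped InnerProductSpace ENNReal Pointwise

namespace Pool.Agent.MP5e7226.HL

open Pool.Agent.MPca0fc2.CX (En ee db)

variable {n : ℕ}

private noncomputable def B2_re (f : E n) : En n →L[ℝ] ℝ :=
  ∑ j, f j • (Complex.reCLM.comp
    ((EuclideanSpace.proj (𝕜 := ℂ) j : En n →L[ℂ] ℂ).restrictScalars ℝ))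

private noncomputable def B2_im (f : E n) : En n →L[ℝ] ℝ :=
  ∑ j, f j • (Complex.imCLM.comp
    ((EuclideanSpace.proj (𝕜 := ℂ) j : En n →L[ℂ] ℂ).restrictScalars ℝ))

private theorem B2_re_apply' (f : E n) (z : En n) : B2_re f z = ∑ j, f j * (z j).re := by
  simp [B2_re, sum_apply]

private theorem B2_im_apply' (f : E n) (z : En n) : B2_im f z = ∑ j, f j * (z j).im := by
  simp [B2_im, sum_apply]

private theorem B2_inner (x y : E n) : ⟪x, y⟫_ℝ = ∑ j, x j * y j := by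
  rw [PiLp.inner_apply]
  refine Finset.sum_congr rfl fun j _ => ?_
  simp [mul_comm]

private theorem B2_re_apply (f : E n) (z : En n) : B2_re f z = ⟪f, reP z⟫_ℝ := by
  rw [B2_re_apply', B2_inner]
  rfl

private theorem B2_im_apply (f : E n) (z : En n) : B2_im f z = ⟪f, imP z⟫_ℝ := by
  rw [B2_im_apply', B2_inner]
  rfl

private theorem B2_gQ_apply (F : Finset (E n)) (p : ℕ) (x : E n) (j : Fin n) :
    gQ F p x j = ∑ f ∈ F, 2 * (p : ℝ) * ⟪f, x⟫_ℝ ^ (2 * p - 1) * f j := by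
  have h := map_sum (EuclideanSpace.proj (𝕜 := ℝ) j : E n →L[ℝ] ℝ)
    (fun f : E n => (2 * (p : ℝ) * ⟪f, x⟫_ℝ ^ (2 * p - 1)) • f) F
  simp only [map_smul, PiLp.proj_apply, smul_eq_mul] at h
  exact h

theorem hasTemperateGrowth_uQ (F : Finset (E n)) (p : ℕ) (j : Fin n) :
    Function.HasTemperateGrowth fun z : En n => uQ F p z j := by
  have h1 : Function.HasTemperateGrowth fun z : En n => gQ F p (reP z) j := by
    have h2 : (fun z : En n => gQ F p (reP z) j) =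
        fun z => ∑ f ∈ F, 2 * (p : ℝ) * (B2_re f z) ^ (2 * p - 1) * f j := by
      funext z
      rw [B2_gQ_apply]
      simp only [B2_re_apply]
    rw [h2]
    exact Function.HasTemperateGrowth.sum
      (f := fun f z => 2 * (p : ℝ) * (B2_re f z) ^ (2 * p - 1) * f j) fun f _ =>
      ((Function.HasTemperateGrowth.const (2 * (p : ℝ))).mul
        ((B2_re f).hasTemperateGrowth.pow (2 * p - 1))).mul (Function.HasTemperateGrowth.const (f j))
  have h1' : Function.HasTemperateGrowth fun z : En n => gQ F p (imP z) j := by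
    have h2 : (fun z : En n => gQ F p (imP z) j) =
        fun z => ∑ f ∈ F, 2 * (p : ℝ) * (B2_im f z) ^ (2 * p - 1) * f j := by
      funext z
      rw [B2_gQ_apply]
      simp only [B2_im_apply]
    rw [h2]
    exact Function.HasTemperateGrowth.sum
      (f := fun f z => 2 * (p : ℝ) * (B2_im f z) ^ (2 * p - 1) * f j) fun f _ =>
      ((Function.HasTemperateGrowth.const (2 * (p : ℝ))).mul
        ((B2_im f).hasTemperateGrowth.pow (2 * p - 1))).mul (Function.HasTemperateGrowth.const (f j))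
  exact ((Complex.ofRealCLM.hasTemperateGrowth).comp h1).sub
    ((Function.HasTemperateGrowth.const Complex.I).mul ((Complex.ofRealCLM.hasTemperateGrowth).comp h1'))

theorem hasTemperateGrowth_vQ (e : ℝ) (j : Fin n) :
    Function.HasTemperateGrowth fun z : En n => vQ e z j := by
  have h1 : Function.HasTemperateGrowth fun z : En n => (starRingEnd ℂ) (z j) :=
    ((Complex.conjCLE : ℂ →L[ℝ] ℂ).comp
      ((EuclideanSpace.proj (𝕜 := ℂ) j : En n →L[ℂ] ℂ).restrictScalars ℝ)).hasTemperateGrowth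
  exact (Function.HasTemperateGrowth.const (e : ℂ)).mul h1

private theorem B2_fderiv (F : Finset (E n)) {p : ℕ} (hp : 1 ≤ p) (j : Fin n)
    (Λ : E n → En n →L[ℝ] ℝ) (z : En n) :
    HasFDerivAt (fun y : En n => ∑ f ∈ F, 2 * (p : ℝ) * (Λ f y) ^ (2 * p - 1) * f j)
      (∑ f ∈ F, (2 * (p : ℝ) * (2 * (p : ℝ) - 1) * (Λ f z) ^ (2 * p - 2) * f j) • Λ f) z := by
  refine HasFDerivAt.fun_sum fun f _ => ?_
  have h1 : HasFDerivAt (fun y : En n => (Λ f y) ^ (2 * p - 1))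
      (((2 * p - 1 : ℕ) * (Λ f z) ^ (2 * p - 1 - 1) : ℝ) • Λ f) z :=
    (hasDerivAt_pow (2 * p - 1) (Λ f z)).comp_hasFDerivAt z (Λ f).hasFDerivAt
  have h2 := (h1.const_mul (2 * (p : ℝ))).mul_const (f j)
  refine h2.congr_fderiv ?_
  have h3 : ((2 * p - 1 : ℕ) : ℝ) = 2 * (p : ℝ) - 1 := by
    rw [Nat.cast_sub (by omega)]; push_cast; ring
  have h4 : 2 * p - 1 - 1 = 2 * p - 2 := by omega
  rw [h3, h4]
  ext v
  simp only [smul_apply, smul_eq_mul]
  ring

private theorem B2_re_ee (f : E n) (k : Fin n) : B2_re f (ee k) = f k := by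
  rw [B2_re_apply', Finset.sum_eq_single k]
  · simp
  · intro b _ hb
    simp [hb]
  · simp

private theorem B2_im_ee (f : E n) (k : Fin n) : B2_im f (ee k) = 0 := by
  rw [B2_im_apply']
  refine Finset.sum_eq_zero fun b _ => ?_
  by_cases hb : b = k
  · subst hb; simp
  · simp [hb]

private theorem B2_re_Iee (f : E n) (k : Fin n) : B2_re f (Complex.I • ee k) = 0 := by
  rw [B2_re_apply']
  refine Finset.sum_eq_zero fun b _ => ?_
  by_cases hb : b = k
  · subst hb; simp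
  · simp [hb]

private theorem B2_im_Iee (f : E n) (k : Fin n) : B2_im f (Complex.I • ee k) = f k := by
  rw [B2_im_apply', Finset.sum_eq_single k]
  · simp
  · intro b _ hb
    simp [hb]
  · simp

theorem db_uQ (F : Finset (E n)) {p : ℕ} (hp : 1 ≤ p) (j k : Fin n) (z : En n) :
    db k (fun y => uQ F p y j) z = (1 / 2 : ℂ) * ((HQ F p (reP z) j k + HQ F p (imP z) j k : ℝ) : ℂ) := by
  have e1 : (fun y : En n => uQ F p y j) = fun y =>
      (((∑ f ∈ F, 2 * (p : ℝ) * (B2_re f y) ^ (2 * p - 1) * f j : ℝ)) : ℂ) -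
        Complex.I * (((∑ f ∈ F, 2 * (p : ℝ) * (B2_im f y) ^ (2 * p - 1) * f j : ℝ)) : ℂ) := by
    funext y
    rw [uQ, B2_gQ_apply, B2_gQ_apply]
    simp only [B2_re_apply, B2_im_apply]
  have h1 := Complex.ofRealCLM.hasFDerivAt.comp z (B2_fderiv F hp j B2_re z)
  have h2 := Complex.ofRealCLM.hasFDerivAt.comp z (B2_fderiv F hp j B2_im z)
  have h3 := h1.sub (h2.const_mul Complex.I)
  have h4 := Pool.Agent.MPca0fc2.CX.dbA_of k h3
  have h5 : db k (fun y : En n => uQ F p y j) z =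
      db k (((⇑Complex.ofRealCLM ∘ fun y : En n =>
        ∑ f ∈ F, 2 * (p : ℝ) * (B2_re f y) ^ (2 * p - 1) * f j)) -
        fun y => Complex.I * (⇑Complex.ofRealCLM ∘ fun y : En n =>
        ∑ f ∈ F, 2 * (p : ℝ) * (B2_im f y) ^ (2 * p - 1) * f j) y) z := by
    rw [e1]
    rfl
  rw [h5, h4]
  have h6 : ∀ (Λ : E n → En n →L[ℝ] ℝ) (c : E n → ℝ) (v : En n),
      (∑ f ∈ F, c f • Λ f : En n →L[ℝ] ℝ) v = ∑ f ∈ F, c f * Λ f v := by
    intro Λ c v
    simp [sum_apply]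
  simp only [sub_apply, smul_apply, smul_eq_mul, ContinuousLinearMap.comp_apply,
    Complex.ofRealCLM_apply, h6, B2_re_ee, B2_im_ee, B2_re_Iee, B2_im_Iee, mul_zero,
    Finset.sum_const_zero, Complex.ofReal_zero, sub_zero, zero_sub]
  have h7 : ∀ x : E n, HQ F p x j k =
      ∑ f ∈ F, 2 * (p : ℝ) * (2 * (p : ℝ) - 1) * ⟪f, x⟫_ℝ ^ (2 * p - 2) * f j * f k := fun x => rfl
  rw [h7, h7]
  simp only [B2_re_apply, B2_im_apply]
  rw [Complex.ofReal_add]
  linear_combination (-(1 / 2 : ℂ) * ((∑ f ∈ F, 2 * (p : ℝ) * (2 * (p : ℝ) - 1) *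
    ⟪f, imP z⟫_ℝ ^ (2 * p - 2) * f j * f k : ℝ) : ℂ)) * Complex.I_mul_I

theorem db_vQ (e : ℝ) (j k : Fin n) (z : En n) :
    db k (fun y => vQ e y j) z = if j = k then (e : ℂ) else 0 := by
  have h0 : DifferentiableAt ℝ (fun y : En n => (starRingEnd ℂ) (y j)) z :=
    ((Complex.conjCLE : ℂ →L[ℝ] ℂ).comp
      ((EuclideanSpace.proj (𝕜 := ℂ) j : En n →L[ℂ] ℂ).restrictScalars ℝ)).differentiableAt
  have h1 := Pool.Agent.MPca0fc2.CX.db_const_mul k (e : ℂ) h0
  have h2 := Pool.Agent.MPca0fc2.CX.db_conj_coord j k (0 : En n) z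
  simp only [PiLp.zero_apply, sub_zero] at h2
  have h3 : (fun y : En n => vQ e y j) = fun y => (e : ℂ) * (starRingEnd ℂ) (y j) := rfl
  rw [h3, h1, h2]
  split_ifs <;> simp

private theorem B2_diff_u (F : Finset (E n)) (p : ℕ) (j : Fin n) (z : En n) :
    DifferentiableAt ℝ (fun y : En n => uQ F p y j) z :=
  (hasTemperateGrowth_uQ F p j).1.contDiffAt.differentiableAt (by simp)

private theorem B2_diff_v (e : ℝ) (j : Fin n) (z : En n) :
    DifferentiableAt ℝ (fun y : En n => vQ e y j) z :=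
  (hasTemperateGrowth_vQ e j).1.contDiffAt.differentiableAt (by simp)

private theorem B2_MW (F : Finset (E n)) (p : ℕ) (e s : ℝ) (z : En n) (j k : Fin n) :
    MW (Ws (uQ F p) (vQ e) s) z j k = (s : ℂ) ^ 2 * db k (fun y => uQ F p y j) z +
      if j = k then (e : ℂ) else 0 := by
  have h1 : MW (Ws (uQ F p) (vQ e) s) z j k =
      db k (fun y => (s : ℂ) ^ 2 * uQ F p y j + vQ e y j) z := rfl
  rw [h1, Pool.Agent.MPca0fc2.CX.db_add k ((B2_diff_u F p j z).const_mul _) (B2_diff_v e j z),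
    Pool.Agent.MPca0fc2.CX.db_const_mul k _ (B2_diff_u F p j z), db_vQ]

/-- for `s = 1` -/
theorem det_MW_one (F : Finset (E n)) {p : ℕ} (hp : 1 ≤ p) (e : ℝ) (z : En n) :
    (MW (Ws (uQ F p) (vQ e) 1) z).det =
      (1 / 2 : ℂ) ^ n * (((Hp F p e (reP z) + Hp F p e (imP z)).det : ℝ) : ℂ) := by
  have h1 : MW (Ws (uQ F p) (vQ e) 1) z = (1 / 2 : ℂ) •
      (Complex.ofRealHom.mapMatrix (Hp F p e (reP z) + Hp F p e (imP z))) := by
    ext j k
    rw [B2_MW, db_uQ F hp]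
    simp only [Hp, Matrix.smul_apply, RingHom.mapMatrix_apply, Matrix.map_apply, Matrix.add_apply,
      Matrix.one_apply, Complex.ofRealHom_eq_coe, smul_eq_mul]
    by_cases hjk : j = k
    · simp only [hjk, if_true]
      push_cast
      ring
    · simp only [hjk, if_false]
      push_cast
      ring
  have h2 : ((((Hp F p e (reP z) + Hp F p e (imP z)).det : ℝ)) : ℂ) =
      (Complex.ofRealHom.mapMatrix (Hp F p e (reP z) + Hp F p e (imP z))).det := by
    rw [← RingHom.map_det]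
    rfl
  rw [h1, Matrix.det_smul, Fintype.card_fin, h2]

/-- for `s = 0` -/
theorem det_MW_zero (F : Finset (E n)) (p : ℕ) (e : ℝ) (z : En n) :
    (MW (Ws (uQ F p) (vQ e) 0) z).det = (e : ℂ) ^ n := by
  have h1 : MW (Ws (uQ F p) (vQ e) 0) z = (e : ℂ) • (1 : Matrix (Fin n) (Fin n) ℂ) := by
    ext j k
    rw [B2_MW, Matrix.smul_apply, Matrix.one_apply]
    by_cases hjk : j = k
    · simp [hjk]
    · simp [hjk]
  rw [h1, Matrix.det_smul, Matrix.det_one, Fintype.card_fin, mul_one]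

private theorem B2_norm_sq (z : En n) : ‖z‖ ^ 2 = ∑ j, ((z j).re ^ 2 + (z j).im ^ 2) := by
  rw [EuclideanSpace.norm_sq_eq]
  refine Finset.sum_congr rfl fun j _ => ?_
  rw [← Complex.normSq_eq_norm_sq, Complex.normSq_apply]
  ring

private theorem B2_inner_gQ (F : Finset (E n)) {p : ℕ} (hp : 1 ≤ p) (x : E n) :
    0 ≤ ⟪x, gQ F p x⟫_ℝ := by
  have h1 : ⟪x, gQ F p x⟫_ℝ = ∑ f ∈ F, 2 * (p : ℝ) * (⟪f, x⟫_ℝ ^ p) ^ 2 := by
    rw [gQ, inner_sum]
    refine Finset.sum_congr rfl fun f _ => ?_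
    rw [inner_smul_right, real_inner_comm]
    obtain ⟨q, rfl⟩ : ∃ q, p = q + 1 := ⟨p - 1, by omega⟩
    have h2 : 2 * (q + 1) - 1 = 2 * q + 1 := by omega
    rw [h2]
    ring
  rw [h1]
  refine Finset.sum_nonneg fun f _ => ?_
  positivity

private theorem B2_sum (F : Finset (E n)) (p : ℕ) (e s : ℝ) (z : En n) :
    (∑ j, z j * Ws (uQ F p) (vQ e) s z j).re =
      s ^ 2 * (⟪reP z, gQ F p (reP z)⟫_ℝ + ⟪imP z, gQ F p (imP z)⟫_ℝ) + e * ‖z‖ ^ 2 := by
  rw [Complex.re_sum, B2_norm_sq, B2_inner, B2_inner, ← Finset.sum_add_distrib, Finset.mul_sum,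
    Finset.mul_sum, ← Finset.sum_add_distrib]
  refine Finset.sum_congr rfl fun j _ => ?_
  have h1 : (reP z) j = (z j).re := rfl
  have h2 : (imP z) j = (z j).im := rfl
  rw [h1, h2]
  simp only [Ws, uQ, vQ, Complex.mul_re, Complex.add_re, Complex.add_im, Complex.mul_im,
    Complex.sub_re, Complex.sub_im, Complex.ofReal_re, Complex.ofReal_im, Complex.I_re,
    Complex.I_im, Complex.conj_re, Complex.conj_im, pow_two]
  ring

theorem ex_zero (F : Finset (E n)) (p : ℕ) (e : ℝ) (z : En n) :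
    ex (Ws (uQ F p) (vQ e) 0) z = ((Real.exp (-(e / 2) * ‖z‖ ^ 2) : ℝ) : ℂ) := by
  have h1 : ∑ j, z j * Ws (uQ F p) (vQ e) 0 z j = (((e * ‖z‖ ^ 2 : ℝ)) : ℂ) := by
    rw [B2_norm_sq, Finset.mul_sum, Complex.ofReal_sum]
    refine Finset.sum_congr rfl fun j _ => ?_
    have h2 : z j * (starRingEnd ℂ) (z j) = (((z j).re ^ 2 + (z j).im ^ 2 : ℝ) : ℂ) := by
      rw [Complex.mul_conj, Complex.normSq_apply]
      congr 1
      ring
    rw [Complex.ofReal_mul, ← h2]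
    simp only [Ws, vQ, Complex.ofReal_zero]
    ring
  rw [ex, h1, Complex.ofReal_exp]
  congr 1
  push_cast
  ring

theorem norm_ex_one (F : Finset (E n)) (p : ℕ) (e : ℝ) (z : En n) :
    ‖ex (Ws (uQ F p) (vQ e) 1) z‖ =
      Real.exp (-(1 / 2) * (⟪reP z, gp F p e (reP z)⟫_ℝ + ⟪imP z, gp F p e (imP z)⟫_ℝ)) := by
  rw [ex, Complex.norm_exp]
  congr 1
  have h0 : (-(1 / 2) * ∑ j, z j * Ws (uQ F p) (vQ e) 1 z j : ℂ).re =
      -(1 / 2) * (∑ j, z j * Ws (uQ F p) (vQ e) 1 z j).re := by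
    have h00 : (-(1 / 2) : ℂ) = (((-(1 / 2) : ℝ)) : ℂ) := by push_cast; ring
    rw [h00, Complex.re_ofReal_mul]
  rw [h0, B2_sum]
  have h1 : ‖z‖ ^ 2 = ⟪reP z, reP z⟫_ℝ + ⟪imP z, imP z⟫_ℝ := by
    rw [B2_norm_sq, B2_inner, B2_inner, ← Finset.sum_add_distrib]
    refine Finset.sum_congr rfl fun j _ => ?_
    have h1 : (reP z) j = (z j).re := rfl
    have h2 : (imP z) j = (z j).im := rfl
    rw [h1, h2]
    ring
  rw [h1, gp, gp, inner_add_right, inner_add_right, inner_smul_right, inner_smul_right]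
  ring

theorem norm_ex_le (F : Finset (E n)) {p : ℕ} (hp : 1 ≤ p) (e : ℝ) (s : ℝ) (z : En n) :
    ‖ex (Ws (uQ F p) (vQ e) s) z‖ ≤ Real.exp (-(e / 2) * ‖z‖ ^ 2) := by
  rw [ex, Complex.norm_exp, Real.exp_le_exp]
  have h0 : (-(1 / 2) * ∑ j, z j * Ws (uQ F p) (vQ e) s z j : ℂ).re =
      -(1 / 2) * (∑ j, z j * Ws (uQ F p) (vQ e) s z j).re := by
    have h00 : (-(1 / 2) : ℂ) = (((-(1 / 2) : ℝ)) : ℂ) := by push_cast; ring
    rw [h00, Complex.re_ofReal_mul]
  rw [h0, B2_sum]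
  have h1 := B2_inner_gQ F hp (reP z)
  have h2 := B2_inner_gQ F hp (imP z)
  have h3 : 0 ≤ s ^ 2 * (⟪reP z, gQ F p (reP z)⟫_ℝ + ⟪imP z, gQ F p (imP z)⟫_ℝ) :=
    mul_nonneg (sq_nonneg s) (add_nonneg h1 h2)
  linarith

end Pool.Agent.MP5e7226.HL
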