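import Mathlib
import Pool.Agent.Lib.MP_5e7226_co.HL.BDefs
import Pool.Agent.Lib.MP_ca0fc2_an.Mg.G083

/-!
Task HL B3: the divergence identity.

NOTATION `M = MW w z` (columns `∂̄_k w`), `ex w z = exp(-z·w/2)`.
PROOF of `sum_db_VI`. Product rule (`db_mul`): `db k (VI w η k) = db k (ex w) * det(M.updateCol k η) +
ex w * db k (det (M.updateCol k η))`.
(1) `db k (ex w) z = ex w z * (-(1/2) ∑_j z_j M_jk)` (`db_comp` with `Complex.exp`; `db k` of the
coordinate `z_j` is `0`: `db_coord` or `db_holo`), and
`∑_k (∑_j z_j M_jk) det(M.updateCol k η) = det M * ∑ z_j η_j`: `det(M.updateCol k η) = Matrix.cramer M η k`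
(`Matrix.cramer_apply`) and `M *ᵥ cramer M η = det M • η` (`Matrix.mulVec_cramer`).
(2) `∑_k db k (det (M.updateCol k η)) = ∑_k det(M.updateCol k (db k η))`: by `db_det` the left side is
`∑_k ∑_b det((M.updateCol k η).updateCol b (derivative of the column b))`; the terms with `b = k` give
the right side; the terms `b ≠ k` are `T k b = det((M.updateCol k η).updateCol b (∂̄_k ∂̄_b w))`, and
`T b k = -T k b`, because `∂̄_k ∂̄_b w = ∂̄_b ∂̄_k w` (`db_symm`, CXDbB; the functions are `ContDiff ℝ 2`) and the
two matrices differ by the exchange of the columns `k`, `b` (`Matrix.det_permute'`, or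
`Matrix.updateCol_comm`, submatrix by `Equiv.swap k b`). So the double sum is zero (`Finset.sum_comm`,
`T + T = 0`).
`hasDerivAt_FI`: with `W s = s² u + v`: `MW (W s) = s² MW u + MW v` (`db_add`, `db_const_mul`), derivative of
the entries `2 s MW u`, `hasDerivAt_det` (CXDetA), derivative of the exponent `-(1/2) ∑ z_j 2 s u_j`, so
the derivative of `FI (W s) z` is the right side of `sum_db_VI` for `w = W s`, `η = 2 s u`
(`db k (2 s u_j) = 2 s db k u_j`).
-/

set_option autoImplicit false

open MeasureTheory Set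
open scoped InnerProductSpace ENNReal Pointwise

namespace Pool.Agent.MP5e7226.HL

open Pool.Agent.MPca0fc2.CX (En ee db)

variable {n : ℕ}

private theorem B3_swap (M : Matrix (Fin n) (Fin n) ℂ) {k b : Fin n} (h : k ≠ b)
    (u v : Fin n → ℂ) :
    ((M.updateCol b u).updateCol k v).det = - ((M.updateCol k u).updateCol b v).det := by
  have h1 : (M.updateCol b u).updateCol k v =
      ((M.updateCol k u).updateCol b v).submatrix id (Equiv.swap k b) := by
    ext i j
    simp only [Matrix.submatrix_apply, id]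
    by_cases hjk : j = k
    · subst hjk
      rw [Equiv.swap_apply_left, Matrix.updateCol_self, Matrix.updateCol_self]
    · by_cases hjb : j = b
      · subst hjb
        rw [Equiv.swap_apply_right, Matrix.updateCol_ne h.symm, Matrix.updateCol_self,
          Matrix.updateCol_ne h, Matrix.updateCol_self]
      · rw [Equiv.swap_apply_of_ne_of_ne hjk hjb, Matrix.updateCol_ne hjk,
          Matrix.updateCol_ne hjb, Matrix.updateCol_ne hjb, Matrix.updateCol_ne hjk]
  rw [h1, Matrix.det_permute', Equiv.Perm.sign_swap h]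
  simp

private theorem B3_diff1 {w : En n → Fin n → ℂ} (hw : ∀ j, ContDiff ℝ 2 fun z => w z j) (j : Fin n)
    (z : En n) : DifferentiableAt ℝ (fun y => w y j) z :=
  (hw j).differentiable (by norm_num) z

private theorem B3_coord (j : Fin n) (z : En n) : DifferentiableAt ℝ (fun y : En n => y j) z := by
  have : DifferentiableAt ℂ (fun y : En n => y j) z := by fun_prop
  exact this.restrictScalars ℝ

private theorem B3_db_coord (j k : Fin n) (z : En n) : db k (fun y : En n => y j) z = 0 :=
  Pool.Agent.MPca0fc2.CX.db_holo k (by fun_prop)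

private theorem B3_diffMW {w : En n → Fin n → ℂ} (hw : ∀ j, ContDiff ℝ 2 fun z => w z j)
    (i j : Fin n) (z : En n) : DifferentiableAt ℝ (fun y => MW w y i j) z := by
  have h := Pool.Agent.MPca0fc2.CX.contDiff_db (m := 1) j (hw i)
  exact h.differentiable (by norm_num) z

private theorem B3_diff_exp {w : En n → Fin n → ℂ} (hw : ∀ j, ContDiff ℝ 2 fun z => w z j)
    (z : En n) : DifferentiableAt ℝ (fun y : En n => -(1 / 2) * ∑ j, y j * w y j) z := by
  refine DifferentiableAt.const_mul ?_ _
  refine DifferentiableAt.fun_sum fun j _ => ?_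
  exact (B3_coord j z).fun_mul (B3_diff1 hw j z)

private theorem B3_diff_ex {w : En n → Fin n → ℂ} (hw : ∀ j, ContDiff ℝ 2 fun z => w z j)
    (z : En n) : DifferentiableAt ℝ (ex w) z := by
  have h1 : DifferentiableAt ℝ (fun y : En n => Complex.exp (-(1 / 2) * ∑ j, y j * w y j)) z :=
    (B3_diff_exp hw z).cexp
  exact h1

private theorem B3_db_ex {w : En n → Fin n → ℂ} (hw : ∀ j, ContDiff ℝ 2 fun z => w z j)
    (k : Fin n) (z : En n) :
    db k (ex w) z = ex w z * (-(1 / 2) * ∑ j, z j * MW w z j k) := by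
  have h1 : db k (fun y : En n => Complex.exp (-(1 / 2) * ∑ j, y j * w y j)) z =
      Complex.exp (-(1 / 2) * ∑ j, z j * w z j) *
        db k (fun y : En n => -(1 / 2) * ∑ j, y j * w y j) z :=
    Pool.Agent.MPca0fc2.CX.db_comp k (Complex.hasDerivAt_exp _) (B3_diff_exp hw z)
  have h2 : db k (fun y : En n => -(1 / 2) * ∑ j, y j * w y j) z =
      -(1 / 2) * ∑ j, z j * MW w z j k := by
    rw [Pool.Agent.MPca0fc2.CX.db_const_mul k (-(1 / 2))
      (DifferentiableAt.fun_sum fun j _ => (B3_coord j z).fun_mul (B3_diff1 hw j z))]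
    rw [Pool.Agent.MPca0fc2.CX.db_sum k
      (fun j _ => (B3_coord j z).fun_mul (B3_diff1 hw j z))]
    congr 1
    refine Finset.sum_congr rfl fun j _ => ?_
    rw [Pool.Agent.MPca0fc2.CX.db_mul k (B3_coord j z) (B3_diff1 hw j z), B3_db_coord]
    simp [MW]
  rw [h2] at h1
  exact h1

private theorem B3_diffU {w η : En n → Fin n → ℂ} (hw : ∀ j, ContDiff ℝ 2 fun z => w z j)
    (hη : ∀ j, ContDiff ℝ 1 fun z => η z j) (k i j : Fin n) (z : En n) :
    DifferentiableAt ℝ (fun y => ((MW w y).updateCol k (fun j => η y j)) i j) z := by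
  by_cases h : j = k
  · subst h
    have : (fun y => ((MW w y).updateCol j (fun j => η y j)) i j) = fun y => η y i := by
      ext y
      rw [Matrix.updateCol_self]
    rw [this]
    exact (hη i).differentiable (by norm_num) z
  · have : (fun y => ((MW w y).updateCol k (fun j => η y j)) i j) = fun y => MW w y i j := by
      ext y
      rw [Matrix.updateCol_ne h]
    rw [this]
    exact B3_diffMW hw i j z

/-- the derivatives of the columns -/
private theorem B3_cols {w η : En n → Fin n → ℂ} (hw : ∀ j, ContDiff ℝ 2 fun z => w z j)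
    (hη : ∀ j, ContDiff ℝ 1 fun z => η z j) (k : Fin n) (z : En n) :
    db k (fun y => ((MW w y).updateCol k (fun j => η y j)).det) z =
      ((MW w z).updateCol k (fun j => db k (fun y => η y j) z)).det +
      ∑ b ∈ Finset.univ.erase k,
        (((MW w z).updateCol k (fun j => η z j)).updateCol b
          (fun a => db k (fun y => MW w y a b) z)).det := by
  rw [Pool.Agent.MPca0fc2.CX.db_det k (fun i j => B3_diffU hw hη k i j z)]
  rw [← Finset.add_sum_erase _ _ (Finset.mem_univ k)]
  congr 1
  · congr 1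
    rw [Matrix.updateCol_idem]
    congr 1
    ext a
    simp only [Matrix.updateCol_self]
  · refine Finset.sum_congr rfl fun b hb => ?_
    have hbk : b ≠ k := Finset.ne_of_mem_erase hb
    congr 2
    ext a
    simp only [Matrix.updateCol_ne hbk]

private theorem B3_zero {w η : En n → Fin n → ℂ} (hw : ∀ j, ContDiff ℝ 2 fun z => w z j)
    (z : En n) :
    ∑ k, ∑ b ∈ Finset.univ.erase k,
        (((MW w z).updateCol k (fun j => η z j)).updateCol b
          (fun a => db k (fun y => MW w y a b) z)).det = 0 := by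
  have hT : ∀ k b : Fin n, k ≠ b →
      (((MW w z).updateCol k (fun j => η z j)).updateCol b
          (fun a => db k (fun y => MW w y a b) z)).det =
      - (((MW w z).updateCol b (fun j => η z j)).updateCol k
          (fun a => db b (fun y => MW w y a k) z)).det := by
    intro k b hkb
    have h1 : (fun a => db b (fun y => MW w y a k) z) =
        (fun a => db k (fun y => MW w y a b) z) := by
      ext a
      have := Pool.Agent.MPca0fc2.CX.db_symm (hw a) b k z
      simpa [MW] using this
    rw [h1, B3_swap _ hkb, neg_neg]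
  have h2 : ∑ k : Fin n, ∑ b ∈ Finset.univ.erase k,
        (((MW w z).updateCol k (fun j => η z j)).updateCol b
          (fun a => db k (fun y => MW w y a b) z)).det =
      ∑ k : Fin n, ∑ b : Fin n, if k = b then 0 else
        (((MW w z).updateCol k (fun j => η z j)).updateCol b
          (fun a => db k (fun y => MW w y a b) z)).det := by
    refine Finset.sum_congr rfl fun k _ => ?_
    rw [← Finset.add_sum_erase _ _ (Finset.mem_univ k)]
    rw [if_pos rfl, zero_add]
    refine Finset.sum_congr rfl fun b hb => ?_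
    rw [if_neg (Finset.ne_of_mem_erase hb).symm]
  rw [h2]
  set S := ∑ k : Fin n, ∑ b : Fin n, if k = b then 0 else
        (((MW w z).updateCol k (fun j => η z j)).updateCol b
          (fun a => db k (fun y => MW w y a b) z)).det with hS
  have h3 : S = - S := by
    conv_lhs => rw [hS, Finset.sum_comm]
    rw [hS, ← Finset.sum_neg_distrib]
    refine Finset.sum_congr rfl fun k _ => ?_
    rw [← Finset.sum_neg_distrib]
    refine Finset.sum_congr rfl fun b _ => ?_
    by_cases hkb : k = b
    · subst hkb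
      simp
    · rw [if_neg hkb, if_neg (Ne.symm hkb), hT b k (Ne.symm hkb)]
  have h4 : (2 : ℂ) * S = 0 := by linear_combination h3
  rcases mul_eq_zero.1 h4 with h | h
  · norm_num at h
  · exact h

private theorem B3_cramer (M : Matrix (Fin n) (Fin n) ℂ) (η z : Fin n → ℂ) :
    ∑ k, (∑ j, z j * M j k) * (M.updateCol k η).det = M.det * ∑ j, z j * η j := by
  have h1 : ∀ j, ∑ k, M j k * (M.updateCol k η).det = M.det * η j := by
    intro j
    have h := congrFun (Matrix.mulVec_cramer M η) j
    simp only [Matrix.mulVec, dotProduct, Pi.smul_apply, smul_eq_mul, Matrix.cramer_apply] at h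
    exact h
  simp_rw [Finset.sum_mul]
  rw [Finset.sum_comm, Finset.mul_sum]
  refine Finset.sum_congr rfl fun j _ => ?_
  have := h1 j
  calc ∑ k, z j * M j k * (M.updateCol k η).det = z j * ∑ k, M j k * (M.updateCol k η).det := by
        rw [Finset.mul_sum]
        exact Finset.sum_congr rfl fun k _ => by ring
    _ = M.det * (z j * η j) := by rw [this]; ring

theorem sum_db_VI {w η : En n → Fin n → ℂ} (hw : ∀ j, ContDiff ℝ 2 fun z => w z j)
    (hη : ∀ j, ContDiff ℝ 1 fun z => η z j) (z : En n) :
    ∑ k, db k (VI w η k) z =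
      ex w z * (-(1 / 2) * (∑ j, z j * η z j) * (MW w z).det +
        ∑ k, ((MW w z).updateCol k (fun j => db k (fun y => η y j) z)).det) := by
  have h1 : ∀ k, db k (VI w η k) z =
      ex w z * (-(1 / 2) * ((∑ j, z j * MW w z j k) *
        ((MW w z).updateCol k (fun j => η z j)).det)) +
      ex w z * (((MW w z).updateCol k (fun j => db k (fun y => η y j) z)).det +
      ∑ b ∈ Finset.univ.erase k,
        (((MW w z).updateCol k (fun j => η z j)).updateCol b
          (fun a => db k (fun y => MW w y a b) z)).det) := by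
    intro k
    have h2 : db k (fun y => ex w y * ((MW w y).updateCol k (fun j => η y j)).det) z =
        db k (ex w) z * ((MW w z).updateCol k (fun j => η z j)).det +
        ex w z * db k (fun y => ((MW w y).updateCol k (fun j => η y j)).det) z :=
      Pool.Agent.MPca0fc2.CX.db_mul k (B3_diff_ex hw z)
        (Pool.Agent.MPca0fc2.CX.det_differentiableAt fun i j => B3_diffU hw hη k i j z)
    have h3 : VI w η k = fun y => ex w y * ((MW w y).updateCol k (fun j => η y j)).det := rfl
    rw [h3, h2, B3_db_ex hw, B3_cols hw hη]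
    ring
  simp_rw [h1]
  rw [Finset.sum_add_distrib, ← Finset.mul_sum, ← Finset.mul_sum, ← Finset.mul_sum, B3_cramer,
    Finset.sum_add_distrib, B3_zero hw, add_zero]
  ring

private theorem B3_MWs {u v : En n → Fin n → ℂ} (hu : ∀ j, ContDiff ℝ 2 fun z => u z j)
    (hv : ∀ j, ContDiff ℝ 2 fun z => v z j) (s : ℝ) (z : En n) (i j : Fin n) :
    MW (Ws u v s) z i j = (s : ℂ) ^ 2 * MW u z i j + MW v z i j := by
  have h1 : db j (fun y => (s : ℂ) ^ 2 * u y i + v y i) z =
      (s : ℂ) ^ 2 * db j (fun y => u y i) z + db j (fun y => v y i) z := by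
    rw [Pool.Agent.MPca0fc2.CX.db_add j ((B3_diff1 hu i z).const_mul _) (B3_diff1 hv i z),
      Pool.Agent.MPca0fc2.CX.db_const_mul j _ (B3_diff1 hu i z)]
  exact h1

theorem hasDerivAt_FI {u v : En n → Fin n → ℂ} (hu : ∀ j, ContDiff ℝ 2 fun z => u z j)
    (hv : ∀ j, ContDiff ℝ 2 fun z => v z j) (s : ℝ) (z : En n) :
    HasDerivAt (fun t : ℝ => FI (Ws u v t) z)
      (∑ k, db k (VI (Ws u v s) (fun y j => 2 * (s : ℂ) * u y j) k) z) s := by
  have hW : ∀ j, ContDiff ℝ 2 fun z => Ws u v s z j := fun j =>
    (contDiff_const.mul (hu j)).add (hv j)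
  have hη : ∀ j, ContDiff ℝ 1 fun z => (fun y j => 2 * (s : ℂ) * u y j) z j := fun j =>
    contDiff_const.mul ((hu j).of_le (by norm_num))
  rw [sum_db_VI hW hη z]
  have hsq : HasDerivAt (fun t : ℝ => (t : ℂ) ^ 2) (2 * (s : ℂ)) s := by
    have h : HasDerivAt (fun t : ℝ => (t : ℂ)) 1 s := by
      simpa using (hasDerivAt_id s).ofReal_comp
    have h2 : HasDerivAt (fun t : ℝ => (t : ℂ) * (t : ℂ)) (1 * (s : ℂ) + (s : ℂ) * 1) s := h.mul h
    have h3 : (fun t : ℝ => (t : ℂ) ^ 2) = fun t : ℝ => (t : ℂ) * (t : ℂ) := by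
      ext t
      ring
    have h4 : 2 * (s : ℂ) = 1 * (s : ℂ) + (s : ℂ) * 1 := by ring
    rw [h3, h4]
    exact h2
  have hdet : HasDerivAt (fun t : ℝ => (MW (Ws u v t) z).det)
      (∑ b, ((MW (Ws u v s) z).updateCol b fun a => 2 * (s : ℂ) * MW u z a b).det) s := by
    refine Pool.Agent.MPca0fc2.CX.hasDerivAt_det (M := fun t => MW (Ws u v t) z)
      (M' := Matrix.of fun a b => 2 * (s : ℂ) * MW u z a b) fun i j => ?_
    have h1 : (fun t : ℝ => MW (Ws u v t) z i j) =
        fun t : ℝ => (t : ℂ) ^ 2 * MW u z i j + MW v z i j := by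
      ext t
      exact B3_MWs hu hv t z i j
    rw [h1]
    exact (hsq.mul_const _).add_const _
  have hexp : HasDerivAt (fun t : ℝ => ex (Ws u v t) z)
      (ex (Ws u v s) z * (-(1 / 2) * ∑ j, z j * (2 * (s : ℂ) * u z j))) s := by
    have h1 : HasDerivAt (fun t : ℝ => -(1 / 2) * ∑ j, z j * Ws u v t z j)
        (-(1 / 2) * ∑ j, z j * (2 * (s : ℂ) * u z j)) s := by
      refine HasDerivAt.const_mul _ ?_
      refine HasDerivAt.fun_sum fun j _ => ?_
      refine HasDerivAt.const_mul _ ?_
      exact (hsq.mul_const _).add_const _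
    exact h1.cexp
  have h := hexp.mul hdet
  have h5 : ∀ k : Fin n, (fun j => db k (fun y => 2 * (s : ℂ) * u y j) z) =
      fun a => 2 * (s : ℂ) * MW u z a k := by
    intro k
    ext a
    rw [Pool.Agent.MPca0fc2.CX.db_const_mul k _ (B3_diff1 hu a z)]
    rfl
  have h6 : ex (Ws u v s) z * (-(1 / 2) * (∑ j, z j * (2 * (s : ℂ) * u z j)) *
      (MW (Ws u v s) z).det +
        ∑ k, ((MW (Ws u v s) z).updateCol k
          (fun j => db k (fun y => 2 * (s : ℂ) * u y j) z)).det) =
      ex (Ws u v s) z * (-(1 / 2) * ∑ j, z j * (2 * (s : ℂ) * u z j)) *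
        (MW (Ws u v s) z).det +
      ex (Ws u v s) z *
        ∑ b, ((MW (Ws u v s) z).updateCol b fun a => 2 * (s : ℂ) * MW u z a b).det := by
    simp_rw [h5]
    ring
  rw [h6]
  exact h

end Pool.Agent.MP5e7226.HL
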