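import Mathlib
import Pool.Agent.Lib.MP_5e7226_co.HL.BDefs
import Pool.Agent.Lib.MP_ca0fc2_an.Mg.G083

/-!
Task HL B4: integrability and integration by parts.

PROOFS. `integrable_gauss`: `(1 + ‖z‖)^N exp(-c‖z‖²)` is integrable on `En n` for the volume: e.g. it is
bounded by a constant times `(1 + ‖z‖)^(-(2n+1))` (`integrable_one_add_norm`), or use that
`exp(-(c/2)‖z‖²)` is integrable (`GaussianFourier.integrable_cexp_neg_mul_sq_norm_add` or similar) and
`(1+t)^N exp(-(c/2)t²)` is bounded.
`integral_db_zero`: as `integral_db_eq_zero` in CXInt (there with bounded support), with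
`integral_mul_fderiv_eq_neg_fderiv_mul_of_integrable` and `f = 1`.
`htg_db`: the derivative of a function of temperate growth applied to a constant vector has temperate
growth (`norm_iteratedFDeriv_fderiv` for `fderiv`, then compose with the continuous linear map
`L ↦ L v`).
-/

set_option autoImplicit false

open MeasureTheory Set
open scoped InnerProductSpace ENNReal Pointwise

namespace Pool.Agent.MP5e7226.HL

open Pool.Agent.MPca0fc2.CX (En ee db)

variable {n : ℕ}

/-- polynomial times Gaussian is bounded by a negative power -/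
private theorem B4_bound (M : ℕ) {c : ℝ} (hc : 0 < c) {t : ℝ} (ht : 0 ≤ t) :
    (1 + t) ^ M * Real.exp (-c * t ^ 2) ≤ Real.exp c * ((M.factorial : ℝ) * (2 / c) ^ M) := by
  have hs : (1 : ℝ) ≤ 1 + t := by linarith
  have h1 : Real.exp (-c * t ^ 2) ≤ Real.exp c * Real.exp (-(c * (1 + t) ^ 2 / 2)) := by
    rw [← Real.exp_add]
    apply Real.exp_le_exp.2
    nlinarith [sq_nonneg (t - 1)]
  have hx : 0 ≤ c * (1 + t) ^ 2 / 2 := by positivity
  have h2 := Real.pow_div_factorial_le_exp _ hx M
  have hM : (0 : ℝ) < M.factorial := by exact_mod_cast M.factorial_pos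
  have h3 : (1 + t) ^ M * Real.exp (-(c * (1 + t) ^ 2 / 2)) ≤ (M.factorial : ℝ) * (2 / c) ^ M := by
    rw [Real.exp_neg, ← div_eq_mul_inv, div_le_iff₀ (Real.exp_pos _)]
    have h4 : (1 + t) ^ M ≤ ((1 + t) ^ 2) ^ M := by
      apply pow_le_pow_left₀ (by linarith)
      nlinarith
    have h5 : (M.factorial : ℝ) * (2 / c) ^ M * ((c * (1 + t) ^ 2 / 2) ^ M / (M.factorial : ℝ)) =
        ((1 + t) ^ 2) ^ M := by
      have : (c * (1 + t) ^ 2 / 2) ^ M = (c / 2) ^ M * ((1 + t) ^ 2) ^ M := by
        rw [← mul_pow]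
        congr 1
        ring
      rw [this]
      have h6 : (2 / c) ^ M * (c / 2) ^ M = 1 := by
        rw [← mul_pow]
        have : 2 / c * (c / 2) = 1 := by field_simp
        rw [this, one_pow]
      calc (M.factorial : ℝ) * (2 / c) ^ M * ((c / 2) ^ M * ((1 + t) ^ 2) ^ M / (M.factorial : ℝ))
          = ((2 / c) ^ M * (c / 2) ^ M) * ((1 + t) ^ 2) ^ M *
            ((M.factorial : ℝ) * (M.factorial : ℝ)⁻¹) := by ring
        _ = ((1 + t) ^ 2) ^ M := by rw [h6, mul_inv_cancel₀ hM.ne', one_mul, mul_one]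
    calc (1 + t) ^ M ≤ ((1 + t) ^ 2) ^ M := h4
      _ = (M.factorial : ℝ) * (2 / c) ^ M * ((c * (1 + t) ^ 2 / 2) ^ M / (M.factorial : ℝ)) :=
          h5.symm
      _ ≤ (M.factorial : ℝ) * (2 / c) ^ M * Real.exp (c * (1 + t) ^ 2 / 2) := by
          apply mul_le_mul_of_nonneg_left h2
          positivity
  calc (1 + t) ^ M * Real.exp (-c * t ^ 2)
      ≤ (1 + t) ^ M * (Real.exp c * Real.exp (-(c * (1 + t) ^ 2 / 2))) :=
        mul_le_mul_of_nonneg_left h1 (by positivity)
    _ = Real.exp c * ((1 + t) ^ M * Real.exp (-(c * (1 + t) ^ 2 / 2))) := by ring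
    _ ≤ _ := mul_le_mul_of_nonneg_left h3 (Real.exp_pos _).le

theorem integrable_gauss (n N : ℕ) {c : ℝ} (hc : 0 < c) :
    Integrable fun z : En n => (1 + ‖z‖) ^ N * Real.exp (-c * ‖z‖ ^ 2) := by
  set r : ℕ := Module.finrank ℝ (En n) + 1 with hr
  set K : ℝ := Real.exp c * (((N + r).factorial : ℝ) * (2 / c) ^ (N + r)) with hK
  have h1 : Integrable (fun z : En n => (1 + ‖z‖) ^ (-(r : ℝ))) := by
    apply integrable_one_add_norm
    rw [hr]
    push_cast
    linarith
  apply (h1.const_mul K).mono'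
  · apply Continuous.aestronglyMeasurable
    fun_prop
  · refine Filter.Eventually.of_forall fun z => ?_
    have hs : (0 : ℝ) < 1 + ‖z‖ := by positivity
    rw [Real.norm_of_nonneg (by positivity), Real.rpow_neg hs.le, Real.rpow_natCast,
      ← div_eq_mul_inv, le_div_iff₀ (by positivity)]
    have h2 := B4_bound (N + r) hc (norm_nonneg z)
    calc (1 + ‖z‖) ^ N * Real.exp (-c * ‖z‖ ^ 2) * (1 + ‖z‖) ^ r
        = (1 + ‖z‖) ^ (N + r) * Real.exp (-c * ‖z‖ ^ 2) := by ring
      _ ≤ K := h2

theorem integral_db_zero {V : En n → ℂ} (k : Fin n) (hV : Differentiable ℝ V) {C c : ℝ} {N : ℕ}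
    (hc : 0 < c) (h1 : ∀ z, ‖V z‖ ≤ C * (1 + ‖z‖) ^ N * Real.exp (-c * ‖z‖ ^ 2))
    (h2 : ∀ z, ‖fderiv ℝ V z‖ ≤ C * (1 + ‖z‖) ^ N * Real.exp (-c * ‖z‖ ^ 2)) :
    ∫ z, db k V z = 0 := by
  have hg := integrable_gauss n N hc
  have hVi : Integrable V := by
    apply (hg.const_mul C).mono' hV.continuous.aestronglyMeasurable
    refine Filter.Eventually.of_forall fun z => ?_
    refine (h1 z).trans (le_of_eq ?_)
    ring
  have hdi : ∀ v, Integrable fun w => fderiv ℝ V w v := by
    intro v
    apply (hg.const_mul (C * ‖v‖)).mono'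
      (measurable_fderiv_apply_const ℝ V v).aestronglyMeasurable
    refine Filter.Eventually.of_forall fun z => ?_
    calc ‖fderiv ℝ V z v‖ ≤ ‖fderiv ℝ V z‖ * ‖v‖ := ContinuousLinearMap.le_opNorm _ _
      _ ≤ (C * (1 + ‖z‖) ^ N * Real.exp (-c * ‖z‖ ^ 2)) * ‖v‖ :=
          mul_le_mul_of_nonneg_right (h2 z) (norm_nonneg _)
      _ = _ := by ring
  have key : ∀ v : En n, ∫ w, fderiv ℝ V w v = 0 := by
    intro v
    have h := integral_mul_fderiv_eq_neg_fderiv_mul_of_integrable (𝕜 := ℂ)
      (f := fun _ : En n => (1 : ℂ)) (g := V) (v := v) (μ := volume)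
      (by simp) (by simpa using hdi v) (by simpa using hVi)
      (fun _ _ => differentiableAt_const _) (fun x _ => hV x)
    simpa using h
  unfold db
  rw [integral_const_mul, integral_add (hdi _) ((hdi _).const_mul _), integral_const_mul, key, key]
  simp

private theorem B4_fd {F : En n → ℂ} (h : Function.HasTemperateGrowth F) :
    Function.HasTemperateGrowth (fderiv ℝ F) := by
  refine ⟨h.1.fderiv_right (by simp), fun m => ?_⟩
  obtain ⟨k, C, hC⟩ := h.2 (m + 1)
  refine ⟨k, C, fun x => ?_⟩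
  rw [norm_iteratedFDeriv_fderiv]
  exact hC x

/-- the derivative of a function of temperate growth in a fixed direction -/
theorem htg_db {F : En n → ℂ} (h : Function.HasTemperateGrowth F) (k : Fin n) :
    Function.HasTemperateGrowth fun z => db k F z := by
  have h1 := B4_fd h
  have h2 : ∀ v : En n, Function.HasTemperateGrowth fun z => fderiv ℝ F z v := by
    intro v
    have h3 := (ContinuousLinearMap.apply ℝ ℂ v).hasTemperateGrowth (E := En n →L[ℝ] ℂ)
    exact h3.comp h1
  unfold db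
  exact (Function.HasTemperateGrowth.const _).mul
    ((h2 _).add ((Function.HasTemperateGrowth.const _).mul (h2 _)))

end Pool.Agent.MP5e7226.HL
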