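import Mathlib
import Pool.Agent.Lib.MP_5e7226_co.HL.BDefs
import Pool.Agent.Lib.MP_5e7226_co.HL.B4
import Pool.Agent.Lib.MP_ca0fc2_an.Mg.G083

/-!
Task HL B5: growth of the integrand and of the vector field.

PROOFS. `db k u` has temperate growth (`htg_db` of B4), the entries of `MW (Ws u v s)` and determinants
(`Matrix.det_apply'`, sums of products) have temperate growth. With the parameter `s` one wants bounds
UNIFORM for `|s| ≤ S`. A convenient way: work with the functions of the pair `(s, z) ∈ ℝ × En n`, which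
have temperate growth jointly (`s` and `z` are continuous linear functions of the pair, `.comp`):
`G (s, z) = det(...)` has temperate growth on `ℝ × En n`, hence `‖G (s, z)‖, ‖fderiv G (s, z)‖ ≤
C (1 + ‖(s, z)‖)^N ≤ C (1 + S + ‖z‖)^N ≤ C (1 + S)^N (1 + ‖z‖)^N`, and the derivative with respect to `z` is
the composition with `z ↦ (s, z)`. The exponent `q (s, z) = -(1/2) ∑ z_j w_j` has temperate growth too;
`ex = exp ∘ q`, `fderiv (VI ..) = ex • (G' + G q')` is estimated with `hex`.
(Alternatively by hand: the entries are bounded by `(S² + 1) C (1 + ‖z‖)^N`, and the same for their first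
derivatives; a determinant with entries bounded by `B` is bounded by `n! B^n`.)
-/

set_option autoImplicit false

open MeasureTheory Set
open scoped InnerProductSpace ENNReal Pointwise

namespace Pool.Agent.MP5e7226.HL

open Pool.Agent.MPca0fc2.CX (En ee db)

variable {n : ℕ}

private abbrev PP (n : ℕ) := ℝ × En n

private theorem htg_coord (j : Fin n) : Function.HasTemperateGrowth fun z : En n => z j :=
  ((EuclideanSpace.proj (𝕜 := ℂ) j : En n →L[ℂ] ℂ).restrictScalars ℝ).hasTemperateGrowth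

private theorem htg_snd {F : En n → ℂ} (h : Function.HasTemperateGrowth F) :
    Function.HasTemperateGrowth fun x : PP n => F x.2 :=
  h.comp (ContinuousLinearMap.snd ℝ ℝ (En n)).hasTemperateGrowth

private theorem htg_fst : Function.HasTemperateGrowth fun x : PP n => (x.1 : ℂ) :=
  (Complex.ofRealCLM.hasTemperateGrowth).comp (ContinuousLinearMap.fst ℝ ℝ (En n)).hasTemperateGrowth

private theorem htg_prod {ι : Type*} {D : Type*} [NormedAddCommGroup D] [NormedSpace ℝ D]
    (s : Finset ι) {f : ι → D → ℂ} (hf : ∀ i, Function.HasTemperateGrowth (f i)) :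
    Function.HasTemperateGrowth fun x => ∏ i ∈ s, f i x := by
  classical
  induction s using Finset.induction_on with
  | empty => simp
  | insert a s ha ih =>
    simp only [Finset.prod_insert ha]
    exact (hf a).fun_mul ih

private theorem htg_det {D : Type*} [NormedAddCommGroup D] [NormedSpace ℝ D]
    {M : D → Matrix (Fin n) (Fin n) ℂ}
    (hM : ∀ i j, Function.HasTemperateGrowth fun x => M x i j) :
    Function.HasTemperateGrowth fun x => (M x).det := by
  simp_rw [Matrix.det_apply']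
  exact Function.HasTemperateGrowth.sum fun σ _ =>
    (Function.HasTemperateGrowth.const _).fun_mul (htg_prod _ fun i => hM (σ i) i)

private theorem MW_Ws {u v : En n → Fin n → ℂ} (hu : ∀ j, Differentiable ℝ fun z => u z j)
    (hv : ∀ j, Differentiable ℝ fun z => v z j) (s : ℝ) (z : En n) (j k : Fin n) :
    MW (Ws u v s) z j k = (s : ℂ) ^ 2 * db k (fun y => u y j) z + db k (fun y => v y j) z := by
  simp only [MW, Matrix.of_apply, Ws]
  rw [Pool.Agent.MPca0fc2.CX.db_add k ((hu j z).const_mul _) (hv j z), Pool.Agent.MPca0fc2.CX.db_const_mul k _ (hu j z)]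

/-- the uniform bound for a function of temperate growth of the pair -/
private theorem unif_bound {H : PP n → ℂ} (h : Function.HasTemperateGrowth H) (S : ℝ) :
    ∃ C : ℝ, ∃ N : ℕ, 0 ≤ C ∧ ∀ s : ℝ, |s| ≤ S → ∀ z : En n,
      ‖H (s, z)‖ ≤ C * (1 + ‖z‖) ^ N ∧
      ‖fderiv ℝ (fun y => H (s, y)) z‖ ≤ C * (1 + ‖z‖) ^ N := by
  obtain ⟨k, C, hC, hb⟩ := h.norm_iteratedFDeriv_le_uniform 1
  have hdiff : Differentiable ℝ H := h.1.differentiable (by simp)
  refine ⟨C * (1 + |S|) ^ k, k, by positivity, fun s hs z => ?_⟩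
  have hS : |s| ≤ |S| := hs.trans (le_abs_self S)
  have hnorm : 1 + ‖((s, z) : PP n)‖ ≤ (1 + |S|) * (1 + ‖z‖) := by
    have h1 : ‖((s, z) : PP n)‖ ≤ |S| + ‖z‖ := by
      rw [Prod.norm_mk]
      refine max_le ?_ ?_
      · rw [Real.norm_eq_abs]
        linarith [norm_nonneg z]
      · linarith [abs_nonneg S]
    nlinarith [abs_nonneg S, norm_nonneg z, mul_nonneg (abs_nonneg S) (norm_nonneg z)]
  have hpow : C * (1 + ‖((s, z) : PP n)‖) ^ k ≤ C * (1 + |S|) ^ k * (1 + ‖z‖) ^ k := by
    rw [mul_assoc, ← mul_pow]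
    exact mul_le_mul_of_nonneg_left (pow_le_pow_left₀ (by positivity) hnorm k) hC
  refine ⟨?_, ?_⟩
  · have := hb 0 (by norm_num) (s, z)
    rw [norm_iteratedFDeriv_zero] at this
    exact this.trans hpow
  · have h2 := hb 1 le_rfl (s, z)
    rw [norm_iteratedFDeriv_one] at h2
    have h3 : HasFDerivAt (fun y => H (s, y))
        ((fderiv ℝ H (s, z)).comp (ContinuousLinearMap.inr ℝ ℝ (En n))) z :=
      (hdiff (s, z)).hasFDerivAt.comp z (hasFDerivAt_prodMk_right s z)
    rw [h3.fderiv]
    refine ((fderiv ℝ H (s, z)).opNorm_comp_le _).trans ?_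
    have h4 : ‖ContinuousLinearMap.inr ℝ ℝ (En n)‖ ≤ 1 := by
      refine ContinuousLinearMap.opNorm_le_bound _ zero_le_one fun x => ?_
      simp [Prod.norm_mk]
    calc ‖fderiv ℝ H (s, z)‖ * ‖ContinuousLinearMap.inr ℝ ℝ (En n)‖
        ≤ ‖fderiv ℝ H (s, z)‖ * 1 := mul_le_mul_of_nonneg_left h4 (norm_nonneg _)
      _ = ‖fderiv ℝ H (s, z)‖ := mul_one _
      _ ≤ _ := h2.trans hpow

/-- bounds of the integrand and of the vector field, uniform in `s` -/
theorem bound_FI_VI {u v : En n → Fin n → ℂ} (hu : ∀ j, Function.HasTemperateGrowth fun z => u z j)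
    (hv : ∀ j, Function.HasTemperateGrowth fun z => v z j) {c : ℝ}
    (hex : ∀ s z, ‖ex (Ws u v s) z‖ ≤ Real.exp (-c * ‖z‖ ^ 2)) (S : ℝ) :
    ∃ C : ℝ, ∃ N : ℕ, ∀ s : ℝ, |s| ≤ S → ∀ z : En n,
      ‖FI (Ws u v s) z‖ ≤ C * (1 + ‖z‖) ^ N * Real.exp (-c * ‖z‖ ^ 2) ∧
      ∀ k, ‖VI (Ws u v s) (fun y j => 2 * (s : ℂ) * u y j) k z‖ ≤
          C * (1 + ‖z‖) ^ N * Real.exp (-c * ‖z‖ ^ 2) ∧
        ‖fderiv ℝ (VI (Ws u v s) (fun y j => 2 * (s : ℂ) * u y j) k) z‖ ≤
          C * (1 + ‖z‖) ^ N * Real.exp (-c * ‖z‖ ^ 2) := by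
  have hud : ∀ j, Differentiable ℝ fun z => u z j := fun j => (hu j).1.differentiable (by simp)
  have hvd : ∀ j, Differentiable ℝ fun z => v z j := fun j => (hv j).1.differentiable (by simp)
  -- the entries
  have hM : ∀ i j : Fin n, Function.HasTemperateGrowth fun x : PP n => MW (Ws u v x.1) x.2 i j := by
    intro i j
    have e1 : (fun x : PP n => MW (Ws u v x.1) x.2 i j) = fun x : PP n =>
        (x.1 : ℂ) ^ 2 * db j (fun y => u y i) x.2 + db j (fun y => v y i) x.2 := by
      funext x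
      exact MW_Ws hud hvd x.1 x.2 i j
    rw [e1]
    exact ((htg_fst.fun_pow 2).fun_mul (htg_snd (htg_db (hu i) j))).fun_add (htg_snd (htg_db (hv i) j))
  have hη : ∀ i : Fin n, Function.HasTemperateGrowth fun x : PP n => 2 * (x.1 : ℂ) * u x.2 i :=
    fun i => ((Function.HasTemperateGrowth.const (2 : ℂ)).fun_mul htg_fst).fun_mul (htg_snd (hu i))
  have hG : Function.HasTemperateGrowth fun x : PP n => (MW (Ws u v x.1) x.2).det := htg_det hM
  have hD : ∀ k : Fin n, Function.HasTemperateGrowth fun x : PP n =>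
      ((MW (Ws u v x.1) x.2).updateCol k (fun j => 2 * (x.1 : ℂ) * u x.2 j)).det := by
    intro k
    refine htg_det fun i j => ?_
    by_cases hjk : j = k
    · subst hjk
      simp only [Matrix.updateCol_self]
      exact hη i
    · simp only [Matrix.updateCol_ne hjk]
      exact hM i j
  have hq : Function.HasTemperateGrowth fun x : PP n =>
      (-(1 / 2) * ∑ j, x.2 j * Ws u v x.1 x.2 j : ℂ) := by
    refine (Function.HasTemperateGrowth.const _).fun_mul ?_
    refine Function.HasTemperateGrowth.sum fun j _ => ?_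
    refine (htg_snd (htg_coord j)).fun_mul ?_
    exact ((htg_fst.fun_pow 2).fun_mul (htg_snd (hu j))).fun_add (htg_snd (hv j))
  obtain ⟨C1, N1, hC1, h1⟩ := unif_bound hG S
  obtain ⟨C2, N2, hC2, h2⟩ := unif_bound hq S
  choose C3 N3 hC3 h3 using fun k => unif_bound (hD k) S
  -- the total constants
  set K : ℝ := ∑ k, C3 k with hK
  have hK0 : 0 ≤ K := Finset.sum_nonneg fun k _ => hC3 k
  have hCk : ∀ k, C3 k ≤ K := fun k => Finset.single_le_sum (fun i _ => hC3 i) (Finset.mem_univ k)
  set L : ℕ := ∑ k, N3 k with hL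
  have hNk : ∀ k, N3 k ≤ L := fun k =>
    Finset.single_le_sum (fun i _ => Nat.zero_le (N3 i)) (Finset.mem_univ k)
  refine ⟨C1 + K + K * C2, N1 + L + N2, fun s hs z => ?_⟩
  have hz1 : (1 : ℝ) ≤ 1 + ‖z‖ := by linarith [norm_nonneg z]
  have hE : 0 ≤ Real.exp (-c * ‖z‖ ^ 2) := (Real.exp_pos _).le
  have hT : ∀ m, m ≤ N1 + L + N2 → (1 + ‖z‖) ^ m ≤ (1 + ‖z‖) ^ (N1 + L + N2) := fun m hm =>
    pow_le_pow_right₀ hz1 hm
  have hT0 : 0 ≤ (1 + ‖z‖) ^ (N1 + L + N2) := by positivity
  refine ⟨?_, fun k => ⟨?_, ?_⟩⟩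
  · unfold FI
    rw [norm_mul, mul_comm]
    refine mul_le_mul ?_ (hex s z) (norm_nonneg _) (by positivity)
    refine (h1 s hs z).1.trans ?_
    exact mul_le_mul (by nlinarith [mul_nonneg hK0 hC2]) (hT _ (by omega)) (by positivity)
      (by positivity)
  · unfold VI
    rw [norm_mul, mul_comm]
    refine mul_le_mul ?_ (hex s z) (norm_nonneg _) (by positivity)
    refine (h3 k s hs z).1.trans ?_
    exact mul_le_mul (by nlinarith [mul_nonneg hK0 hC2, hCk k]) (hT _ (by have := hNk k; omega))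
      (by positivity) (by positivity)
  · -- the derivative
    have hdD : DifferentiableAt ℝ (fun y : En n =>
        ((MW (Ws u v s) y).updateCol k (fun j => 2 * (s : ℂ) * u y j)).det) z :=
      ((hD k).1.differentiable (by simp) (s, z)).comp z
        (f := fun y : En n => ((s, y) : PP n)) (hasFDerivAt_prodMk_right s z).differentiableAt
    have hdq : DifferentiableAt ℝ (fun y : En n =>
        (-(1 / 2) * ∑ j, y j * Ws u v s y j : ℂ)) z :=
      (hq.1.differentiable (by simp) (s, z)).comp z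
        (f := fun y : En n => ((s, y) : PP n)) (hasFDerivAt_prodMk_right s z).differentiableAt
    have hde : HasFDerivAt (fun y : En n => ex (Ws u v s) y)
        (ex (Ws u v s) z • fderiv ℝ (fun y : En n =>
          (-(1 / 2) * ∑ j, y j * Ws u v s y j : ℂ)) z) z := hdq.hasFDerivAt.cexp
    have hV : HasFDerivAt (VI (Ws u v s) (fun y j => 2 * (s : ℂ) * u y j) k)
        (ex (Ws u v s) z • fderiv ℝ (fun y : En n =>
            ((MW (Ws u v s) y).updateCol k (fun j => 2 * (s : ℂ) * u y j)).det) z +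
          ((MW (Ws u v s) z).updateCol k (fun j => 2 * (s : ℂ) * u z j)).det •
            (ex (Ws u v s) z • fderiv ℝ (fun y : En n =>
          (-(1 / 2) * ∑ j, y j * Ws u v s y j : ℂ)) z)) z := hde.mul hdD.hasFDerivAt
    rw [hV.fderiv]
    refine (norm_add_le _ _).trans ?_
    rw [norm_smul, norm_smul, norm_smul]
    have a1 := (h3 k s hs z).2
    have a2 := (h3 k s hs z).1
    have a3 := (h2 s hs z).2
    have a4 := hex s z
    set X := (1 + ‖z‖) ^ (N1 + L + N2) with hX
    have b1 : ‖fderiv ℝ (fun y : En n =>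
        ((MW (Ws u v s) y).updateCol k (fun j => 2 * (s : ℂ) * u y j)).det) z‖ ≤ K * X :=
      a1.trans (mul_le_mul (hCk k) (hT _ (by have := hNk k; omega)) (by positivity) hK0)
    have b2 : ‖((MW (Ws u v s) z).updateCol k (fun j => 2 * (s : ℂ) * u z j)).det‖ *
        ‖fderiv ℝ (fun y : En n => (-(1 / 2) * ∑ j, y j * Ws u v s y j : ℂ)) z‖ ≤ K * C2 * X := by
      calc _ ≤ (C3 k * (1 + ‖z‖) ^ N3 k) * (C2 * (1 + ‖z‖) ^ N2) :=
            mul_le_mul a2 a3 (norm_nonneg _) (mul_nonneg (hC3 k) (by positivity))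
        _ = C3 k * C2 * (1 + ‖z‖) ^ (N3 k + N2) := by rw [pow_add]; ring
        _ ≤ K * C2 * X := mul_le_mul (mul_le_mul_of_nonneg_right (hCk k) hC2)
            (hT _ (by have := hNk k; omega)) (by positivity) (mul_nonneg hK0 hC2)
    calc ‖ex (Ws u v s) z‖ * ‖fderiv ℝ (fun y : En n =>
            ((MW (Ws u v s) y).updateCol k (fun j => 2 * (s : ℂ) * u y j)).det) z‖ +
          ‖((MW (Ws u v s) z).updateCol k (fun j => 2 * (s : ℂ) * u z j)).det‖ *
          (‖ex (Ws u v s) z‖ * ‖fderiv ℝ (fun y : En n =>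
            (-(1 / 2) * ∑ j, y j * Ws u v s y j : ℂ)) z‖)
        = ‖ex (Ws u v s) z‖ * (‖fderiv ℝ (fun y : En n =>
            ((MW (Ws u v s) y).updateCol k (fun j => 2 * (s : ℂ) * u y j)).det) z‖ +
          ‖((MW (Ws u v s) z).updateCol k (fun j => 2 * (s : ℂ) * u z j)).det‖ *
            ‖fderiv ℝ (fun y : En n => (-(1 / 2) * ∑ j, y j * Ws u v s y j : ℂ)) z‖) := by ring
      _ ≤ Real.exp (-c * ‖z‖ ^ 2) * (K * X + K * C2 * X) :=
          mul_le_mul a4 (add_le_add b1 b2)
            (add_nonneg (norm_nonneg _) (mul_nonneg (norm_nonneg _) (norm_nonneg _))) hE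
      _ ≤ Real.exp (-c * ‖z‖ ^ 2) * ((C1 + K + K * C2) * X) := by
          refine mul_le_mul_of_nonneg_left ?_ hE
          nlinarith [mul_nonneg hC1 hT0]
      _ = (C1 + K + K * C2) * X * Real.exp (-c * ‖z‖ ^ 2) := by ring

private theorem contDiff_MW {u v : En n → Fin n → ℂ} (hu : ∀ j, ContDiff ℝ 2 fun z => u z j)
    (hv : ∀ j, ContDiff ℝ 2 fun z => v z j) (s : ℝ) (i j : Fin n) :
    ContDiff ℝ 1 fun z => MW (Ws u v s) z i j := by
  have e1 : (fun z => MW (Ws u v s) z i j) = fun z =>
      (s : ℂ) ^ 2 * db j (fun y => u y i) z + db j (fun y => v y i) z := by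
    funext z
    exact MW_Ws (fun j => (hu j).differentiable (by norm_num))
      (fun j => (hv j).differentiable (by norm_num)) s z i j
  rw [e1]
  have h1 : ContDiff ℝ 1 (db j fun y => u y i) := by
    have := Pool.Agent.MPca0fc2.CX.contDiff_db (m := 1) j (F := fun y => u y i) (by exact_mod_cast hu i)
    exact_mod_cast this
  have h2 : ContDiff ℝ 1 (db j fun y => v y i) := by
    have := Pool.Agent.MPca0fc2.CX.contDiff_db (m := 1) j (F := fun y => v y i) (by exact_mod_cast hv i)
    exact_mod_cast this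
  exact (contDiff_const.mul h1).add h2

private theorem differentiable_coord (j : Fin n) : Differentiable ℝ fun z : En n => z j :=
  (htg_coord j).1.differentiable (by simp)

private theorem differentiable_ex {u v : En n → Fin n → ℂ} (hu : ∀ j, ContDiff ℝ 2 fun z => u z j)
    (hv : ∀ j, ContDiff ℝ 2 fun z => v z j) (s : ℝ) : Differentiable ℝ (ex (Ws u v s)) := by
  unfold ex
  refine Differentiable.cexp ?_
  refine Differentiable.const_mul ?_ _
  refine Differentiable.fun_sum fun j _ => ?_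
  refine (differentiable_coord j).mul ?_
  unfold Ws
  exact (((hu j).differentiable (by norm_num)).const_mul _).add ((hv j).differentiable (by norm_num))

theorem differentiable_VI {u v : En n → Fin n → ℂ} (hu : ∀ j, ContDiff ℝ 2 fun z => u z j)
    (hv : ∀ j, ContDiff ℝ 2 fun z => v z j) (s : ℝ) (k : Fin n) :
    Differentiable ℝ (VI (Ws u v s) (fun y j => 2 * (s : ℂ) * u y j) k) := by
  refine (differentiable_ex hu hv s).mul fun z => ?_
  refine Pool.Agent.MPca0fc2.CX.det_differentiableAt fun i j => ?_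
  by_cases hjk : j = k
  · subst hjk
    simp only [Matrix.updateCol_self]
    exact (((hu i).differentiable (by norm_num)).const_mul _) z
  · simp only [Matrix.updateCol_ne hjk]
    exact (contDiff_MW hu hv s i j).differentiable (by norm_num) z

theorem continuous_FI {u v : En n → Fin n → ℂ} (hu : ∀ j, ContDiff ℝ 2 fun z => u z j)
    (hv : ∀ j, ContDiff ℝ 2 fun z => v z j) (s : ℝ) : Continuous (FI (Ws u v s)) := by
  refine Differentiable.continuous (𝕜 := ℝ) ?_
  refine (differentiable_ex hu hv s).mul fun z => ?_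
  refine Pool.Agent.MPca0fc2.CX.det_differentiableAt fun i j => ?_
  exact (contDiff_MW hu hv s i j).differentiable (by norm_num) z

end Pool.Agent.MP5e7226.HL
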