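import Mathlib
import Pool.Agent.Lib.MP_5e7226_co.HL.B2
import Pool.Agent.Lib.MP_5e7226_co.HL.B3
import Pool.Agent.Lib.MP_5e7226_co.HL.B5
import Pool.Agent.Lib.MP_ca0fc2_an.Mg.G083

/-!
Task HL B6: the integral does not depend on `s`.

PROOF. Let `J s = ∫ z, FI (Ws u v s) z` with `u = uQ F p`, `v = vQ e`, `c = e/2`. By `bound_FI_VI` (with
`hex` from `norm_ex_le`) and `integrable_gauss` the integrand is integrable. For `|s| < S`:
`HasDerivAt (FI (Ws u v ·) z) (∑ k, db k (VI ..) z)` (`hasDerivAt_FI`), and `‖db k V z‖ ≤ ‖fderiv ℝ V z‖`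
(`norm_db_le` in CXDbB) gives an integrable bound, uniform in `s`. So
`hasDerivAt_integral_of_dominated_loc_of_deriv_le` gives `J' s = ∫ ∑_k db k (VI ..) = ∑_k 0 = 0`
(`integral_db_zero`, `integral_finsetSum`; each `db k (VI ..)` is integrable: its measurability from
`measurable_fderiv_apply_const`). Hence `J` is constant on `ℝ` (`is_const_of_deriv_eq_zero`).
-/

set_option autoImplicit false

open MeasureTheory Set
open scoped InnerProductSpace ENNReal Pointwise

namespace Pool.Agent.MP5e7226.HL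

open Pool.Agent.MPca0fc2.CX (En ee db)

variable {n : ℕ}

private theorem B6_hu (F : Finset (E n)) (p : ℕ) (j : Fin n) :
    ContDiff ℝ 2 fun z : En n => uQ F p z j :=
  (hasTemperateGrowth_uQ F p j).1.of_le (WithTop.coe_le_coe.2 le_top)

private theorem B6_hv (e : ℝ) (j : Fin n) : ContDiff ℝ 2 fun z : En n => vQ e z j :=
  (hasTemperateGrowth_vQ e j).1.of_le (WithTop.coe_le_coe.2 le_top)

private theorem B6_bound (F : Finset (E n)) {p : ℕ} (hp : 1 ≤ p) (e : ℝ) (S : ℝ) :
    ∃ C : ℝ, ∃ N : ℕ, ∀ s : ℝ, |s| ≤ S → ∀ z : En n,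
      ‖FI (Ws (uQ F p) (vQ e) s) z‖ ≤ C * (1 + ‖z‖) ^ N * Real.exp (-(e / 2) * ‖z‖ ^ 2) ∧
      ∀ k, ‖VI (Ws (uQ F p) (vQ e) s) (fun y j => 2 * (s : ℂ) * uQ F p y j) k z‖ ≤
          C * (1 + ‖z‖) ^ N * Real.exp (-(e / 2) * ‖z‖ ^ 2) ∧
        ‖fderiv ℝ (VI (Ws (uQ F p) (vQ e) s) (fun y j => 2 * (s : ℂ) * uQ F p y j) k) z‖ ≤
          C * (1 + ‖z‖) ^ N * Real.exp (-(e / 2) * ‖z‖ ^ 2) :=
  bound_FI_VI (fun j => hasTemperateGrowth_uQ F p j) (fun j => hasTemperateGrowth_vQ e j)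
    (fun s z => norm_ex_le F hp e s z) S

private theorem B6_int (n N : ℕ) (C : ℝ) {e : ℝ} (he : 0 < e) :
    Integrable fun z : En n => C * (1 + ‖z‖) ^ N * Real.exp (-(e / 2) * ‖z‖ ^ 2) := by
  have h := (integrable_gauss n N (half_pos he)).const_mul C
  refine h.congr (Filter.Eventually.of_forall fun z => ?_)
  simp only [mul_assoc]

theorem integrable_FI (F : Finset (E n)) {p : ℕ} (hp : 1 ≤ p) {e : ℝ} (he : 0 < e) (s : ℝ) :
    Integrable (FI (Ws (uQ F p) (vQ (n := n) e) s)) := by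
  obtain ⟨C, N, h⟩ := B6_bound F hp e |s|
  refine (B6_int n N C he).mono' ?_ (Filter.Eventually.of_forall fun z => (h s le_rfl z).1)
  exact (continuous_FI (fun j => B6_hu F p j) (fun j => B6_hv e j) s).aestronglyMeasurable

private theorem B6_db_meas (k : Fin n) (V : En n → ℂ) : Measurable fun z => db k V z := by
  unfold db
  exact ((measurable_fderiv_apply_const ℝ V (ee k)).add
    ((measurable_fderiv_apply_const ℝ V (Complex.I • ee k)).const_mul Complex.I)).const_mul (1 / 2)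

private theorem B6_gen {Φ : ℝ → En n → ℂ} {V : ℝ → Fin n → En n → ℂ} {bd : En n → ℝ} (s : ℝ)
    (hbd : Integrable bd) (hc : ∀ t, Continuous (Φ t)) (hi : Integrable (Φ s))
    (hV : ∀ t, |t| ≤ |s| + 1 → ∀ k z, ‖fderiv ℝ (V t k) z‖ ≤ bd z)
    (hd : ∀ t z, HasDerivAt (fun r => Φ r z) (∑ k, db k (V t k) z) t)
    (h0 : ∀ k, ∫ z, db k (V s k) z = 0) :
    HasDerivAt (fun t : ℝ => ∫ z, Φ t z) 0 s := by
  have hball : Metric.ball s 1 ∈ nhds s := Metric.ball_mem_nhds s one_pos
  have habs : ∀ t ∈ Metric.ball s 1, |t| ≤ |s| + 1 := by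
    intro t ht
    rw [Metric.mem_ball, Real.dist_eq] at ht
    have h1 := abs_sub_abs_le_abs_sub t s
    linarith
  have hVint : ∀ k : Fin n, Integrable fun z : En n => db k (V s k) z := by
    intro k
    refine hbd.mono' (B6_db_meas k _).aestronglyMeasurable
      (Filter.Eventually.of_forall fun z => ?_)
    exact (Pool.Agent.MPca0fc2.CX.norm_db_le k _ z).trans
      (hV s (by linarith [le_refl |s|]) k z)
  have key := hasDerivAt_integral_of_dominated_loc_of_deriv_le (μ := (volume : Measure (En n)))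
    (𝕜 := ℝ) (F := Φ) (x₀ := s)
    (F' := fun (t : ℝ) (z : En n) => ∑ k, db k (V t k) z)
    (bound := fun z : En n => ∑ _k : Fin n, bd z)
    hball
    (Filter.Eventually.of_forall fun t => (hc t).aestronglyMeasurable)
    hi
    (Finset.measurable_fun_sum _ fun k _ => B6_db_meas k _).aestronglyMeasurable
    (Filter.Eventually.of_forall fun z t ht => by
      refine (norm_sum_le _ _).trans (Finset.sum_le_sum fun k _ => ?_)
      exact (Pool.Agent.MPca0fc2.CX.norm_db_le k _ z).trans (hV t (habs t ht) k z))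
    (integrable_finsetSum _ fun k _ => hbd)
    (Filter.Eventually.of_forall fun z t _ => hd t z)
  have h1 := key.2
  have h2 : ∫ z : En n, ∑ k, db k (V s k) z = 0 := by
    rw [integral_finsetSum _ fun k _ => hVint k]
    exact Finset.sum_eq_zero fun k _ => h0 k
  rw [h2] at h1
  exact h1

private theorem B6_deriv (F : Finset (E n)) {p : ℕ} (hp : 1 ≤ p) {e : ℝ} (he : 0 < e) (s : ℝ) :
    HasDerivAt (fun t : ℝ => ∫ z, FI (Ws (uQ F p) (vQ (n := n) e) t) z) 0 s := by
  obtain ⟨C, N, h⟩ := B6_bound F hp e (|s| + 1)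
  have hs : |s| ≤ |s| + 1 := by linarith [le_refl |s|]
  exact B6_gen (Φ := fun t => FI (Ws (uQ F p) (vQ (n := n) e) t))
    (V := fun t k => VI (Ws (uQ F p) (vQ e) t) (fun y j => 2 * (t : ℂ) * uQ F p y j) k)
    s (B6_int n N C he)
    (fun t => continuous_FI (fun j => B6_hu F p j) (fun j => B6_hv e j) t)
    (integrable_FI F hp he s)
    (fun t ht k z => ((h t ht z).2 k).2)
    (fun t z => hasDerivAt_FI (fun j => B6_hu F p j) (fun j => B6_hv e j) t z)
    (fun k => integral_db_zero k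
      (differentiable_VI (fun j => B6_hu F p j) (fun j => B6_hv e j) s k)
      (half_pos he) (fun z => ((h s hs z).2 k).1) (fun z => ((h s hs z).2 k).2))

theorem integral_FI_eq (F : Finset (E n)) {p : ℕ} (hp : 1 ≤ p) {e : ℝ} (he : 0 < e) :
    ∫ z, FI (Ws (uQ F p) (vQ (n := n) e) 1) z = ∫ z, FI (Ws (uQ F p) (vQ (n := n) e) 0) z :=
  is_const_of_deriv_eq_zero (fun s => (B6_deriv F hp he s).differentiableAt)
    (fun s => (B6_deriv F hp he s).deriv) 1 0

end Pool.Agent.MP5e7226.HL
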