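import Mathlib
import Pool.Agent.Lib.MP_5e7226_co.HL.B1
import Pool.Agent.Lib.MP_5e7226_co.HL.B6

/-!
Task HL B7: from `ℂⁿ` to `E n × E n`, and the lower bound.

PROOFS. `exists_const`: the map `zP : E n × E n → En n`, `(a, b) ↦ a + i b`, is a real linear
homeomorphism (inverse `z ↦ (reP z, imP z)`); the image of the volume of `E n × E n` under it is an
additive Haar measure on `En n` (`ContinuousLinearEquiv.isAddHaarMeasure_map` or
`LinearEquiv`…), hence equal to `c • volume` with `c ≠ 0, ∞` (`Measure.isAddHaarMeasure_eq_smul`,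
`Measure.isAddLeftInvariant_eq_smul`). So `∫ q, G (zP q) = c ∫ z, G z` for all `G`
(`MeasurableEmbedding.integral_map`/`integral_map_equiv`).
`berndtsson`: `∫ q, FI (Ws .. 1) (zP q) = c ∫ FI (1) = c ∫ FI (0) = ∫ q, FI (Ws .. 0) (zP q)
= e^n ∫ q, exp(-(e/2)(‖q.1‖² + ‖q.2‖²)) = e^n ((2π/e)^(n/2))² = (2π)^n` (`det_MW_zero`, `ex_zero`,
`integral_prod_mul`, `GaussianFourier.integral_rexp_neg_mul_sq_norm` or `integral_gaussian`; `finrank = n`).
And `‖FI (Ws .. 1) (zP q)‖ = exp(-(1/2)(⟪a, gp a⟫ + ⟪b, gp b⟫)) (1/2)^n det(Hp a + Hp b)` for `q = (a, b)`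
(`norm_ex_one`, `det_MW_one`, `det_pos`). By `enorm_integral_le_lintegral_enorm`:
`(2π)^n ≤ (1/2)^n ∫⁻ ...`, i.e. the claim.
-/

set_option autoImplicit false

open MeasureTheory Set
open scoped InnerProductSpace ENNReal Pointwise

namespace Pool.Agent.MP5e7226.HL

open Pool.Agent.MPca0fc2.CX (En ee db)

variable {n : ℕ}

private theorem B7_re (q : E n × E n) : reP (zP q) = q.1 := by
  ext j
  simp [reP, zP]

private theorem B7_im (q : E n × E n) : imP (zP q) = q.2 := by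
  ext j
  simp [imP, zP]

private theorem B7_zP (z : En n) : zP (reP z, imP z) = z := by
  ext j
  simp only [reP, imP, zP]
  rw [mul_comm]
  exact Complex.re_add_im (z j)

private noncomputable def B7_L (n : ℕ) : (E n × E n) ≃ₗ[ℝ] En n where
  toFun := zP
  invFun z := (reP z, imP z)
  left_inv q := by
    show (reP (zP q), imP (zP q)) = q
    rw [B7_re, B7_im]
  right_inv z := B7_zP z
  map_add' q r := by
    ext j
    simp only [zP, PiLp.add_apply, Prod.fst_add, Prod.snd_add, Complex.ofReal_add]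
    ring
  map_smul' c q := by
    ext j
    simp only [zP, PiLp.smul_apply, Prod.smul_fst, Prod.smul_snd, smul_eq_mul, Complex.ofReal_mul,
      RingHom.id_apply, Complex.real_smul]
    ring

theorem exists_const (n : ℕ) : ∃ c : ℝ, ∀ G : En n → ℂ,
    ∫ q : E n × E n, G (zP q) = c * ∫ z, G z := by
  set e : (E n × E n) ≃L[ℝ] En n := (B7_L n).toContinuousLinearEquiv with he
  have h0 : (volume : Measure (E n × E n)).IsAddHaarMeasure :=
    Measure.prod.instIsAddHaarMeasure (volume : Measure (E n)) (volume : Measure (E n))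
  have h1 : (Measure.map e (volume : Measure (E n × E n))).IsAddHaarMeasure :=
    e.isAddHaarMeasure_map volume
  obtain ⟨c, h2⟩ : ∃ c : NNReal, Measure.map e (volume : Measure (E n × E n)) =
      c • (volume : Measure (En n)) :=
    ⟨_, Measure.isAddLeftInvariant_eq_smul (Measure.map e (volume : Measure (E n × E n)))
      (volume : Measure (En n))⟩
  refine ⟨(c : ℝ), fun G => ?_⟩
  have h3 : ∫ q : E n × E n, G (zP q) =
      ∫ z, G z ∂(Measure.map e (volume : Measure (E n × E n))) := by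
    have := (e.toHomeomorph.measurableEmbedding).integral_map (μ := (volume : Measure (E n × E n))) G
    exact this.symm
  rw [h3, h2, integral_smul_nnreal_measure, NNReal.smul_def, Complex.real_smul]

theorem reP_zP (q : E n × E n) : reP (zP q) = q.1 := B7_re q

theorem imP_zP (q : E n × E n) : imP (zP q) = q.2 := B7_im q

theorem norm_zP_sq (q : E n × E n) : ‖zP q‖ ^ 2 = ‖q.1‖ ^ 2 + ‖q.2‖ ^ 2 := by
  rw [EuclideanSpace.norm_sq_eq, EuclideanSpace.norm_sq_eq, EuclideanSpace.norm_sq_eq,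
    ← Finset.sum_add_distrib]
  refine Finset.sum_congr rfl fun j _ => ?_
  rw [← Complex.normSq_eq_norm_sq, Complex.normSq_apply]
  simp only [zP, Complex.add_re, Complex.mul_re, Complex.I_re, Complex.ofReal_re, Complex.I_im,
    Complex.ofReal_im, Complex.add_im, Complex.mul_im, Real.norm_eq_abs, sq_abs]
  ring

private theorem B7_gauss {e : ℝ} (he : 0 < e) :
    ∫ q : E n × E n, (Real.exp (-(e / 2) * ‖q.1‖ ^ 2) * Real.exp (-(e / 2) * ‖q.2‖ ^ 2)) =
      (2 * Real.pi / e) ^ n := by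
  have h1 : ∫ q : E n × E n, (Real.exp (-(e / 2) * ‖q.1‖ ^ 2) * Real.exp (-(e / 2) * ‖q.2‖ ^ 2)) =
      (∫ a : E n, Real.exp (-(e / 2) * ‖a‖ ^ 2)) * ∫ a : E n, Real.exp (-(e / 2) * ‖a‖ ^ 2) :=
    integral_prod_mul (μ := (volume : Measure (E n))) (ν := (volume : Measure (E n)))
      (fun a => Real.exp (-(e / 2) * ‖a‖ ^ 2)) (fun a => Real.exp (-(e / 2) * ‖a‖ ^ 2))
  rw [h1, GaussianFourier.integral_rexp_neg_mul_sq_norm (by positivity : 0 < e / 2),
    finrank_euclideanSpace_fin]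
  have h2 : Real.pi / (e / 2) = 2 * Real.pi / e := by
    field_simp
  rw [h2, ← Real.rpow_add (by positivity : 0 < 2 * Real.pi / e), add_halves, Real.rpow_natCast]

theorem berndtsson (F : Finset (E n)) {p : ℕ} (hp : 1 ≤ p) {e : ℝ} (he : 0 < e) :
    ENNReal.ofReal ((4 * Real.pi) ^ n) ≤ ∫⁻ q : E n × E n, ENNReal.ofReal
      (Real.exp (-(1 / 2) * (⟪q.1, gp F p e q.1⟫_ℝ + ⟪q.2, gp F p e q.2⟫_ℝ)) *
        (Hp F p e q.1 + Hp F p e q.2).det) := by
  obtain ⟨c, hc⟩ := exists_const n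
  have hpi := Real.pi_pos
  have h0 : ∫ q : E n × E n, FI (Ws (uQ F p) (vQ (n := n) e) 0) (zP q) =
      (((2 * Real.pi) ^ n : ℝ) : ℂ) := by
    have e1 : ∀ q : E n × E n, FI (Ws (uQ F p) (vQ (n := n) e) 0) (zP q) =
        ((Real.exp (-(e / 2) * ‖q.1‖ ^ 2) * Real.exp (-(e / 2) * ‖q.2‖ ^ 2) * e ^ n : ℝ) : ℂ) := by
      intro q
      rw [FI, ex_zero, det_MW_zero, norm_zP_sq, mul_add, Real.exp_add]
      push_cast
      ring
    simp only [e1]
    have e2 := integral_ofReal (𝕜 := ℂ) (μ := (volume : Measure (E n × E n))) (f := fun q =>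
      Real.exp (-(e / 2) * ‖q.1‖ ^ 2) * Real.exp (-(e / 2) * ‖q.2‖ ^ 2) * e ^ n)
    refine e2.trans ?_
    rw [integral_mul_const, B7_gauss he, ← mul_pow]
    congr 2
    field_simp
  have h1 : ∫ q : E n × E n, FI (Ws (uQ F p) (vQ (n := n) e) 1) (zP q) =
      (((2 * Real.pi) ^ n : ℝ) : ℂ) := by
    rw [hc, integral_FI_eq F hp he, ← hc, h0]
  have h2 : ∀ q : E n × E n, ‖FI (Ws (uQ F p) (vQ (n := n) e) 1) (zP q)‖ₑ =
      ENNReal.ofReal ((1 / 2) ^ n) * ENNReal.ofReal
      (Real.exp (-(1 / 2) * (⟪q.1, gp F p e q.1⟫_ℝ + ⟪q.2, gp F p e q.2⟫_ℝ)) *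
        (Hp F p e q.1 + Hp F p e q.2).det) := by
    intro q
    have hdet := det_pos F hp he q.1 q.2
    rw [← ENNReal.ofReal_mul (by positivity), ← ofReal_norm, FI, norm_mul, norm_ex_one,
      det_MW_one F hp, norm_mul, norm_pow, Complex.norm_real, reP_zP, imP_zP, Real.norm_eq_abs,
      abs_of_pos hdet]
    congr 1
    have : ‖(1 / 2 : ℂ)‖ = 1 / 2 := by norm_num
    rw [this]
    ring
  have h3 := enorm_integral_le_lintegral_enorm
    (μ := (volume : Measure (E n × E n))) (fun q => FI (Ws (uQ F p) (vQ (n := n) e) 1) (zP q))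
  rw [h1] at h3
  simp only [h2] at h3
  rw [lintegral_const_mul' _ _ ENNReal.ofReal_ne_top, ← ofReal_norm, Complex.norm_real,
    Real.norm_eq_abs, abs_of_pos (by positivity)] at h3
  set J : ℝ≥0∞ := ∫⁻ q : E n × E n, ENNReal.ofReal
      (Real.exp (-(1 / 2) * (⟪q.1, gp F p e q.1⟫_ℝ + ⟪q.2, gp F p e q.2⟫_ℝ)) *
        (Hp F p e q.1 + Hp F p e q.2).det) with hJ
  calc ENNReal.ofReal ((4 * Real.pi) ^ n)
      = ENNReal.ofReal (2 ^ n) * ENNReal.ofReal ((2 * Real.pi) ^ n) := by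
        rw [← ENNReal.ofReal_mul (by positivity), ← mul_pow]
        congr 2
        ring
    _ ≤ ENNReal.ofReal (2 ^ n) * (ENNReal.ofReal ((1 / 2) ^ n) * J) := mul_le_mul' le_rfl h3
    _ = J := by
        rw [← mul_assoc, ← ENNReal.ofReal_mul (by positivity), ← mul_pow]
        norm_num

end Pool.Agent.MP5e7226.HL
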