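import Mathlib
import Pool.Agent.Lib.MP_5e7226_co.HL.B1

/-!
Task HL B8: the change of variables `(a, b) ↦ ((a + b)/2, (gp a - gp b)/2)`.

PROOF. Injective: if `a + b = a' + b'` and `gp a - gp b = gp a' - gp b'` then with `h = a - a' = b' - b`:
`e ‖h‖² ≤ ⟪gp a - gp a', a - a'⟫ = ⟪gp b - gp b', a - a'⟫ = -⟪gp b - gp b', b - b'⟫ ≤ 0`, so `h = 0`.
Derivative at `(a, b)`: `(h, k) ↦ ((h + k)/2, (A h - B k)/2)`, `A = Hp a`, `B = Hp b` (`hasFDerivAt_gp`).
Its determinant has the absolute value `4^-n det(A + B)`: `det_block`. In the basis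
`(EuclideanSpace.basisFun ..).toBasis.prod ..` (or via `LinearMap.toMatrix`) it is the block matrix
`(1/2) [[1, 1], [A, -B]]` (`Matrix.fromBlocks`, `Matrix.det_fromBlocks_one₁₁`: `det = det(-B - A)`), the
factor `(1/2)^(2n)`, and `|det(-(A + B))| = det (A + B)` (`det_pos`, `Matrix.det_neg`).
Then `lintegral_image_eq_lintegral_abs_det_fderiv_mul` on `univ` and
`∫⁻ over the image ≤ ∫⁻ over everything`.
-/

set_option autoImplicit false

open MeasureTheory Set
open scoped InnerProductSpace ENNReal Pointwise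

namespace Pool.Agent.MP5e7226.HL

variable {n : ℕ}

/-- the change of variables -/
noncomputable def cv {n : ℕ} (F : Finset (E n)) (p : ℕ) (e : ℝ) (q : E n × E n) : E n × E n :=
  ((1 / 2 : ℝ) • (q.1 + q.2), (1 / 2 : ℝ) • (gp F p e q.1 - gp F p e q.2))

theorem injective_cv (F : Finset (E n)) {p : ℕ} (hp : 1 ≤ p) {e : ℝ} (he : 0 < e) :
    Function.Injective (cv F p e) := by
  rintro ⟨a, b⟩ ⟨a', b'⟩ h
  simp only [cv, Prod.mk.injEq] at h
  obtain ⟨h1, h2⟩ := h
  have h12 : (1 / 2 : ℝ) ≠ 0 := by norm_num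
  have h1' : a + b = a' + b' := smul_right_injective _ h12 h1
  have h2' : gp F p e a - gp F p e b = gp F p e a' - gp F p e b' := smul_right_injective _ h12 h2
  have e1 : gp F p e a - gp F p e a' = gp F p e b - gp F p e b' := by
    rw [sub_eq_sub_iff_add_eq_add] at h2' ⊢
    rw [h2', add_comm]
  have e2 : a - a' = -(b - b') := by
    rw [neg_sub, sub_eq_sub_iff_add_eq_add, h1', add_comm]
  have m1 := gp_monotone F hp e a a'
  have m2 := gp_monotone F hp e b b'
  rw [e1, e2, inner_neg_right, norm_neg] at m1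
  have hb : ‖b - b'‖ = 0 := by
    have : e * ‖b - b'‖ ^ 2 ≤ 0 := by linarith
    have h3 : ‖b - b'‖ ^ 2 ≤ 0 := by
      by_contra hcon
      push Not at hcon
      have := mul_pos he hcon
      linarith
    have h4 := le_antisymm h3 (sq_nonneg _)
    exact pow_eq_zero_iff (two_ne_zero) |>.1 h4
  have hb' : b = b' := sub_eq_zero.1 (norm_eq_zero.1 hb)
  have ha' : a = a' := by
    rw [hb'] at h1'
    exact add_right_cancel h1'
  rw [ha', hb']

theorem det_block (A B : Matrix (Fin n) (Fin n) ℝ) :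
    |(((1 / 2 : ℝ) • ((ContinuousLinearMap.fst ℝ (E n) (E n)) + (ContinuousLinearMap.snd ℝ (E n) (E n)))).prod
      ((1 / 2 : ℝ) • ((Matrix.toEuclideanCLM (n := Fin n) (𝕜 := ℝ) A).comp
          (ContinuousLinearMap.fst ℝ (E n) (E n)) -
        (Matrix.toEuclideanCLM (n := Fin n) (𝕜 := ℝ) B).comp
          (ContinuousLinearMap.snd ℝ (E n) (E n))))).det| = (1 / 4 : ℝ) ^ n * |(A + B).det| := by
  set T : E n × E n →L[ℝ] E n × E n := (((1 / 2 : ℝ) • ((ContinuousLinearMap.fst ℝ (E n) (E n)) + (ContinuousLinearMap.snd ℝ (E n) (E n)))).prod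
      ((1 / 2 : ℝ) • ((Matrix.toEuclideanCLM (n := Fin n) (𝕜 := ℝ) A).comp
          (ContinuousLinearMap.fst ℝ (E n) (E n)) -
        (Matrix.toEuclideanCLM (n := Fin n) (𝕜 := ℝ) B).comp
          (ContinuousLinearMap.snd ℝ (E n) (E n))))) with hT
  have hdet : T.det = LinearMap.det (T : E n × E n →ₗ[ℝ] E n × E n) := rfl
  set b := (EuclideanSpace.basisFun (Fin n) ℝ).toBasis with hb
  have hM : LinearMap.toMatrix (b.prod b) (b.prod b) (T : E n × E n →ₗ[ℝ] E n × E n) =
      (1 / 2 : ℝ) • Matrix.fromBlocks (1 : Matrix (Fin n) (Fin n) ℝ) 1 A (-B) := by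
    ext i j
    rw [LinearMap.toMatrix_apply]
    have hcol : ∀ (M : Matrix (Fin n) (Fin n) ℝ) (j i : Fin n),
        (Matrix.toEuclideanCLM (n := Fin n) (𝕜 := ℝ) M (EuclideanSpace.single j (1 : ℝ))) i = M i j := by
      intro M j i
      change (M.mulVec ((EuclideanSpace.single j (1 : ℝ)).ofLp)) i = M i j
      simp
    rcases i with i | i <;> rcases j with j | j
    · simp [hT, hb, Matrix.one_apply]
    · simp [hT, hb, Matrix.one_apply]
    · simp [hT, hb, hcol]
    · simp [hT, hb, hcol]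
  rw [hdet, ← LinearMap.det_toMatrix (b.prod b), hM, Matrix.det_smul, Matrix.det_fromBlocks_one₁₁]
  have e : -B - A * 1 = -(A + B) := by rw [mul_one]; abel
  rw [e, Matrix.det_neg]
  simp only [Fintype.card_sum, Fintype.card_fin, abs_mul, abs_pow, abs_neg, abs_one, one_pow, one_mul]
  rw [← two_mul, pow_mul]
  congr 2
  rw [abs_of_pos (by norm_num)]
  norm_num

theorem cov_ineq (F : Finset (E n)) {p : ℕ} (hp : 1 ≤ p) {e : ℝ} (he : 0 < e)
    (G : E n × E n → ℝ≥0∞) :
    ∫⁻ q : E n × E n, ENNReal.ofReal ((1 / 4 : ℝ) ^ n * (Hp F p e q.1 + Hp F p e q.2).det) *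
      G (cv F p e q) ≤ ∫⁻ q : E n × E n, G q := by
  have hd : ∀ q : E n × E n, HasFDerivAt (cv F p e)
      (((1 / 2 : ℝ) • ((ContinuousLinearMap.fst ℝ (E n) (E n)) + (ContinuousLinearMap.snd ℝ (E n) (E n)))).prod
      ((1 / 2 : ℝ) • ((Matrix.toEuclideanCLM (n := Fin n) (𝕜 := ℝ) (Hp F p e q.1)).comp
          (ContinuousLinearMap.fst ℝ (E n) (E n)) -
        (Matrix.toEuclideanCLM (n := Fin n) (𝕜 := ℝ) (Hp F p e q.2)).comp
          (ContinuousLinearMap.snd ℝ (E n) (E n))))) q := by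
    intro q
    have h1 : HasFDerivAt (fun q : E n × E n => q.1) (ContinuousLinearMap.fst ℝ (E n) (E n)) q :=
      hasFDerivAt_fst
    have h2 : HasFDerivAt (fun q : E n × E n => q.2) (ContinuousLinearMap.snd ℝ (E n) (E n)) q :=
      hasFDerivAt_snd
    have h3 := (hasFDerivAt_gp F hp e q.1).comp q h1
    have h4 := (hasFDerivAt_gp F hp e q.2).comp q h2
    exact ((h1.add h2).const_smul (1 / 2 : ℝ)).prodMk ((h3.sub h4).const_smul (1 / 2 : ℝ))
  haveI : (volume : Measure (E n × E n)).IsAddHaarMeasure := by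
    rw [Measure.volume_eq_prod]
    infer_instance
  have key := lintegral_image_eq_lintegral_abs_det_fderiv_mul (volume : Measure (E n × E n))
    MeasurableSet.univ (fun q _ => (hd q).hasFDerivWithinAt) (injective_cv F hp he).injOn G
  rw [setLIntegral_univ] at key
  calc ∫⁻ q : E n × E n, ENNReal.ofReal ((1 / 4 : ℝ) ^ n * (Hp F p e q.1 + Hp F p e q.2).det) *
      G (cv F p e q) = ∫⁻ q in cv F p e '' univ, G q := by
        rw [key]
        refine lintegral_congr fun q => ?_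
        rw [det_block, abs_of_pos (det_pos F hp he q.1 q.2)]
    _ ≤ ∫⁻ q : E n × E n, G q := setLIntegral_le_lintegral _ _

end Pool.Agent.MP5e7226.HL
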