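import Mathlib
import Pool.Agent.Lib.MP_5e7226_co.HL.B1

/-!
Task HL B9: approximation of a body by a polytope and the choice of `p` and `e`.

PROOF of `exists_finset`. If `n = 0`, `F = ∅` works for the first (everything is `0 ∈ θ • Z`). In
general: let `S = {x ∈ θ • Z | x ∉ interior (θ • Z)}` = the frontier of `θ • Z`, compact. For `x ∈ S` one has
`x ∉ Z` (as `θ > 1`: `Z ⊆ interior (θ • Z)`: `z = θ • (θ⁻¹ z)`, and `θ⁻¹ z = θ⁻¹ z + (1 - θ⁻¹) 0` is an interior point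
of `Z` because `0` is (`Convex.combo_interior_self_mem_interior`-type lemma)). By `geometric_hahn_banach_closed_point`
(or `RCLike` version) there is `f` with `⟪f, z⟫ < 1 < ⟪f, x⟫` for `z ∈ Z` after scaling (the separating
value is positive as `0 ∈ Z`), so `f ∈ pol Z` (note `⟪z, f⟫ ≤ 1`). The open sets `{x | 1 < ⟪f, x⟫}` cover
`S`; choose a finite subcover `F ⊆ pol Z`. If `x ∉ θ • Z` then `x = μ x'` with `μ > 1`, `x' ∈ S`
(`μ = gauge (θ • Z) x > 1`, `x' = μ⁻¹ x`; the gauge of `x'` is `1`), so `⟪f, x⟫ = μ ⟪f, x'⟫ > 1` for some `f ∈ F`.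
`exists_params`: for `x ∈ Z`, `f ∈ F ⊆ pol Z`: `|⟪f, x⟫| ≤ 1` (`Z` symmetric), so
`Qf F p (θ⁻¹ x) ≤ |F| θ^(-2p)`, which is `≤ (log θ)/2` for `p` large, and `(e/2) ‖θ⁻¹ x‖² ≤ (e/2) R² ≤ (log θ)/2`
for `e` small.
-/

set_option autoImplicit false

open MeasureTheory Set
open scoped InnerProductSpace ENNReal Pointwise

namespace Pool.Agent.MP5e7226.HL

variable {n : ℕ}

theorem exists_finset {Z : Set (E n)} (h : SB Z) {θ : ℝ} (hθ : 1 < θ) :
    ∃ F : Finset (E n), (∀ f ∈ F, f ∈ pol Z) ∧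
      ∀ x : E n, (∀ f ∈ F, |⟪f, x⟫_ℝ| ≤ 1) → x ∈ θ • Z := by
  classical
  have hθ0 : (0 : ℝ) < θ := by linarith
  have hZ0 : Z ∈ nhds (0 : E n) := mem_interior_iff_mem_nhds.1 h.int
  have hcl : IsClosed Z := h.comp.isClosed
  have h0Z : (0 : E n) ∈ Z := interior_subset h.int
  have hg : ∀ x : E n, gauge Z x ≤ 1 ↔ x ∈ Z := by
    intro x
    rw [gauge_le_one_iff_mem_closure h.conv hZ0, hcl.closure_eq]
  have hgs : ∀ (c : ℝ) (x : E n), 0 ≤ c → gauge Z (c • x) = c * gauge Z x := by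
    intro c x hc
    rw [gauge_smul_of_nonneg hc, smul_eq_mul]
  have hmem : ∀ x : E n, gauge Z x ≤ θ → x ∈ θ • Z := by
    intro x hx
    refine ⟨θ⁻¹ • x, ?_, ?_⟩
    · rw [← hg, hgs _ _ (by positivity)]
      rw [inv_mul_le_iff₀ hθ0]
      linarith
    · simp only [smul_smul]
      rw [mul_inv_cancel₀ hθ0.ne', one_smul]
  set S : Set (E n) := {x | gauge Z x = θ} with hS
  have hScl : IsClosed S := isClosed_eq (continuous_gauge h.conv hZ0) continuous_const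
  have hSsub : S ⊆ θ • Z := fun x hx => hmem x (le_of_eq hx)
  have hScomp : IsCompact S := (h.comp.smul θ).of_isClosed_subset hScl hSsub
  have hsep : ∀ x ∈ S, ∃ f : E n, f ∈ pol Z ∧ 1 < ⟪f, x⟫_ℝ := by
    intro x hx
    have hxZ : x ∉ Z := by
      intro hxZ
      have := (hg x).2 hxZ
      have h2 : gauge Z x = θ := hx
      linarith
    obtain ⟨f, u, h1, h2⟩ := geometric_hahn_banach_closed_point h.conv hcl hxZ
    have hu : 0 < u := by
      have := h1 0 h0Z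
      simpa using this
    refine ⟨u⁻¹ • (InnerProductSpace.toDual ℝ (E n)).symm f, ?_, ?_⟩
    · intro z hz
      rw [real_inner_comm, real_inner_smul_left, InnerProductSpace.toDual_symm_apply]
      rw [inv_mul_le_iff₀ hu]
      have := h1 z hz
      linarith
    · rw [real_inner_smul_left, InnerProductSpace.toDual_symm_apply]
      rw [lt_inv_mul_iff₀ hu]
      linarith
  choose! g hg1 hg2 using hsep
  obtain ⟨t, ht1, ht2⟩ := hScomp.elim_nhds_subcover (fun x => {y | 1 < ⟪g x, y⟫_ℝ}) (by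
    intro x hx
    refine IsOpen.mem_nhds ?_ (hg2 x hx)
    exact isOpen_lt continuous_const (continuous_const.inner continuous_id))
  refine ⟨t.image g, ?_, ?_⟩
  · intro f hf
    obtain ⟨x, hx, rfl⟩ := Finset.mem_image.1 hf
    exact hg1 x (ht1 x hx)
  · intro x hx
    by_contra hcon
    have hgx : θ < gauge Z x := by
      by_contra hle
      exact hcon (hmem x (not_lt.1 hle))
    have hgx0 : 0 < gauge Z x := hθ0.trans hgx
    have hx' : (θ / gauge Z x) • x ∈ S := by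
      change gauge Z _ = θ
      rw [hgs _ _ (by positivity)]
      field_simp
    obtain ⟨y, hy⟩ := mem_iUnion.1 (ht2 hx')
    obtain ⟨hyt, hy2⟩ := mem_iUnion.1 hy
    have hy3 : 1 < ⟪g y, (θ / gauge Z x) • x⟫_ℝ := hy2
    rw [real_inner_smul_right] at hy3
    have h5 := hx (g y) (Finset.mem_image_of_mem g hyt)
    have h6 : ⟪g y, x⟫_ℝ ≤ 1 := (le_abs_self _).trans h5
    have h7 : θ / gauge Z x < 1 := by rwa [div_lt_one hgx0]
    have h8 : 0 < θ / gauge Z x := by positivity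
    nlinarith

theorem exists_params {Z : Set (E n)} (h : SB Z) {θ : ℝ} (hθ : 1 < θ) (F : Finset (E n))
    (hF : ∀ f ∈ F, f ∈ pol Z) :
    ∃ p : ℕ, ∃ e : ℝ, 1 ≤ p ∧ n ≤ 2 * p ∧ 0 < e ∧ ∀ x ∈ Z, ph F p e (θ⁻¹ • x) ≤ Real.log θ := by
  have hθ0 : (0 : ℝ) < θ := by linarith
  have hlog : 0 < Real.log θ := Real.log_pos hθ
  have hinv1 : θ⁻¹ < 1 := inv_lt_one_of_one_lt₀ hθ
  have hinv0 : 0 < θ⁻¹ := inv_pos.2 hθ0
  obtain ⟨R, hR⟩ := h.comp.isBounded.exists_norm_le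
  have hr1 : θ⁻¹ ^ 2 < 1 := by nlinarith
  have hr0 : 0 ≤ θ⁻¹ ^ 2 := by positivity
  obtain ⟨m, hm⟩ := exists_pow_lt_of_lt_one
    (show 0 < Real.log θ / 2 / ((F.card : ℝ) + 1) by positivity) hr1
  refine ⟨m + n + 1, Real.log θ / (R ^ 2 + 1), by omega, by omega, by positivity, ?_⟩
  intro x hx
  have habs : ∀ f ∈ F, |⟪f, x⟫_ℝ| ≤ 1 := by
    intro f hf
    have h1 := hF f hf x hx
    have h2 := hF f hf (-x) (h.neg x hx)
    rw [inner_neg_left] at h2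
    rw [real_inner_comm, abs_le]
    constructor <;> linarith
  have hQ : Qf F (m + n + 1) (θ⁻¹ • x) ≤ Real.log θ / 2 := by
    have h1 : ∀ f ∈ F, ⟪f, θ⁻¹ • x⟫_ℝ ^ (2 * (m + n + 1)) ≤ (θ⁻¹ ^ 2) ^ m := by
      intro f hf
      rw [real_inner_smul_right, pow_mul]
      have h2 : (θ⁻¹ * ⟪f, x⟫_ℝ) ^ 2 ≤ θ⁻¹ ^ 2 := by
        rw [mul_pow]
        have h3 : ⟪f, x⟫_ℝ ^ 2 ≤ 1 := by
          rw [← sq_abs]
          have := habs f hf
          have h4 := abs_nonneg ⟪f, x⟫_ℝ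
          nlinarith
        nlinarith
      calc ((θ⁻¹ * ⟪f, x⟫_ℝ) ^ 2) ^ (m + n + 1) ≤ (θ⁻¹ ^ 2) ^ (m + n + 1) :=
            pow_le_pow_left₀ (by positivity) h2 _
        _ ≤ (θ⁻¹ ^ 2) ^ m := pow_le_pow_of_le_one hr0 hr1.le (by omega)
    calc Qf F (m + n + 1) (θ⁻¹ • x) ≤ ∑ f ∈ F, (θ⁻¹ ^ 2) ^ m := Finset.sum_le_sum h1
      _ = F.card * (θ⁻¹ ^ 2) ^ m := by rw [Finset.sum_const, nsmul_eq_mul]
      _ ≤ ((F.card : ℝ) + 1) * (Real.log θ / 2 / ((F.card : ℝ) + 1)) := by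
          refine mul_le_mul (by linarith) hm.le (by positivity) (by positivity)
      _ = Real.log θ / 2 := by field_simp
  have hN : Real.log θ / (R ^ 2 + 1) / 2 * ‖θ⁻¹ • x‖ ^ 2 ≤ Real.log θ / 2 := by
    have h1 : ‖θ⁻¹ • x‖ ^ 2 ≤ R ^ 2 + 1 := by
      rw [norm_smul, Real.norm_of_nonneg hinv0.le, mul_pow]
      have h2 := hR x hx
      have h3 := norm_nonneg x
      have h4 : ‖x‖ ^ 2 ≤ R ^ 2 := by nlinarith
      nlinarith [sq_nonneg ‖x‖]
    have h5 : Real.log θ / (R ^ 2 + 1) / 2 * ‖θ⁻¹ • x‖ ^ 2 ≤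
        Real.log θ / (R ^ 2 + 1) / 2 * (R ^ 2 + 1) :=
      mul_le_mul_of_nonneg_left h1 (by positivity)
    have h6 : Real.log θ / (R ^ 2 + 1) / 2 * (R ^ 2 + 1) = Real.log θ / 2 := by field_simp
    linarith
  unfold ph
  linarith

end Pool.Agent.MP5e7226.HL
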