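import Mathlib
import Pool.Agent.Lib.MP_5e7226_co.HL.B7
import Pool.Agent.Lib.MP_5e7226_co.HL.B8
import Pool.Agent.Lib.MP_5e7226_co.HL.B9
import Pool.Agent.Lib.MP_5e7226_co.HL.B10

/-!
Task HL B11: `π^n / n! ≤ vol Z * vol (pol Z)`.

PROOF. Fix `θ > 1`, `F`, `p`, `e` as in B9. Apply `cov_ineq` to
`G (u, v) = ofReal (exp (-ph u)) * ofReal (exp (-ps θ Z v))`: the right side is the product of the two
integrals (`lintegral_prod_mul`, measurable functions: `hN` is continuous), so it is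
`≤ θ^n volume Z * θ^(n+1) n! volume (pol Z)`. By `young` the left side is at least
`∫⁻ q, ofReal (4^-n det (..) exp(-(1/2)(⟪a, gp a⟫ + ⟪b, gp b⟫))) ≥ 4^-n (4π)^n = π^n` (`berndtsson`).
So `π^n ≤ θ^(2n+1) n! vol Z vol (pol Z)` for every `θ > 1`; let `θ → 1` (`ge_of_tendsto`, continuity in
`θ`, `nhdsWithin`).
-/

set_option autoImplicit false

open MeasureTheory Set
open scoped InnerProductSpace ENNReal Pointwise Nat

namespace Pool.Agent.MP5e7226.HL

variable {n : ℕ}

theorem bm_theta {Z : Set (E n)} (h : SB Z) {θ : ℝ} (hθ : 1 < θ) :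
    Real.pi ^ n ≤ θ ^ (2 * n + 1) * (n ! * (vol Z * vol (pol Z))) := by
  obtain ⟨F, hF1, hF2⟩ := exists_finset h hθ
  obtain ⟨p, e, hp, hn, he, H⟩ := exists_params h hθ F hF1
  have hθ0 : 0 < θ := by linarith
  have hph : Continuous (ph F p e) := by
    unfold ph Qf
    fun_prop
  have hps : Continuous (ps θ Z) := by
    unfold ps
    have := h.continuous_hN
    fun_prop
  have h1 := berndtsson F hp he
  have h2 := cov_ineq F hp he (fun q : E n × E n =>
    ENNReal.ofReal (Real.exp (-ph F p e q.1)) * ENNReal.ofReal (Real.exp (-ps θ Z q.2)))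
  have h3 : ∫⁻ q : E n × E n, ENNReal.ofReal (Real.exp (-ph F p e q.1)) *
      ENNReal.ofReal (Real.exp (-ps θ Z q.2)) =
      (∫⁻ x, ENNReal.ofReal (Real.exp (-ph F p e x))) *
        ∫⁻ v, ENNReal.ofReal (Real.exp (-ps θ Z v)) := by
    rw [Measure.volume_eq_prod]
    have m1 : AEMeasurable (fun x : E n => ENNReal.ofReal (Real.exp (-ph F p e x))) volume :=
      (ENNReal.continuous_ofReal.comp
        (Real.continuous_exp.comp hph.neg)).measurable.aemeasurable
    have m2 : AEMeasurable (fun x : E n => ENNReal.ofReal (Real.exp (-ps θ Z x))) volume :=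
      (ENNReal.continuous_ofReal.comp
        (Real.continuous_exp.comp hps.neg)).measurable.aemeasurable
    exact lintegral_prod_mul m1 m2
  rw [h3] at h2
  have h4 : ENNReal.ofReal ((1 / 4 : ℝ) ^ n) * ∫⁻ q : E n × E n, ENNReal.ofReal
      (Real.exp (-(1 / 2) * (⟪q.1, gp F p e q.1⟫_ℝ + ⟪q.2, gp F p e q.2⟫_ℝ)) *
        (Hp F p e q.1 + Hp F p e q.2).det) ≤
      ∫⁻ q : E n × E n, ENNReal.ofReal ((1 / 4 : ℝ) ^ n * (Hp F p e q.1 + Hp F p e q.2).det) *
        (ENNReal.ofReal (Real.exp (-ph F p e (cv F p e q).1)) *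
          ENNReal.ofReal (Real.exp (-ps θ Z (cv F p e q).2))) := by
    rw [← lintegral_const_mul' _ _ ENNReal.ofReal_ne_top]
    refine lintegral_mono fun q => ?_
    have hd := (det_pos F hp he q.1 q.2).le
    have h4n : (0 : ℝ) ≤ (1 / 4) ^ n := by positivity
    rw [← ENNReal.ofReal_mul h4n, ← ENNReal.ofReal_mul (Real.exp_pos _).le,
      ← ENNReal.ofReal_mul (mul_nonneg h4n hd), ← Real.exp_add]
    refine ENNReal.ofReal_le_ofReal ?_
    have h5 := young h F hp he.le hθ H q.1 q.2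
    have h6 : Real.exp (-(1 / 2) * (⟪q.1, gp F p e q.1⟫_ℝ + ⟪q.2, gp F p e q.2⟫_ℝ)) ≤
        Real.exp (-ph F p e (cv F p e q).1 + -ps θ Z (cv F p e q).2) := by
      refine Real.exp_le_exp.2 ?_
      unfold cv
      linarith
    calc _ = ((1 / 4 : ℝ) ^ n * (Hp F p e q.1 + Hp F p e q.2).det) *
          Real.exp (-(1 / 2) * (⟪q.1, gp F p e q.1⟫_ℝ + ⟪q.2, gp F p e q.2⟫_ℝ)) := by ring
      _ ≤ _ := mul_le_mul_of_nonneg_left h6 (mul_nonneg h4n hd)
  have h7 : ENNReal.ofReal (Real.pi ^ n) ≤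
      (ENNReal.ofReal (θ ^ n) * volume Z) *
        (ENNReal.ofReal (θ ^ (n + 1) * n !) * volume (pol Z)) := by
    calc ENNReal.ofReal (Real.pi ^ n)
        = ENNReal.ofReal ((1 / 4 : ℝ) ^ n) * ENNReal.ofReal ((4 * Real.pi) ^ n) := by
          rw [← ENNReal.ofReal_mul (by positivity), ← mul_pow]
          congr 2
          ring
      _ ≤ ENNReal.ofReal ((1 / 4 : ℝ) ^ n) * _ := by gcongr
      _ ≤ _ := h4
      _ ≤ _ := h2
      _ ≤ _ := by
          refine mul_le_mul' ?_ ?_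
          · exact lintegral_ph h hθ F hF2 hp hn he.le
          · exact lintegral_ps h hθ
  have hz : volume Z = ENNReal.ofReal (vol Z) :=
    (ENNReal.ofReal_toReal h.volume_lt_top.ne).symm
  have hz' : volume (pol Z) = ENNReal.ofReal (vol (pol Z)) :=
    (ENNReal.ofReal_toReal h.polar.volume_lt_top.ne).symm
  have hv := vol_nonneg Z
  have hv' := vol_nonneg (pol Z)
  rw [hz, hz', ← ENNReal.ofReal_mul (by positivity), ← ENNReal.ofReal_mul (by positivity),
    ← ENNReal.ofReal_mul (by positivity), ENNReal.ofReal_le_ofReal_iff (by positivity)] at h7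
  calc Real.pi ^ n ≤ _ := h7
    _ = _ := by ring

theorem bourgain_milman {Z : Set (E n)} (h : SB Z) :
    Real.pi ^ n / n ! ≤ vol Z * vol (pol Z) := by
  have hn : (0 : ℝ) < n ! := by exact_mod_cast Nat.factorial_pos n
  rw [div_le_iff₀' hn]
  have h1 : Filter.Tendsto (fun θ : ℝ => θ ^ (2 * n + 1) * (n ! * (vol Z * vol (pol Z))))
      (nhdsWithin 1 (Ioi 1)) (nhds ((1 : ℝ) ^ (2 * n + 1) * (n ! * (vol Z * vol (pol Z))))) := by
    refine Filter.Tendsto.mono_left ?_ nhdsWithin_le_nhds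
    exact ((continuous_pow (2 * n + 1)).mul continuous_const).tendsto 1
  rw [one_pow, one_mul] at h1
  refine ge_of_tendsto h1 ?_
  filter_upwards [self_mem_nhdsWithin] with θ hθ
  exact bm_theta h hθ

end Pool.Agent.MP5e7226.HL
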