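import Mathlib
import Pool.Agent.Lib.MP_5e7226_co.HL.A1

/-!
Task HL C1: nets on the unit sphere `{hN K = 1}`.

PROOF. See `Pool/Agent/ZN/Net.lean` in the live repository (the same proof for another norm; you may
copy). `card_sep`: the sets `{y | hN K (y - x) < δ/2}`, `x ∈ S`, are pairwise disjoint, have volume
`(δ/2)^n volume (pol K)` (`volume_hN_lt`), and are contained in `{y | hN K (y - 0) < 1 + δ/2}`.
`exists_net`: a separated set of maximal cardinality (`Nat.findGreatest`).
-/

set_option autoImplicit false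

open MeasureTheory Set
open scoped InnerProductSpace ENNReal Pointwise

namespace Pool.Agent.MP5e7226.HL

variable {n : ℕ} {K : Set (E n)}

theorem card_sep (h : SB K) {δ : ℝ} (hδ : 0 < δ) {S : Finset (E n)} (hS : ∀ x ∈ S, hN K x = 1)
    (hsep : ∀ x ∈ S, ∀ y ∈ S, x ≠ y → δ ≤ hN K (x - y)) : (S.card : ℝ) ≤ (1 + 2 / δ) ^ n := by
  classical
  have hopen : ∀ (a : E n) (c : ℝ), IsOpen {y | hN K (y - a) < c} := fun a c =>
    isOpen_lt (h.continuous_hN.comp (continuous_id.sub continuous_const)) continuous_const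
  have hv0 : volume (pol K) ≠ 0 := h.polar.volume_pos.ne'
  have hvtop : volume (pol K) ≠ ⊤ := h.polar.volume_lt_top.ne
  have hdisj : (↑S : Set (E n)).PairwiseDisjoint fun a => {y | hN K (y - a) < δ / 2} := by
    intro a ha b hb hab
    rw [Function.onFun, Set.disjoint_left]
    intro y hya hyb
    have h1 : hN K (y - a) < δ / 2 := hya
    have h2 : hN K (y - b) < δ / 2 := hyb
    have h3 := hsep a ha b hb hab
    have h4 := h.hN_sub_le (y - b) (y - a)
    rw [sub_sub_sub_cancel_left] at h4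
    linarith
  have hunion := measure_biUnion_finset (μ := volume) hdisj
    fun a _ => (hopen a (δ / 2)).measurableSet
  have heach : ∀ a ∈ S, volume {y | hN K (y - a) < δ / 2} =
      ENNReal.ofReal ((δ / 2) ^ n) * volume (pol K) := fun a _ =>
    h.volume_hN_lt a (by positivity)
  rw [Finset.sum_congr rfl heach, Finset.sum_const, nsmul_eq_mul] at hunion
  have hsub : (⋃ a ∈ S, {y | hN K (y - a) < δ / 2}) ⊆ {y | hN K (y - 0) < 1 + δ / 2} := by
    intro y hy
    simp only [mem_iUnion] at hy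
    obtain ⟨a, ha, hy⟩ := hy
    have h1 : hN K (y - a) < δ / 2 := hy
    have h2 := h.hN_add_le a (y - a)
    rw [hS a ha, add_sub_cancel] at h2
    show hN K (y - 0) < 1 + δ / 2
    rw [sub_zero]
    linarith
  have hle := measure_mono (μ := volume) hsub
  rw [hunion, h.volume_hN_lt 0 (by positivity : 0 < 1 + δ / 2), ← mul_assoc] at hle
  have hle2 := (ENNReal.mul_le_mul_iff_left hv0 hvtop).mp hle
  have hle3 : (S.card : ℝ) * (δ / 2) ^ n ≤ (1 + δ / 2) ^ n := by
    have h1 : ((S.card : ENNReal) * ENNReal.ofReal ((δ / 2) ^ n)).toReal ≤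
        (ENNReal.ofReal ((1 + δ / 2) ^ n)).toReal :=
      ENNReal.toReal_mono ENNReal.ofReal_ne_top hle2
    rw [ENNReal.toReal_mul, ENNReal.toReal_natCast, ENNReal.toReal_ofReal (by positivity),
      ENNReal.toReal_ofReal (by positivity)] at h1
    exact h1
  have hpow : 0 < (δ / 2) ^ n := by positivity
  rw [← le_div_iff₀ hpow, ← div_pow] at hle3
  refine hle3.trans (le_of_eq ?_)
  congr 1
  field_simp
  ring

theorem exists_net (h : SB K) {δ : ℝ} (hδ : 0 < δ) :
    ∃ S : Finset (E n), (∀ x ∈ S, hN K x = 1) ∧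
      (∀ x ∈ S, ∀ y ∈ S, x ≠ y → δ ≤ hN K (x - y)) ∧
      (∀ x, hN K x = 1 → ∃ y ∈ S, hN K (x - y) < δ) ∧ (S.card : ℝ) ≤ (1 + 2 / δ) ^ n := by
  classical
  let P : ℕ → Prop := fun m => ∃ S : Finset (E n), S.card = m ∧ (∀ y ∈ S, hN K y = 1) ∧
    ∀ x ∈ S, ∀ y ∈ S, x ≠ y → δ ≤ hN K (x - y)
  have hP0 : P 0 := ⟨∅, by simp, by simp, by simp⟩
  have hPb : ∀ m, P m → m ≤ ⌊(1 + 2 / δ) ^ n⌋₊ := by
    rintro m ⟨S, rfl, hS1, hS2⟩
    exact Nat.le_floor (card_sep h hδ hS1 hS2)
  have hmax := Nat.findGreatest_spec (P := P) (Nat.zero_le ⌊(1 + 2 / δ) ^ n⌋₊) hP0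
  obtain ⟨S, hSc, hS1, hS2⟩ := hmax
  refine ⟨S, hS1, hS2, fun x hx => ?_, card_sep h hδ hS1 hS2⟩
  by_contra hcon
  push Not at hcon
  have hxS : x ∉ S := by
    intro hxS
    have h1 := hcon x hxS
    rw [sub_self, h.hN_zero] at h1
    linarith
  have hPs : P (S.card + 1) := by
    refine ⟨insert x S, Finset.card_insert_of_notMem hxS, ?_, ?_⟩
    · intro y hy
      rcases Finset.mem_insert.mp hy with rfl | hy
      · exact hx
      · exact hS1 y hy
    · intro a ha b hb hab
      rcases Finset.mem_insert.mp ha with ha1 | ha1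
      · rcases Finset.mem_insert.mp hb with hb1 | hb1
        · exact absurd (ha1.trans hb1.symm) hab
        · rw [ha1]
          exact hcon b hb1
      · rcases Finset.mem_insert.mp hb with hb1 | hb1
        · have h1 := hcon a ha1
          rw [← h.hN_neg, neg_sub] at h1
          rw [hb1]
          exact h1
        · exact hS2 a ha1 b hb1 hab
  have h1 := Nat.le_findGreatest (P := P) (hPb _ hPs) hPs
  omega

end Pool.Agent.MP5e7226.HL
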