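import Mathlib

/-!
Task HL C2: derandomised choice of `m` points.

PROOF. Prove by induction on `m` the weighted form: for all weights `w x ≥ 0` there are `b : Fin m → Ω` with
`∑_{x ∈ S, ∀ i, b i ∉ C x} w x ≤ ∑_{x ∈ S} w x (1 - p x)^m`. `m = 0`: trivial. Step: let
`w' x = w x (1 - p x)^m`. `∫ ω, ∑_{x ∈ S, ω ∉ C x} w' x dμ = ∑_{x ∈ S} w' x (1 - μ (C x)) ≤ ∑_{x ∈ S} w' x (1 - p x)`, so there
is `b₀` with `∑_{x ∈ S, b₀ ∉ C x} w' x ≤ ∑ w' x (1 - p x) = ∑ w x (1 - p x)^(m+1)` (`exists_le_integral`-type lemma for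
probability measures: `MeasureTheory.exists_le_integral`). Apply the induction hypothesis to the
finset `{x ∈ S | b₀ ∉ C x}` and use `Fin.cons b₀ b`. At the end `w = 1`.
-/

set_option autoImplicit false

open MeasureTheory Set

namespace Pool.Agent.MP5e7226.HL

open scoped Classical in
private theorem C2_wt {Ω α : Type*} [MeasurableSpace Ω] (μ : Measure Ω) [IsProbabilityMeasure μ]
    (C : α → Set Ω) (p w : α → ℝ) (m : ℕ) :
    ∀ S : Finset α, (∀ x ∈ S, MeasurableSet (C x)) → (∀ x ∈ S, p x ≤ (μ (C x)).toReal) →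
      (∀ x ∈ S, 0 ≤ w x) →
      ∃ b : Fin m → Ω, ∑ x ∈ S.filter (fun x => ∀ i, b i ∉ C x), w x ≤
        ∑ x ∈ S, w x * (1 - p x) ^ m := by
  induction m with
  | zero =>
    intro S hC hp hw
    refine ⟨Fin.elim0, ?_⟩
    have h1 : S.filter (fun x => ∀ i : Fin 0, (Fin.elim0 i : Ω) ∉ C x) = S :=
      Finset.filter_true_of_mem fun x _ i => i.elim0
    simp only [pow_zero, mul_one]
    exact Finset.sum_le_sum_of_subset_of_nonneg (Finset.filter_subset _ _)
      fun x hx _ => hw x hx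
  | succ m ih =>
    intro S hC hp hw
    have hp1 : ∀ x ∈ S, 0 ≤ 1 - p x := by
      intro x hx
      have h1 : (μ (C x)).toReal ≤ 1 := by
        have := measureReal_le_one (μ := μ) (s := C x)
        exact this
      linarith [hp x hx]
    have hint : ∀ x ∈ S, Integrable
        ((C x)ᶜ.indicator (fun _ : Ω => w x * (1 - p x) ^ m)) μ := fun x hx =>
      (integrable_const _).indicator (hC x hx).compl
    obtain ⟨b0, hb0⟩ := exists_le_integral (μ := μ)
      (f := fun ω => ∑ x ∈ S, (C x)ᶜ.indicator (fun _ : Ω => w x * (1 - p x) ^ m) ω)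
      (integrable_finsetSum S hint)
    rw [integral_finsetSum S hint] at hb0
    have h2 : ∑ x ∈ S, ∫ ω, (C x)ᶜ.indicator (fun _ : Ω => w x * (1 - p x) ^ m) ω ∂μ ≤
        ∑ x ∈ S, w x * (1 - p x) ^ (m + 1) := by
      refine Finset.sum_le_sum fun x hx => ?_
      rw [integral_indicator_const _ (hC x hx).compl, probReal_compl_eq_one_sub (hC x hx),
        smul_eq_mul, mul_comm (1 - μ.real (C x)) _, pow_succ, ← mul_assoc]
      refine mul_le_mul_of_nonneg_left ?_ (mul_nonneg (hw x hx) (pow_nonneg (hp1 x hx) m))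
      have h3 : p x ≤ μ.real (C x) := hp x hx
      linarith
    obtain ⟨b, hb⟩ := ih (S.filter fun x => b0 ∉ C x)
      (fun x hx => hC x (Finset.mem_filter.1 hx).1)
      (fun x hx => hp x (Finset.mem_filter.1 hx).1)
      (fun x hx => hw x (Finset.mem_filter.1 hx).1)
    refine ⟨Fin.cons b0 b, ?_⟩
    have h4 : S.filter (fun x => ∀ i, (Fin.cons b0 b : Fin (m + 1) → Ω) i ∉ C x) =
        (S.filter fun x => b0 ∉ C x).filter fun x => ∀ i, b i ∉ C x := by
      ext x
      simp only [Finset.mem_filter, Fin.forall_fin_succ, Fin.cons_zero, Fin.cons_succ, and_assoc]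
    have h5 : ∑ x ∈ S.filter (fun x => b0 ∉ C x), w x * (1 - p x) ^ m =
        ∑ x ∈ S, (C x)ᶜ.indicator (fun _ : Ω => w x * (1 - p x) ^ m) b0 := by
      rw [Finset.sum_filter]
      refine Finset.sum_congr rfl fun x _ => ?_
      rw [Set.indicator_apply]
      rfl
    rw [h4]
    calc _ ≤ _ := hb
      _ = _ := h5
      _ ≤ _ := hb0
      _ ≤ _ := h2

open scoped Classical in
theorem derand {Ω α : Type*} [MeasurableSpace Ω] (μ : Measure Ω) [IsProbabilityMeasure μ]
    (S : Finset α) (C : α → Set Ω) (hC : ∀ x ∈ S, MeasurableSet (C x)) (p : α → ℝ)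
    (hp0 : ∀ x ∈ S, 0 ≤ p x) (hp : ∀ x ∈ S, p x ≤ (μ (C x)).toReal) (m : ℕ) :
    ∃ b : Fin m → Ω, ((S.filter fun x => ∀ i, b i ∉ C x).card : ℝ) ≤ ∑ x ∈ S, (1 - p x) ^ m := by
  obtain ⟨b, hb⟩ := C2_wt μ C p (fun _ => 1) m S hC hp (fun _ _ => zero_le_one)
  refine ⟨b, ?_⟩
  simp only [Finset.sum_const, nsmul_eq_mul, mul_one, one_mul] at hb
  exact hb

end Pool.Agent.MP5e7226.HL
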