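import Mathlib

/-!
Task HL C3: the sum over the levels.

PROOF. Put `κ_j = n / 2^j`. Let `J ≥ 1` be maximal with `2^J ≤ 2 n`, so `n / 2^J < 1`, and `J ≤ n` (as `2^J ≤ 2 n ≤ 2^n`
for `n ≥ 1`). Split `S` into
 (J)  `g x^(2^J) ≤ 2^n`: at most `4 (1024 * 257)^n` points (`256 n/2^J ≤ 256`), each contributes at most `exp(-14 n)`;
      `263168 exp(-14) ≤ 1/4`, so the sum is `≤ 1`.
 (j), `1 ≤ j < J`: `g x^(2^j) ≤ 2^n < g x^(2^(j+1))`: `κ = n/2^j ≥ 1`, `g x > 1 + κ/3`, at most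
      `4 (1024 (1 + 256 κ))^n` points. Sum `≤ 4 (1/4)^n ≤ 1`.
 (0)  `2^n < g x^2`: at most `(1 + 64 n)^n` points, each contributes `≤ exp(-14 n (1 + n/3))`. Sum `≤ 1`.
There are `J + 1 ≤ n + 1 ≤ n 2^n` groups.
-/

set_option autoImplicit false

open Set

namespace Pool.Agent.MP5e7226.HL

theorem C3_exp14 : (1052672 : ℝ) ≤ Real.exp 14 := by
  have h1 : (2.7 : ℝ) ≤ Real.exp 1 := by
    have := Real.exp_one_gt_d9
    linarith
  have h2 : Real.exp 14 = Real.exp 1 ^ 14 := by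
    rw [← Real.exp_nat_mul]
    norm_num
  rw [h2]
  calc (1052672 : ℝ) ≤ 2.7 ^ 14 := by norm_num
    _ ≤ Real.exp 1 ^ 14 := pow_le_pow_left₀ (by norm_num) h1 14

theorem C3_exp14' : (263168 : ℝ) * Real.exp (-14) ≤ 1 / 4 := by
  rw [Real.exp_neg, ← div_eq_mul_inv, div_le_iff₀ (Real.exp_pos _)]
  linarith [C3_exp14]

/-- `1024 (1 + 256 κ) exp(-14 - 14 κ/3) ≤ 1/4` for `κ ≥ 1` -/
theorem C3_num {κ : ℝ} (hκ : 1 ≤ κ) :
    1024 * (1 + 256 * κ) * Real.exp (-14 - 14 * κ / 3) ≤ 1 / 4 := by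
  have h1 : κ ≤ Real.exp (κ - 1) := by
    have := Real.add_one_le_exp (κ - 1)
    linarith
  have h2 : Real.exp (-14 - 14 * κ / 3) = Real.exp (-14) * Real.exp (-(14 * κ / 3)) := by
    rw [← Real.exp_add]
    congr 1
  have h3 : κ * Real.exp (-(14 * κ / 3)) ≤ 1 := by
    calc κ * Real.exp (-(14 * κ / 3)) ≤ Real.exp (κ - 1) * Real.exp (-(14 * κ / 3)) :=
          mul_le_mul_of_nonneg_right h1 (Real.exp_pos _).le
      _ = Real.exp (κ - 1 - 14 * κ / 3) := by
          rw [← Real.exp_add]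
          congr 1
      _ ≤ 1 := by
          rw [Real.exp_le_one_iff]
          linarith
  calc 1024 * (1 + 256 * κ) * Real.exp (-14 - 14 * κ / 3)
      ≤ 1024 * (257 * κ) * Real.exp (-14 - 14 * κ / 3) := by
        apply mul_le_mul_of_nonneg_right _ (Real.exp_pos _).le
        linarith
    _ = 263168 * Real.exp (-14) * (κ * Real.exp (-(14 * κ / 3))) := by
        rw [h2]
        ring
    _ ≤ 263168 * Real.exp (-14) * 1 := by
        apply mul_le_mul_of_nonneg_left h3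
        positivity
    _ ≤ 1 / 4 := by
        rw [mul_one]
        exact C3_exp14'

theorem C3_pow4 {n : ℕ} (hn : 1 ≤ n) {a : ℝ} (ha0 : 0 ≤ a) (ha : a ≤ 1 / 4) : 4 * a ^ n ≤ 1 := by
  have h1 : a ^ n ≤ (1 / 4 : ℝ) ^ n := pow_le_pow_left₀ ha0 ha n
  have h2 : (1 / 4 : ℝ) ^ n ≤ (1 / 4 : ℝ) ^ 1 :=
    pow_le_pow_of_le_one (by norm_num) (by norm_num) hn
  rw [pow_one] at h2
  linarith

/-- `g > 1 + n / (3 2^j)` if `g ^ (2^(j+1)) > 2^n` -/
theorem C3_lower {n j : ℕ} {g : ℝ} (hg : 1 ≤ g) (h : (2 : ℝ) ^ n < g ^ (2 ^ (j + 1))) :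
    1 + (n / 2 ^ j : ℝ) / 3 ≤ g := by
  by_contra hcon
  push Not at hcon
  apply absurd h
  rw [not_lt]
  have hκ : (0 : ℝ) ≤ (n / 2 ^ j : ℝ) / 3 := by positivity
  have h1 : g ^ (2 ^ (j + 1)) ≤ (Real.exp ((n / 2 ^ j : ℝ) / 3)) ^ (2 ^ (j + 1)) := by
    apply pow_le_pow_left₀ (by linarith)
    have := Real.add_one_le_exp ((n / 2 ^ j : ℝ) / 3)
    linarith
  have h2 : (Real.exp ((n / 2 ^ j : ℝ) / 3)) ^ (2 ^ (j + 1)) = Real.exp (2 * n / 3) := by
    rw [← Real.exp_nat_mul]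
    congr 1
    push_cast
    rw [pow_succ]
    field_simp
  have h3 : Real.exp (2 * n / 3) ≤ 2 ^ n := by
    have h4 : (2 : ℝ) ^ n = Real.exp (n * Real.log 2) := by
      rw [Real.exp_nat_mul, Real.exp_log (by norm_num)]
    rw [h4, Real.exp_le_exp]
    have h5 := Real.log_two_gt_d9
    have hn : (0 : ℝ) ≤ n := Nat.cast_nonneg n
    nlinarith
  rw [h2] at h1
  linarith

open scoped Classical in
theorem level_sum {α : Type*} {n : ℕ} (hn : 1 ≤ n) (S : Finset α) (g : α → ℝ) (hg : ∀ x ∈ S, 1 ≤ g x)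
    (hS : (S.card : ℝ) ≤ (1 + 64 * n) ^ n)
    (hc : ∀ j : ℕ, 1 ≤ j → 2 ^ j ≤ 2 * n →
      ((S.filter fun x => g x ^ (2 ^ j) ≤ 2 ^ n).card : ℝ) ≤
        4 * 1024 ^ n * (1 + 256 * (n / 2 ^ j)) ^ n) :
    ∑ x ∈ S, Real.exp (-(14 * n * g x)) ≤ n * 2 ^ n := by
  have hn1 : (1 : ℝ) ≤ n := by exact_mod_cast hn
  have hn0 : (0 : ℝ) < n := by linarith
  set F : ℕ → Finset α := fun j => S.filter fun x => g x ^ (2 ^ j) ≤ 2 ^ n with hF
  set a : ℕ → ℝ := fun j => ∑ x ∈ F j, Real.exp (-(14 * n * g x)) with ha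
  -- a general estimate
  have hgen : ∀ (T : Finset α) (κ B : ℝ), 0 ≤ B → (∀ x ∈ T, 1 + κ / 3 ≤ g x) → (T.card : ℝ) ≤ 4 * B ^ n →
      B * Real.exp (-14 - 14 * κ / 3) ≤ 1 / 4 → ∑ x ∈ T, Real.exp (-(14 * n * g x)) ≤ 1 := by
    intro T κ B hB hT hcard hnum
    have h1 : ∑ x ∈ T, Real.exp (-(14 * n * g x)) ≤
        ∑ _x ∈ T, Real.exp (-14 - 14 * κ / 3) ^ n := by
      apply Finset.sum_le_sum
      intro x hx
      rw [← Real.exp_nat_mul, Real.exp_le_exp]
      have h2 := mul_le_mul_of_nonneg_left (hT x hx) (by positivity : (0 : ℝ) ≤ 14 * n)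
      have e : (n : ℝ) * (-14 - 14 * κ / 3) = -(14 * n * (1 + κ / 3)) := by ring
      rw [e]
      linarith
    rw [Finset.sum_const, nsmul_eq_mul] at h1
    have hE : 0 ≤ Real.exp (-14 - 14 * κ / 3) := (Real.exp_pos _).le
    calc ∑ x ∈ T, Real.exp (-(14 * n * g x)) ≤ T.card * Real.exp (-14 - 14 * κ / 3) ^ n := h1
      _ ≤ 4 * B ^ n * Real.exp (-14 - 14 * κ / 3) ^ n :=
          mul_le_mul_of_nonneg_right hcard (by positivity)
      _ = 4 * (B * Real.exp (-14 - 14 * κ / 3)) ^ n := by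
          rw [mul_pow]
          ring
      _ ≤ 1 := C3_pow4 hn (by positivity) hnum
  set J : ℕ := Nat.log 2 (2 * n) with hJ
  have hJle : 2 ^ J ≤ 2 * n := Nat.pow_log_le_self 2 (by omega)
  have hJlt : 2 * n < 2 ^ (J + 1) := Nat.lt_pow_succ_log_self (by norm_num) _
  have hJ1 : 1 ≤ J := by
    rw [hJ]
    have : 2 ^ 1 ≤ 2 * n := by omega
    exact (Nat.le_log_iff_pow_le (by norm_num) (by omega)).2 this
  have hJn : J ≤ n := by
    have h1 : 2 * n ≤ 2 ^ n := by
      obtain ⟨m, rfl⟩ : ∃ m, n = m + 1 := ⟨n - 1, by omega⟩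
      have := Nat.lt_two_pow_self (n := m)
      rw [pow_succ]
      omega
    exact (Nat.pow_le_pow_iff_right (by norm_num)).1 (hJle.trans h1)
  -- the last level
  have haJ : a J ≤ 1 := by
    apply hgen (F J) 0 (1024 * 257) (by norm_num)
    · intro x hx
      have := hg x (Finset.mem_filter.1 hx).1
      linarith
    · refine (hc J hJ1 hJle).trans ?_
      rw [mul_assoc, ← mul_pow]
      apply mul_le_mul_of_nonneg_left _ (by norm_num)
      apply pow_le_pow_left₀ (by positivity)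
      have h2 : (n / 2 ^ J : ℝ) ≤ 1 := by
        rw [div_le_one (by positivity)]
        have h3 : n ≤ 2 ^ J := by
          rw [pow_succ] at hJlt
          omega
        exact_mod_cast h3
      linarith
    · have e : (-14 - 14 * (0 : ℝ) / 3) = -14 := by norm_num
      rw [e]
      have := C3_exp14'
      linarith
  -- a step
  have hmono : ∀ j, F (j + 1) ⊆ F j := by
    intro j x hx
    have hx' := Finset.mem_filter.1 hx
    refine Finset.mem_filter.2 ⟨hx'.1, le_trans ?_ hx'.2⟩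
    apply pow_le_pow_right₀ (hg x hx'.1)
    rw [pow_succ]
    omega
  have hstep : ∀ j, 1 ≤ j → j + 1 ≤ J → a j ≤ a (j + 1) + 1 := by
    intro j hj hjJ
    have hjn : 2 ^ j ≤ n := by
      have h1 : 2 ^ (j + 1) ≤ 2 ^ J := Nat.pow_le_pow_right (by norm_num) hjJ
      rw [pow_succ] at h1
      omega
    have hκ : (1 : ℝ) ≤ (n / 2 ^ j : ℝ) := by
      rw [one_le_div (by positivity)]
      exact_mod_cast hjn
    have h1 : a j = ∑ x ∈ F j \ F (j + 1), Real.exp (-(14 * n * g x)) + a (j + 1) := by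
      rw [ha]
      exact (Finset.sum_sdiff (hmono j)).symm
    have h2 : ∑ x ∈ F j \ F (j + 1), Real.exp (-(14 * n * g x)) ≤ 1 := by
      apply hgen _ (n / 2 ^ j : ℝ) (1024 * (1 + 256 * (n / 2 ^ j))) (by positivity)
      · intro x hx
        rw [Finset.mem_sdiff] at hx
        have hxS := (Finset.mem_filter.1 hx.1).1
        apply C3_lower (hg x hxS)
        by_contra hcon
        push Not at hcon
        exact hx.2 (Finset.mem_filter.2 ⟨hxS, hcon⟩)
      · have h3 : ((F j \ F (j + 1)).card : ℝ) ≤ ((F j).card : ℝ) := by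
          exact_mod_cast Finset.card_le_card Finset.sdiff_subset
        refine h3.trans ((hc j hj (by omega)).trans ?_)
        rw [mul_assoc, ← mul_pow]
      · exact C3_num hκ
    linarith
  have hind : ∀ i, i + 1 ≤ J → a (J - i) ≤ i + 1 := by
    intro i
    induction i with
    | zero =>
      intro _
      simpa using haJ
    | succ i ih =>
      intro hi
      have h1 := ih (by omega)
      have h2 := hstep (J - (i + 1)) (by omega) (by omega)
      have e : J - (i + 1) + 1 = J - i := by omega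
      rw [e] at h2
      push_cast
      linarith
  have ha1 : a 1 ≤ J := by
    have h1 := hind (J - 1) (by omega)
    have e : J - (J - 1) = 1 := by omega
    rw [e] at h1
    have e2 : ((J - 1 : ℕ) : ℝ) + 1 = J := by
      have : J - 1 + 1 = J := by omega
      exact_mod_cast this
    rwa [e2] at h1
  -- outside of the first level
  have h0 : ∑ x ∈ S \ F 1, Real.exp (-(14 * n * g x)) ≤ 1 := by
    have hcard : ((S \ F 1).card : ℝ) ≤ 4 * (1 + 64 * n : ℝ) ^ n := by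
      have h3 : ((S \ F 1).card : ℝ) ≤ (S.card : ℝ) := by
        exact_mod_cast Finset.card_le_card Finset.sdiff_subset
      have h4 : (0 : ℝ) ≤ (1 + 64 * n : ℝ) ^ n := by positivity
      linarith
    apply hgen _ (n : ℝ) (1 + 64 * n) (by positivity) _ hcard
    · have h1 := C3_num hn1
      have h2 : (1 + 64 * n : ℝ) * Real.exp (-14 - 14 * n / 3) ≤
          1024 * (1 + 256 * n) * Real.exp (-14 - 14 * n / 3) := by
        apply mul_le_mul_of_nonneg_right _ (Real.exp_pos _).le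
        nlinarith
      linarith
    · intro x hx
      rw [Finset.mem_sdiff] at hx
      have h5 : (2 : ℝ) ^ n < g x ^ (2 ^ (0 + 1)) := by
        by_contra hcon
        push Not at hcon
        exact hx.2 (Finset.mem_filter.2 ⟨hx.1, hcon⟩)
      have h6 := C3_lower (hg x hx.1) h5
      simpa using h6
  have htot : ∑ x ∈ S, Real.exp (-(14 * n * g x)) =
      ∑ x ∈ S \ F 1, Real.exp (-(14 * n * g x)) + a 1 := by
    rw [ha]
    exact (Finset.sum_sdiff (Finset.filter_subset _ _)).symm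
  have hJn' : (J : ℝ) ≤ n := by exact_mod_cast hJn
  have hfin : (n : ℝ) + 1 ≤ n * 2 ^ n := by
    have h1 : (2 : ℝ) ≤ 2 ^ n := by
      calc (2 : ℝ) = 2 ^ 1 := by norm_num
        _ ≤ 2 ^ n := pow_le_pow_right₀ (by norm_num) hn
    nlinarith
  linarith

end Pool.Agent.MP5e7226.HL
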