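import Mathlib
import Pool.Agent.Lib.MP_5e7226_co.HL.A1

/-!
Task HL G1: the inclusion `(1 - r/2) L + (r/2) M_x ⊆ A_x`, and the hitting set.
-/

set_option autoImplicit false

open MeasureTheory Set
open scoped InnerProductSpace ENNReal Pointwise

namespace Pool.Agent.MP5e7226.HL

variable {n : ℕ} {K : Set (E n)}

theorem G1_half (h : SB K) {x : E n} (hx : hN K x = 1) {r : ℝ} (hr : 0 < r) (hr1 : r ≤ 1) {l z : E n}
    (hl : l ∈ pol K) (hz : z ∈ Mx K x r) :
    hN K ((1 - r / 2) • l + (r / 2) • z + x) ≤ 2 := by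
  obtain ⟨f₀, hf₀, hf₀x⟩ := h.exists_hN x
  rw [hx] at hf₀x
  rw [h.hN_le_iff]
  intro f hf
  have hfl : ⟪f, l⟫_ℝ ≤ 1 := hl f hf
  have hfx : ⟪f, x⟫_ℝ ≤ 1 := hx ▸ h.le_hN hf x
  rw [inner_add_right, inner_add_right, inner_smul_right, inner_smul_right]
  by_cases hs : 1 - ⟪f, x⟫_ℝ ≤ r
  · have hfz : ⟪f, z⟫_ℝ ≤ 1 := (abs_le.1 (hz f ⟨hf, by linarith⟩)).2
    have h1 : (1 - r / 2) * ⟪f, l⟫_ℝ ≤ (1 - r / 2) * 1 :=
      mul_le_mul_of_nonneg_left hfl (by linarith)
    have h2 : r / 2 * ⟪f, z⟫_ℝ ≤ r / 2 * 1 := mul_le_mul_of_nonneg_left hfz (by linarith)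
    linarith
  · push Not at hs
    set s : ℝ := 1 - ⟪f, x⟫_ℝ with hsdef
    have hs0 : 0 < s := hr.trans hs
    have hrs : r / s ≤ 1 := (div_le_one hs0).2 hs.le
    have hrs0 : 0 < r / s := by positivity
    have hf'K : (1 - r / s) • f₀ + (r / s) • f ∈ K :=
      h.conv hf₀ hf (by linarith) hrs0.le (by ring)
    have hf'x : ⟪(1 - r / s) • f₀ + (r / s) • f, x⟫_ℝ = 1 - r := by
      rw [inner_add_left, inner_smul_left, inner_smul_left, conj_trivial, conj_trivial, hf₀x]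
      have e : ⟪f, x⟫_ℝ = 1 - s := by rw [hsdef]; ring
      rw [e]
      field_simp
      ring
    have hf'z : ⟪(1 - r / s) • f₀ + (r / s) • f, z⟫_ℝ ≤ 1 :=
      (abs_le.1 (hz _ ⟨hf'K, hf'x.ge⟩)).2
    have hf₀z : -1 ≤ ⟪f₀, z⟫_ℝ := (abs_le.1 (hz f₀ ⟨hf₀, by linarith⟩)).1
    rw [inner_add_left, inner_smul_left, inner_smul_left, conj_trivial, conj_trivial] at hf'z
    have h3 : (1 - r / s) * (-1) ≤ (1 - r / s) * ⟪f₀, z⟫_ℝ :=
      mul_le_mul_of_nonneg_left hf₀z (by linarith)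
    have h4 : r / s * ⟪f, z⟫_ℝ ≤ 2 - r / s := by linarith
    have h5 : ⟪f, z⟫_ℝ ≤ 2 * s / r - 1 := by
      have h6 : s / r * (r / s * ⟪f, z⟫_ℝ) ≤ s / r * (2 - r / s) :=
        mul_le_mul_of_nonneg_left h4 (by positivity)
      have e1 : s / r * (r / s * ⟪f, z⟫_ℝ) = ⟪f, z⟫_ℝ := by field_simp
      have e2 : s / r * (2 - r / s) = 2 * s / r - 1 := by field_simp
      rwa [e1, e2] at h6
    have h1 : (1 - r / 2) * ⟪f, l⟫_ℝ ≤ (1 - r / 2) * 1 :=
      mul_le_mul_of_nonneg_left hfl (by linarith)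
    have h2 : r / 2 * ⟪f, z⟫_ℝ ≤ r / 2 * (2 * s / r - 1) :=
      mul_le_mul_of_nonneg_left h5 (by linarith)
    have e3 : r / 2 * (2 * s / r - 1) = s - r / 2 := by field_simp
    have e4 : ⟪f, x⟫_ℝ = 1 - s := by rw [hsdef]; ring
    rw [e4]
    linarith

theorem incl (h : SB K) {x : E n} (hx : hN K x = 1) {r : ℝ} (hr : 0 < r) (hr1 : r ≤ 1) {l z : E n}
    (hl : l ∈ pol K) (hz : z ∈ Mx K x r) : (1 - r / 2) • l + (r / 2) • z ∈ Ax K x := by
  refine ⟨G1_half h hx hr hr1 hl hz, ?_⟩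
  have hl' : -l ∈ pol K := h.polar.neg l hl
  have hz' : -z ∈ Mx K x r := by
    intro f hf
    rw [inner_neg_right, abs_neg]
    exact hz f hf
  have h1 := G1_half h hx hr hr1 hl' hz'
  have e : (1 - r / 2) • l + (r / 2) • z - x = -((1 - r / 2) • (-l) + (r / 2) • (-z) + x) := by
    rw [smul_neg, smul_neg]
    abel
  rw [e, h.hN_neg]
  exact h1

theorem isCompact_Ax (h : SB K) (x : E n) : IsCompact (Ax K x) := by
  have hcl : IsClosed (Ax K x) := by
    have h1 : IsClosed {y : E n | hN K (y + x) ≤ 2} :=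
      isClosed_le (h.continuous_hN.comp (continuous_id.add continuous_const)) continuous_const
    have h2 : IsClosed {y : E n | hN K (y - x) ≤ 2} :=
      isClosed_le (h.continuous_hN.comp (continuous_id.sub continuous_const)) continuous_const
    exact h1.inter h2
  obtain ⟨c, hc, hlow⟩ := h.exists_lower
  refine Metric.isCompact_of_isClosed_isBounded hcl ?_
  refine (Metric.isBounded_closedBall (x := (0 : E n)) (r := 2 / c)).subset fun y hy => ?_
  rw [mem_closedBall_zero_iff, le_div_iff₀ hc]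
  have h1 : hN K ((2 : ℝ) • y) ≤ 2 + 2 := by
    have e : (2 : ℝ) • y = (y + x) + (y - x) := by
      rw [two_smul]
      abel
    rw [e]
    exact (h.hN_add_le _ _).trans (add_le_add hy.1 hy.2)
  rw [h.hN_smul, abs_of_pos (by norm_num : (0 : ℝ) < 2)] at h1
  linarith [hlow y, mul_comm c ‖y‖]

theorem pol_subset_Ax (h : SB K) {x : E n} (hx : hN K x = 1) : pol K ⊆ Ax K x := by
  intro y hy
  have h1 := h.mem_pol.1 hy
  constructor
  · linarith [h.hN_add_le y x]
  · linarith [h.hN_sub_le y x]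

theorem hit (h : SB K) {x : E n} (hx : hN K x = 1) {η : ℝ} (h0 : 0 < η) (h1 : η < 1 / 2) :
    ENNReal.ofReal (((1 - 2 * η) / 2) ^ n) * volume (Ax K x) ≤
      volume {b | hN K b ≤ 1 ∧ hN K (x - b) ≤ 1 - η} := by
  set c : ℝ := (1 - 2 * η) / 2 with hc
  have hc0 : 0 < c := by rw [hc]; linarith
  have hsub : (fun v => (1 / 2 : ℝ) • x + v) '' (c • Ax K x) ⊆
      {b | hN K b ≤ 1 ∧ hN K (x - b) ≤ 1 - η} := by
    rintro _ ⟨_, ⟨y, hy, rfl⟩, rfl⟩
    have e1 : (1 / 2 : ℝ) • x + c • y = c • (y + x) + η • x := by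
      rw [smul_add]
      have : c • x + η • x = (1 / 2 : ℝ) • x := by
        rw [← add_smul]
        congr 1
        rw [hc]; ring
      rw [add_assoc, this, add_comm]
    have e2 : x - ((1 / 2 : ℝ) • x + c • y) = η • x - c • (y - x) := by
      rw [smul_sub]
      have : x = (1 / 2 : ℝ) • x + (η • x + c • x) := by
        rw [← add_smul, ← add_smul]
        have : (1 / 2 : ℝ) + (η + c) = 1 := by rw [hc]; ring
        rw [this, one_smul]
      calc x - ((1 / 2 : ℝ) • x + c • y) =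
          ((1 / 2 : ℝ) • x + (η • x + c • x)) - ((1 / 2 : ℝ) • x + c • y) := by rw [← this]
        _ = _ := by abel
    constructor
    · show hN K ((1 / 2 : ℝ) • x + c • y) ≤ 1
      rw [e1]
      refine (h.hN_add_le _ _).trans ?_
      rw [h.hN_smul, h.hN_smul, abs_of_pos hc0, abs_of_pos h0, hx]
      have h2 : c * hN K (y + x) ≤ c * 2 := mul_le_mul_of_nonneg_left hy.1 hc0.le
      rw [hc] at h2 ⊢
      linarith
    · show hN K (x - ((1 / 2 : ℝ) • x + c • y)) ≤ 1 - η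
      rw [e2]
      refine (h.hN_sub_le _ _).trans ?_
      rw [h.hN_smul, h.hN_smul, abs_of_pos hc0, abs_of_pos h0, hx]
      have h2 : c * hN K (y - x) ≤ c * 2 := mul_le_mul_of_nonneg_left hy.2 hc0.le
      rw [hc] at h2 ⊢
      linarith
  refine le_trans ?_ (measure_mono hsub)
  rw [Set.image_add_left, measure_preimage_add, Measure.addHaar_smul]
  simp only [finrank_euclideanSpace, Fintype.card_fin]
  rw [abs_of_pos (by positivity)]

end Pool.Agent.MP5e7226.HL
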