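import Mathlib
import Pool.Agent.Lib.MP_5e7226_co.HL.A2
import Pool.Agent.Lib.MP_5e7226_co.HL.G1

/-!
Task HL G2: caps, the body `Z_x` and its polar `M_x`.

PROOFS. `interior_cap`: `f₀ ∈ K` with `⟪f₀, x⟫ = 1`, a ball `B(0, c) ⊆ K`; for small `t > 0` the ball
`B((1 - t) f₀, t c)` is contained in `K` (convexity) and there `⟪·, x⟫ ≥ (1 - t) - t c ‖x‖ > 1 - r`.
`SB_Zx`: convex: `t a - (1-t) b` and `t' a' - (1-t') b'`: combine the positive and the negative parts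
separately, the cap is convex (cases when a coefficient is zero; `convexJoin` of the convex sets `cap`
and `-cap` may help: `Convex.convexJoin`, `mem_convexJoin`). Compact: the image of the compact set
`Icc 0 1 ×ˢ cap ×ˢ cap`. Symmetric: `t ↦ 1 - t`. Interior: contains the cap, which has an interior point
`q`, and contains `-q` in the interior, so `0` is interior (`SB.of_volume` of A1 with volume `≥` the
volume of the interior of the cap).
`pol_Zx`: `⟪t a - (1-t) b, y⟫ = t ⟪a, y⟫ - (1-t) ⟪b, y⟫`; take `t = 1`, `t = 0`.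
`vol_Mx`: `bm_iter j` with `L = pol K`, `M = Mx K x r`, `r = 2 (1/2)^j`; the image is contained in `Ax K x` by
`incl` (`r/2 = (1/2)^j`, `1 ≤ j` gives `r ≤ 1`). So `volume L^(2^j - 1) volume M ≤ volume (Ax)^(2^j) ≤
2^n volume L^(2^j)`; divide by `volume L^(2^j - 1)` (positive, finite).
-/

set_option autoImplicit false

open MeasureTheory Set
open scoped InnerProductSpace ENNReal Pointwise

namespace Pool.Agent.MP5e7226.HL

variable {n : ℕ} {K : Set (E n)}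

theorem convex_cap (h : SB K) (x : E n) (r : ℝ) : Convex ℝ (cap K x r) := by
  intro a ha b hb s t hs ht hst
  refine ⟨h.conv ha.1 hb.1 hs ht hst, ?_⟩
  rw [inner_add_left, real_inner_smul_left, real_inner_smul_left]
  have h1 := mul_le_mul_of_nonneg_left ha.2 hs
  have h2 := mul_le_mul_of_nonneg_left hb.2 ht
  have h3 : s * (1 - r) + t * (1 - r) = 1 - r := by rw [← add_mul, hst, one_mul]
  linarith

theorem isCompact_cap (h : SB K) (x : E n) (r : ℝ) : IsCompact (cap K x r) := by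
  have h1 : cap K x r = K ∩ {f | 1 - r ≤ ⟪f, x⟫_ℝ} := rfl
  rw [h1]
  exact h.comp.inter_right (isClosed_le continuous_const (by fun_prop))

theorem interior_cap (h : SB K) {x : E n} (hx : hN K x = 1) {r : ℝ} (hr : 0 < r) :
    (interior (cap K x r)).Nonempty := by
  obtain ⟨f₀, hf, hf1⟩ := h.exists_hN x
  rw [hx] at hf1
  obtain ⟨c, hc, hcK⟩ := Metric.mem_nhds_iff.1 (mem_interior_iff_mem_nhds.1 h.int)
  obtain ⟨t, ht⟩ : ∃ t : ℝ, t = min (1 / 2) (r / (1 + c * ‖x‖)) := ⟨_, rfl⟩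
  have hden : 0 < 1 + c * ‖x‖ := by positivity
  have ht0 : 0 < t := by
    rw [ht]
    exact lt_min (by norm_num) (by positivity)
  have ht1 : t ≤ 1 / 2 := by
    rw [ht]
    exact min_le_left _ _
  have ht2 : t * (1 + c * ‖x‖) ≤ r := by
    rw [ht]
    have h1 : min (1 / 2) (r / (1 + c * ‖x‖)) ≤ r / (1 + c * ‖x‖) := min_le_right _ _
    exact (le_div_iff₀ hden).1 h1
  refine ⟨(1 - t) • f₀, mem_interior.2 ⟨Metric.ball ((1 - t) • f₀) (t * c), ?_,
    Metric.isOpen_ball, Metric.mem_ball_self (by positivity)⟩⟩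
  intro y hy
  obtain ⟨w, hw⟩ : ∃ w : E n, w = t⁻¹ • (y - (1 - t) • f₀) := ⟨_, rfl⟩
  have hyw : y = (1 - t) • f₀ + t • w := by
    rw [hw, smul_smul, mul_inv_cancel₀ ht0.ne', one_smul]
    abel
  have hwn : ‖w‖ < c := by
    rw [hw, norm_smul, Real.norm_eq_abs, abs_of_pos (inv_pos.2 ht0)]
    rw [Metric.mem_ball, dist_eq_norm] at hy
    rw [inv_mul_lt_iff₀ ht0]
    exact hy
  have hwK : w ∈ K := hcK (by rwa [Metric.mem_ball, dist_zero_right])
  refine ⟨?_, ?_⟩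
  · rw [hyw]
    exact h.conv hf hwK (by linarith) ht0.le (by ring)
  · rw [hyw, inner_add_left, real_inner_smul_left, real_inner_smul_left, hf1]
    have h1 : |⟪w, x⟫_ℝ| ≤ ‖w‖ * ‖x‖ := abs_real_inner_le_norm w x
    have h2 : ‖w‖ * ‖x‖ ≤ c * ‖x‖ := mul_le_mul_of_nonneg_right hwn.le (norm_nonneg x)
    have h3 : -(c * ‖x‖) ≤ ⟪w, x⟫_ℝ := by
      have := neg_abs_le ⟪w, x⟫_ℝ
      linarith
    have h4 := mul_le_mul_of_nonneg_left h3 ht0.le
    linarith

theorem G2_cap_subset_Zx (K : Set (E n)) (x : E n) (r : ℝ) : cap K x r ⊆ Zx K x r := by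
  intro f hf
  exact ⟨1, ⟨zero_le_one, le_rfl⟩, f, hf, f, hf, by simp⟩

theorem G2_neg_mem_Zx {x : E n} {r : ℝ} {f : E n} (hf : f ∈ cap K x r) : -f ∈ Zx K x r :=
  ⟨0, ⟨le_rfl, zero_le_one⟩, f, hf, f, hf, by simp⟩

theorem SB_Zx (h : SB K) {x : E n} (hx : hN K x = 1) {r : ℝ} (hr : 0 < r) : SB (Zx K x r) := by
  have hc := convex_cap h x r
  refine SB.of_volume ?_ ?_ ?_ ?_
  · rintro f ⟨t, ht, a, ha, b, hb, rfl⟩ g ⟨t', ht', a', ha', b', hb', rfl⟩ s s' hs hs' hss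
    obtain ⟨A, hA, hAe⟩ := hc.exists_mem_add_smul_eq ha ha' (mul_nonneg hs ht.1)
      (mul_nonneg hs' ht'.1)
    obtain ⟨B, hB, hBe⟩ := hc.exists_mem_add_smul_eq hb hb'
      (mul_nonneg hs (sub_nonneg.2 ht.2)) (mul_nonneg hs' (sub_nonneg.2 ht'.2))
    have h1 : 1 - (s * t + s' * t') = s * (1 - t) + s' * (1 - t') := by
      have h2 : s * (1 - t) + s' * (1 - t') = (s + s') - (s * t + s' * t') := by ring
      rw [h2, hss]
    refine ⟨s * t + s' * t', ⟨?_, ?_⟩, A, hA, B, hB, ?_⟩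
    · exact add_nonneg (mul_nonneg hs ht.1) (mul_nonneg hs' ht'.1)
    · have h2 : 0 ≤ s * (1 - t) + s' * (1 - t') :=
        add_nonneg (mul_nonneg hs (sub_nonneg.2 ht.2)) (mul_nonneg hs' (sub_nonneg.2 ht'.2))
      linarith
    · rw [h1, hAe, hBe]
      module
  · have h1 : Zx K x r = (fun p : ℝ × E n × E n => p.1 • p.2.1 - (1 - p.1) • p.2.2) ''
        (Icc (0 : ℝ) 1 ×ˢ (cap K x r ×ˢ cap K x r)) := by
      ext f
      constructor
      · rintro ⟨t, ht, a, ha, b, hb, rfl⟩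
        exact ⟨(t, a, b), ⟨ht, ha, hb⟩, rfl⟩
      · rintro ⟨⟨t, a, b⟩, ⟨ht, ha, hb⟩, rfl⟩
        exact ⟨t, ht, a, ha, b, hb, rfl⟩
    rw [h1]
    have hk := isCompact_cap h x r
    exact (isCompact_Icc.prod (hk.prod hk)).image (by fun_prop)
  · rintro f ⟨t, ht, a, ha, b, hb, rfl⟩
    refine ⟨1 - t, ⟨by linarith [ht.2], by linarith [ht.1]⟩, b, hb, a, ha, ?_⟩
    module
  · have h1 : 0 < volume (interior (cap K x r)) :=
      isOpen_interior.measure_pos volume (interior_cap h hx hr)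
    exact (h1.trans_le (measure_mono (interior_subset.trans (G2_cap_subset_Zx K x r)))).ne'

theorem pol_Zx (K : Set (E n)) (x : E n) (r : ℝ) (hne : (cap K x r).Nonempty) :
    pol (Zx K x r) = Mx K x r := by
  ext y
  constructor
  · intro hy f hf
    have h1 := hy f (G2_cap_subset_Zx K x r hf)
    have h2 := hy (-f) (G2_neg_mem_Zx hf)
    rw [inner_neg_left] at h2
    exact abs_le.2 ⟨by linarith, h1⟩
  · rintro hy f ⟨t, ht, a, ha, b, hb, rfl⟩
    have h1 := (abs_le.1 (hy a ha)).2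
    have h2 := (abs_le.1 (hy b hb)).1
    rw [inner_sub_left, real_inner_smul_left, real_inner_smul_left]
    have h3 := mul_le_mul_of_nonneg_left h1 ht.1
    have h4 := mul_le_mul_of_nonneg_left h2 (sub_nonneg.2 ht.2)
    linarith

theorem SB_Mx (h : SB K) {x : E n} (hx : hN K x = 1) {r : ℝ} (hr : 0 < r) : SB (Mx K x r) := by
  rw [← pol_Zx K x r ((interior_cap h hx hr).mono interior_subset)]
  exact (SB_Zx h hx hr).polar

theorem vol_Mx (h : SB K) {x : E n} (hx : hN K x = 1) {j : ℕ} (hj : 1 ≤ j)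
    (hA : vol (Ax K x) ^ (2 ^ j) ≤ 2 ^ n * vol (pol K) ^ (2 ^ j)) :
    vol (Mx K x (2 * (1 / 2) ^ j)) ≤ 2 ^ n * vol (pol K) := by
  obtain ⟨r, hr⟩ : ∃ r : ℝ, r = 2 * (1 / 2) ^ j := ⟨_, rfl⟩
  have hr0 : 0 < r := by rw [hr]; positivity
  have hr2 : r / 2 = (1 / 2) ^ j := by rw [hr]; ring
  have hr1 : r ≤ 1 := by
    have h1 : (1 / 2 : ℝ) ^ j ≤ (1 / 2) ^ 1 :=
      pow_le_pow_of_le_one (by norm_num) (by norm_num) hj
    rw [hr]
    linarith
  rw [← hr]
  have hL := h.polar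
  have hM := SB_Mx h hx hr0
  have hAc := isCompact_Ax h x
  have h1 := bm_iter j hL.conv hL.comp hM.comp ⟨0, hL.zero_mem⟩
  have h2 : (fun p : E n × E n => (1 - (1 / 2 : ℝ) ^ j) • p.1 + ((1 / 2 : ℝ) ^ j) • p.2) ''
      (pol K ×ˢ Mx K x r) ⊆ Ax K x := by
    rintro y ⟨⟨l, z⟩, ⟨hl, hz⟩, rfl⟩
    have h3 := incl h hx hr0 hr1 hl hz
    rw [hr2] at h3
    exact h3
  have h3 : volume (pol K) ^ (2 ^ j - 1) * volume (Mx K x r) ≤ volume (Ax K x) ^ (2 ^ j) :=
    h1.trans (pow_le_pow_left' (measure_mono h2) _)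
  have h4 : vol (pol K) ^ (2 ^ j - 1) * vol (Mx K x r) ≤ vol (Ax K x) ^ (2 ^ j) := by
    have h5 := ENNReal.toReal_mono (ENNReal.pow_ne_top hAc.measure_lt_top.ne) h3
    rw [ENNReal.toReal_mul, ENNReal.toReal_pow, ENNReal.toReal_pow] at h5
    exact h5
  have h6 : 0 < vol (pol K) := hL.vol_pos
  have h7 : vol (pol K) ^ (2 ^ j) = vol (pol K) ^ (2 ^ j - 1) * vol (pol K) := by
    rw [← pow_succ, Nat.sub_add_cancel Nat.one_le_two_pow]
  have h8 : vol (pol K) ^ (2 ^ j - 1) * vol (Mx K x r) ≤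
      vol (pol K) ^ (2 ^ j - 1) * (2 ^ n * vol (pol K)) := by
    refine (h4.trans hA).trans (le_of_eq ?_)
    rw [h7]
    ring
  exact le_of_mul_le_mul_left h8 (pow_pos h6 _)

end Pool.Agent.MP5e7226.HL
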