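import Mathlib
import Pool.Agent.Lib.MP_5e7226_co.HL.G2

/-!
Task HL G3: the volume of the cap.

PROOFS. Let `A = A0 K x r` (the convex hull of the cap and `0`), `q = 1 - r`, `V = cap K x (2 r)`.
`A` is convex and compact, contains the cap (`t = 1`), so it has positive volume (`interior_cap`).
`Zx ⊆ A - A` (`t a - (1 - t) b`). So `volume Zx ≤ volume (A - A) ≤ 4^n volume A` (`diff_body`).
`A0_volume`: if `r = 1`: `A ⊆ cap K x 1 ⊆ cap K x 2` (`⟪t a, x⟫ = t ⟪a, x⟫ ≥ 0`, `t a ∈ K` since `0 ∈ K`). If `r < 1`: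
every `t a ≠ 0` with `a ∈ cap K x r`, `0 < t ≤ 1` lies in `q^i • V` for some `i`: choose `i` with
`q^(i+1) < t ≤ q^i`; then `c = t q^-i ∈ (q, 1]`, `c a ∈ K` and `⟪c a, x⟫ ≥ q (1 - r) = q² ≥ 1 - 2 r`. So
`volume A ≤ ∑' i, q^(i n) volume V = volume V / (1 - q^n) ≤ 2 volume V` as `q^n = (1 - r)^n ≤ exp(-r n) ≤
exp(-1) < 1/2` (geometric series in `ℝ≥0∞`: `ENNReal.tsum_geometric`; the point `0` has measure zero
because `n ≥ 1`, `measure_iUnion_le`).
-/

set_option autoImplicit false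

open MeasureTheory Set
open scoped InnerProductSpace ENNReal Pointwise

namespace Pool.Agent.MP5e7226.HL

variable {n : ℕ} {K : Set (E n)}

theorem convex_A0 (h : SB K) (x : E n) (r : ℝ) : Convex ℝ (A0 K x r) := by
  have hc := convex_cap h x r
  rintro f ⟨t, ht, a, ha, rfl⟩ g ⟨t', ht', a', ha', rfl⟩ s s' hs hs' hss
  obtain ⟨A, hA, hAe⟩ := hc.exists_mem_add_smul_eq ha ha' (mul_nonneg hs ht.1)
    (mul_nonneg hs' ht'.1)
  refine ⟨s * t + s' * t', ⟨add_nonneg (mul_nonneg hs ht.1) (mul_nonneg hs' ht'.1), ?_⟩,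
    A, hA, ?_⟩
  · have h1 : s * t ≤ s * 1 := mul_le_mul_of_nonneg_left ht.2 hs
    have h2 : s' * t' ≤ s' * 1 := mul_le_mul_of_nonneg_left ht'.2 hs'
    linarith
  · rw [hAe, smul_smul, smul_smul]

theorem isCompact_A0 (h : SB K) (x : E n) (r : ℝ) : IsCompact (A0 K x r) := by
  have h1 : A0 K x r = (fun p : ℝ × E n => p.1 • p.2) '' (Icc (0 : ℝ) 1 ×ˢ cap K x r) := by
    ext f
    constructor
    · rintro ⟨t, ht, a, ha, rfl⟩
      exact ⟨(t, a), ⟨ht, ha⟩, rfl⟩
    · rintro ⟨⟨t, a⟩, ⟨ht, ha⟩, rfl⟩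
      exact ⟨t, ht, a, ha, rfl⟩
  rw [h1]
  exact (isCompact_Icc.prod (isCompact_cap h x r)).image (by fun_prop)

theorem G3_pow_le {r : ℝ} (hr1 : r ≤ 1) (hrn : 1 ≤ r * n) : (1 - r) ^ n ≤ 1 / 2 := by
  have h1 : (1 - r) ^ n ≤ (Real.exp (-r)) ^ n :=
    pow_le_pow_left₀ (by linarith) (Real.one_sub_le_exp_neg r) n
  have h2 : (Real.exp (-r)) ^ n = Real.exp (-(r * n)) := by
    rw [← Real.exp_nat_mul]
    congr 1
    ring
  have h3 : Real.exp (-(r * n)) ≤ Real.exp (-1) := Real.exp_le_exp.2 (by linarith)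
  have h4 : Real.exp (-1) ≤ 1 / 2 := by
    rw [Real.exp_neg, one_div]
    refine inv_anti₀ (by norm_num) ?_
    have := Real.exp_one_gt_d9
    linarith
  rw [h2] at h1
  exact h1.trans (h3.trans h4)

theorem A0_volume (h : SB K) {x : E n} (hx : hN K x = 1) {r : ℝ} (hr : 0 < r) (hr1 : r ≤ 1)
    (hrn : 1 ≤ r * n) : volume (A0 K x r) ≤ 2 * volume (cap K x (2 * r)) := by
  have hn : n ≠ 0 := by
    rintro rfl
    rw [Nat.cast_zero, mul_zero] at hrn
    linarith
  rcases eq_or_lt_of_le hr1 with rfl | hlt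
  · have h1 : A0 K x 1 ⊆ cap K x (2 * 1) := by
      rintro f ⟨t, ht, a, ha, rfl⟩
      refine ⟨h.conv.smul_mem_of_zero_mem h.zero_mem ha.1 ht, ?_⟩
      have h2 := ha.2
      rw [sub_self] at h2
      rw [real_inner_smul_left]
      have h3 : 0 ≤ t * ⟪a, x⟫_ℝ := mul_nonneg ht.1 h2
      linarith
    refine (measure_mono h1).trans ?_
    exact le_mul_of_one_le_left zero_le one_le_two
  · obtain ⟨q, hq⟩ : ∃ q, q = 1 - r := ⟨_, rfl⟩
    have hq0 : 0 < q := by rw [hq]; linarith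
    have hq1 : q < 1 := by rw [hq]; linarith
    obtain ⟨V, hV⟩ : ∃ V, V = cap K x (2 * r) := ⟨_, rfl⟩
    rw [← hV]
    have h1 : A0 K x r ⊆ {0} ∪ ⋃ i : ℕ, q ^ i • V := by
      rintro f ⟨t, ht, a, ha, rfl⟩
      rcases eq_or_lt_of_le ht.1 with h0 | h0
      · left
        rw [← h0, zero_smul]
        exact rfl
      right
      obtain ⟨i, hi1, hi2⟩ := exists_nat_pow_near_of_lt_one h0 ht.2 hq0 hq1
      have hqi : 0 < q ^ i := pow_pos hq0 i
      obtain ⟨c, hc⟩ : ∃ c, c = t / q ^ i := ⟨_, rfl⟩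
      have hc1 : c ≤ 1 := by
        rw [hc]
        exact (div_le_one hqi).2 hi2
      have hcq : q ≤ c := by
        rw [hc, le_div_iff₀ hqi, ← pow_succ']
        exact hi1.le
      have hct : t = q ^ i * c := by
        rw [hc]
        field_simp
      refine mem_iUnion.2 ⟨i, c • a, ?_, ?_⟩
      · rw [hV]
        refine ⟨h.conv.smul_mem_of_zero_mem h.zero_mem ha.1 ⟨hq0.le.trans hcq, hc1⟩, ?_⟩
        rw [real_inner_smul_left]
        have h2 : q ≤ ⟪a, x⟫_ℝ := by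
          rw [hq]
          exact ha.2
        have h3 : q * q ≤ c * ⟪a, x⟫_ℝ := mul_le_mul hcq h2 hq0.le (hq0.le.trans hcq)
        have h4 : 1 - 2 * r ≤ q * q := by
          rw [hq]
          nlinarith [sq_nonneg r]
        exact h4.trans h3
      · show q ^ i • c • a = t • a
        rw [smul_smul, ← hct]
    have h2 : volume (⋃ i : ℕ, q ^ i • V) ≤ 2 * volume V := by
      refine (measure_iUnion_le _).trans ?_
      have h3 : ∀ i : ℕ, volume (q ^ i • V) = (ENNReal.ofReal (q ^ n)) ^ i * volume V := by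
        intro i
        rw [Measure.addHaar_smul, finrank_euclideanSpace, Fintype.card_fin]
        congr 1
        rw [← ENNReal.ofReal_pow (pow_nonneg hq0.le n), abs_of_pos (pow_pos (pow_pos hq0 i) n)]
        congr 1
        rw [← pow_mul, ← pow_mul, mul_comm]
      simp only [h3]
      rw [ENNReal.tsum_mul_right, ENNReal.tsum_geometric]
      refine mul_le_mul_left ?_ _
      have h4 : ENNReal.ofReal (q ^ n) ≤ 1 / 2 := by
        have h5 : q ^ n ≤ 1 / 2 := by
          rw [hq]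
          exact G3_pow_le hr1 hrn
        calc ENNReal.ofReal (q ^ n) ≤ ENNReal.ofReal (1 / 2) := ENNReal.ofReal_le_ofReal h5
          _ = 1 / 2 := by
            rw [ENNReal.ofReal_div_of_pos (by norm_num), ENNReal.ofReal_one,
              ENNReal.ofReal_ofNat]
      have h6 : (1 / 2 : ℝ≥0∞) ≤ 1 - ENNReal.ofReal (q ^ n) := by
        calc (1 / 2 : ℝ≥0∞) = 1 - 1 / 2 := by
              rw [one_div, ENNReal.one_sub_inv_two]
          _ ≤ 1 - ENNReal.ofReal (q ^ n) := tsub_le_tsub_left h4 1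
      calc (1 - ENNReal.ofReal (q ^ n))⁻¹ ≤ (1 / 2 : ℝ≥0∞)⁻¹ := ENNReal.inv_le_inv.2 h6
        _ = 2 := by rw [one_div, inv_inv]
    have h3 : volume ({0} : Set (E n)) = 0 := by
      have hnt : Nontrivial (E n) := by
        have h4 : Nonempty (Fin n) := ⟨⟨0, Nat.pos_of_ne_zero hn⟩⟩
        infer_instance
      exact measure_singleton _
    calc volume (A0 K x r) ≤ volume ({0} ∪ ⋃ i : ℕ, q ^ i • V) := measure_mono h1
      _ ≤ volume ({0} : Set (E n)) + volume (⋃ i : ℕ, q ^ i • V) := measure_union_le _ _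
      _ ≤ 2 * volume V := by rw [h3, zero_add]; exact h2

theorem Zx_volume (h : SB K) {x : E n} (hx : hN K x = 1) {r : ℝ} (hr : 0 < r) (hr1 : r ≤ 1)
    (hrn : 1 ≤ r * n) : vol (Zx K x r) ≤ 2 * 4 ^ n * vol (cap K x (2 * r)) := by
  have h1 : Zx K x r ⊆ A0 K x r - A0 K x r := by
    rintro f ⟨t, ht, a, ha, b, hb, rfl⟩
    exact Set.sub_mem_sub ⟨t, ht, a, ha, rfl⟩
      ⟨1 - t, ⟨by linarith [ht.2], by linarith [ht.1]⟩, b, hb, rfl⟩
  have h2 : volume (A0 K x r) ≠ 0 := by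
    have h3 : 0 < volume (interior (cap K x r)) :=
      isOpen_interior.measure_pos volume (interior_cap h hx hr)
    have h4 : cap K x r ⊆ A0 K x r := fun f hf =>
      ⟨1, ⟨zero_le_one, le_rfl⟩, f, hf, by rw [one_smul]⟩
    exact (h3.trans_le (measure_mono (interior_subset.trans h4))).ne'
  have h3 := diff_body (convex_A0 h x r) (isCompact_A0 h x r) h2
  have h4 : volume (Zx K x r) ≤ ENNReal.ofReal (4 ^ n) * (2 * volume (cap K x (2 * r))) :=
    ((measure_mono h1).trans h3).trans (mul_le_mul_right (A0_volume h hx hr hr1 hrn) _)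
  have h5 : volume (cap K x (2 * r)) ≠ ⊤ := (isCompact_cap h x (2 * r)).measure_lt_top.ne
  have h6 := ENNReal.toReal_mono
    (ENNReal.mul_ne_top ENNReal.ofReal_ne_top (ENNReal.mul_ne_top (by norm_num) h5)) h4
  rw [ENNReal.toReal_mul, ENNReal.toReal_mul, ENNReal.toReal_ofReal (by positivity),
    ENNReal.toReal_ofNat] at h6
  unfold vol
  linarith

end Pool.Agent.MP5e7226.HL
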