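import Mathlib
import Pool.Agent.Lib.MP_5e7226_co.HL.G2

/-!
Task HL G4: the sets `TT V f = {h | f + h ∈ V, f - h ∈ V}` and packing.

PROOFS. `lintegral_TT`: `∫⁻ f, volume (TT V f) = (volume × volume) {(f, h) | f + h ∈ V ∧ f - h ∈ V}`, the preimage
of `V ×ˢ V` under the linear map `(f, h) ↦ (f + h, f - h)`, whose determinant has absolute value `2^n`
(`Measure.addHaar_preimage_linearMap`, or in two steps: `(f, h) ↦ (f + h, h) = (u, h)` preserves the measure,
`f - h = u - 2 h`, and for fixed `u` the set `{h | u - 2 h ∈ V}` has volume `2^-n volume V`). So it is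
`2^-n volume V ^ 2`.
`TT_sub`: `h = (1/2)((f + h) + (-(f - h)))`. `TT_mem`: `f = (1/2)((f + h) + (f - h))`.
`SB_TT`: convex, compact (closed and contained in `K`), symmetric; `SB.of_volume`.
`hN_TT`: for `h ∈ TT K f`: `⟪f + h, x⟫ ≤ hN K x = 1`, so `⟪h, x⟫ ≤ 1 - ⟪f, x⟫ ≤ 2 r`.
`packing`: the sets `{y | hN K (y - x) < δ/2}`, `x ∈ X`, are pairwise disjoint, have the volume
`(δ/2)^n volume (pol K)` (`volume_hN_lt`) and are contained in `{y | hN T (y - 0) ≤ a + δ/2}`, because
`hN T ≤ hN K` (`T ⊆ K`): `hN T y ≤ hN T x + hN T (y - x)`.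
-/

set_option autoImplicit false

open MeasureTheory Set
open scoped InnerProductSpace ENNReal Pointwise

namespace Pool.Agent.MP5e7226.HL

variable {n : ℕ} {K : Set (E n)}

private theorem G4_closed {V : Set (E n)} (hV : IsCompact V) :
    IsClosed {p : E n × E n | p.1 + p.2 ∈ V ∧ p.1 - p.2 ∈ V} :=
  (hV.isClosed.preimage (continuous_fst.add continuous_snd)).inter
    (hV.isClosed.preimage (continuous_fst.sub continuous_snd))

theorem measurable_TT {V : Set (E n)} (hV : IsCompact V) : Measurable fun f => volume (TT V f) :=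
  measurable_measure_prodMk_left (ν := (volume : Measure (E n))) (G4_closed hV).measurableSet

private theorem G4_two {V : Set (E n)} (hV : IsCompact V) (u : E n) :
    ∫⁻ h : E n, V.indicator (1 : E n → ℝ≥0∞) (u - (2 : ℝ) • h) =
      ENNReal.ofReal ((1 / 2) ^ n) * volume V := by
  have hVm : MeasurableSet V := hV.isClosed.measurableSet
  have hW : MeasurableSet ((fun w : E n => u - w) ⁻¹' V) :=
    (hV.isClosed.preimage (continuous_const.sub continuous_id)).measurableSet
  have h1 : (fun h : E n => V.indicator (1 : E n → ℝ≥0∞) (u - (2 : ℝ) • h)) =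
      ((fun h : E n => (2 : ℝ) • h) ⁻¹' ((fun w : E n => u - w) ⁻¹' V)).indicator 1 := by
    funext h
    rfl
  have hW2 : MeasurableSet ((fun h : E n => (2 : ℝ) • h) ⁻¹' ((fun w : E n => u - w) ⁻¹' V)) :=
    (continuous_const_smul (2 : ℝ)).measurable hW
  have h2 : volume ((fun w : E n => u - w) ⁻¹' V) = volume V :=
    (Measure.measurePreserving_sub_left volume u).measure_preimage hVm.nullMeasurableSet
  rw [h1, lintegral_indicator_one hW2, Measure.addHaar_preimage_smul volume two_ne_zero, h2,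
    finrank_euclideanSpace_fin]
  congr 2
  rw [abs_of_pos (by positivity), one_div, inv_pow]

theorem lintegral_TT {V : Set (E n)} (hV : IsCompact V) :
    ∫⁻ f, volume (TT V f) = ENNReal.ofReal ((1 / 2) ^ n) * volume V ^ 2 := by
  have hVm : MeasurableSet V := hV.isClosed.measurableSet
  have hI : Measurable (V.indicator (1 : E n → ℝ≥0∞)) := measurable_one.indicator hVm
  have h1 : ∀ f, volume (TT V f) = ∫⁻ h : E n, V.indicator (1 : E n → ℝ≥0∞) (f + h) *
      V.indicator (1 : E n → ℝ≥0∞) (f - h) := by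
    intro f
    have hm : MeasurableSet (TT V f) :=
      ((hV.isClosed.preimage (continuous_const.add continuous_id)).inter
        (hV.isClosed.preimage (continuous_const.sub continuous_id))).measurableSet
    rw [← lintegral_indicator_one hm]
    refine lintegral_congr fun h => ?_
    by_cases ha : f + h ∈ V
    · by_cases hb : f - h ∈ V
      · rw [indicator_of_mem ha, indicator_of_mem hb, indicator_of_mem (show h ∈ TT V f from
          ⟨ha, hb⟩)]
        simp
      · rw [indicator_of_notMem hb, indicator_of_notMem (fun h2 : h ∈ TT V f => hb h2.2),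
          mul_zero]
    · rw [indicator_of_notMem ha, indicator_of_notMem (fun h2 : h ∈ TT V f => ha h2.1),
        zero_mul]
  have h2 : ∀ h : E n, ∫⁻ f : E n, V.indicator (1 : E n → ℝ≥0∞) (f + h) *
      V.indicator (1 : E n → ℝ≥0∞) (f - h) = ∫⁻ u : E n, V.indicator (1 : E n → ℝ≥0∞) u *
      V.indicator (1 : E n → ℝ≥0∞) (u - (2 : ℝ) • h) := by
    intro h
    rw [← lintegral_add_right_eq_self (μ := (volume : Measure (E n)))
      (fun u => V.indicator (1 : E n → ℝ≥0∞) u *
        V.indicator (1 : E n → ℝ≥0∞) (u - (2 : ℝ) • h)) h]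
    refine lintegral_congr fun f => ?_
    have h3 : f + h - (2 : ℝ) • h = f - h := by module
    rw [h3]
  simp_rw [h1]
  rw [lintegral_lintegral_swap]
  · simp_rw [h2]
    rw [lintegral_lintegral_swap]
    · have h4 : ∀ u : E n, ∫⁻ h : E n, V.indicator (1 : E n → ℝ≥0∞) u *
          V.indicator (1 : E n → ℝ≥0∞) (u - (2 : ℝ) • h) =
          V.indicator (1 : E n → ℝ≥0∞) u * (ENNReal.ofReal ((1 / 2) ^ n) * volume V) := by
        intro u
        have h5 : Measurable fun h : E n => V.indicator (1 : E n → ℝ≥0∞) (u - (2 : ℝ) • h) :=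
          hI.comp (by fun_prop)
        rw [lintegral_const_mul _ h5, G4_two hV u]
      simp_rw [h4]
      rw [lintegral_mul_const _ hI, lintegral_indicator_one hVm]
      ring
    · refine Measurable.aemeasurable ?_
      exact (hI.comp measurable_snd).mul (hI.comp (by fun_prop))
  · refine Measurable.aemeasurable ?_
    exact (hI.comp (by fun_prop)).mul (hI.comp (by fun_prop))

theorem TT_mono {V W : Set (E n)} (h : V ⊆ W) (f : E n) : TT V f ⊆ TT W f :=
  fun _ hx => ⟨h hx.1, h hx.2⟩

theorem TT_mem {V : Set (E n)} (hV : Convex ℝ V) {f : E n} (h : (TT V f).Nonempty) : f ∈ V := by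
  obtain ⟨k, h1, h2⟩ := h
  have h3 := hV h1 h2 (by norm_num : (0 : ℝ) ≤ 1 / 2) (by norm_num : (0 : ℝ) ≤ 1 / 2)
    (by norm_num)
  have h4 : (1 / 2 : ℝ) • (f + k) + (1 / 2 : ℝ) • (f - k) = f := by module
  rwa [h4] at h3

theorem TT_sub (h : SB K) (f : E n) : TT K f ⊆ K := by
  rintro k ⟨h1, h2⟩
  have h3 := h.conv h1 (h.neg _ h2) (by norm_num : (0 : ℝ) ≤ 1 / 2)
    (by norm_num : (0 : ℝ) ≤ 1 / 2) (by norm_num)
  have h4 : (1 / 2 : ℝ) • (f + k) + (1 / 2 : ℝ) • (-(f - k)) = k := by module
  rwa [h4] at h3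

theorem SB_TT (h : SB K) {f : E n} (hf : volume (TT K f) ≠ 0) : SB (TT K f) := by
  refine SB.of_volume ?_ ?_ ?_ hf
  · intro x hx y hy a b ha hb hab
    have hfe : f = a • f + b • f := by rw [← add_smul, hab, one_smul]
    constructor
    · have h1 := h.conv hx.1 hy.1 ha hb hab
      have h2 : a • (f + x) + b • (f + y) = f + (a • x + b • y) := by
        nth_rewrite 3 [hfe]
        module
      rwa [h2] at h1
    · have h1 := h.conv hx.2 hy.2 ha hb hab
      have h2 : a • (f - x) + b • (f - y) = f - (a • x + b • y) := by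
        nth_rewrite 3 [hfe]
        module
      rwa [h2] at h1
  · refine h.comp.of_isClosed_subset ?_ (TT_sub h f)
    exact (h.comp.isClosed.preimage (continuous_const.add continuous_id)).inter
      (h.comp.isClosed.preimage (continuous_const.sub continuous_id))
  · rintro x ⟨h1, h2⟩
    refine ⟨?_, ?_⟩
    · rw [← sub_eq_add_neg]
      exact h2
    · rw [sub_neg_eq_add]
      exact h1

theorem hN_TT (h : SB K) {f x : E n} (hf : volume (TT K f) ≠ 0) (hx : hN K x = 1) {r : ℝ}
    (hfx : f ∈ cap K x r) : hN (TT K f) x ≤ r := by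
  rw [(SB_TT h hf).hN_le_iff]
  rintro k ⟨h1, _⟩
  have h2 := h.le_hN h1 x
  rw [hx, inner_add_left] at h2
  have h3 := hfx.2
  linarith

theorem packing (h : SB K) {T : Set (E n)} (hT : SB T) (hTK : T ⊆ K) {X : Finset (E n)} {a δ : ℝ}
    (ha : 0 ≤ a) (hδ : 0 < δ) (hX : ∀ x ∈ X, hN T x ≤ a)
    (hsep : ∀ x ∈ X, ∀ y ∈ X, x ≠ y → δ ≤ hN K (x - y)) :
    (X.card : ℝ) * ((δ / 2) ^ n * vol (pol K)) ≤ (a + δ / 2) ^ n * vol (pol T) := by
  classical
  have hle : ∀ y, hN T y ≤ hN K y := fun y => hT.hN_le_iff.2 fun x hx => h.le_hN (hTK hx) y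
  have hδ2 : 0 < δ / 2 := by linarith
  have hB : ∀ x : E n, MeasurableSet {y | hN K (y - x) < δ / 2} := fun x =>
    (isOpen_lt (h.continuous_hN.comp (continuous_id.sub continuous_const))
      continuous_const).measurableSet
  have hdis : (X : Set (E n)).PairwiseDisjoint fun x => {y | hN K (y - x) < δ / 2} := by
    intro x hx y hy hxy
    refine Set.disjoint_left.2 fun z hz1 hz2 => ?_
    have h1 := hsep x hx y hy hxy
    have h2 : x - y = (z - y) - (z - x) := by abel
    rw [h2] at h1
    have h3 := h.hN_sub_le (z - y) (z - x)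
    have h4 : hN K (z - x) < δ / 2 := hz1
    have h5 : hN K (z - y) < δ / 2 := hz2
    linarith
  have hsub : (⋃ x ∈ X, {y | hN K (y - x) < δ / 2}) ⊆ {y | hN T (y - 0) ≤ a + δ / 2} := by
    intro y hy
    simp only [mem_iUnion, exists_prop] at hy
    obtain ⟨x, hx, hy⟩ := hy
    have h1 : hN K (y - x) < δ / 2 := hy
    have h2 := hT.hN_add_le x (y - x)
    rw [add_sub_cancel] at h2
    have h3 := hle (y - x)
    have h4 := hX x hx
    change hN T (y - 0) ≤ a + δ / 2
    rw [sub_zero]
    linarith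
  have hm := measure_mono (μ := (volume : Measure (E n))) hsub
  rw [measure_biUnion_finset hdis fun x _ => hB x, hT.volume_hN_le 0 (by linarith)] at hm
  simp_rw [h.volume_hN_lt _ hδ2] at hm
  rw [Finset.sum_const, nsmul_eq_mul] at hm
  have hK := h.polar.volume_lt_top
  have hTt := hT.polar.volume_lt_top
  have h6 := ENNReal.toReal_mono (ENNReal.mul_ne_top ENNReal.ofReal_ne_top hTt.ne) hm
  rw [ENNReal.toReal_mul, ENNReal.toReal_mul, ENNReal.toReal_mul, ENNReal.toReal_natCast,
    ENNReal.toReal_ofReal (by positivity), ENNReal.toReal_ofReal (by positivity)] at h6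
  exact h6

end Pool.Agent.MP5e7226.HL
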