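import Mathlib
import Pool.Agent.Lib.MP_5e7226_co.HL.A1
import Pool.Agent.Lib.MP_c95dcf_gt.PL

/-!
Task HL S1: slices of `E (n + 1)`.
-/

set_option autoImplicit false

open MeasureTheory Set
open scoped InnerProductSpace ENNReal Pointwise

namespace Pool.Agent.MP5e7226.HL

variable {n : ℕ}

theorem S1_zero (s : ℝ) (x : E n) : cs s x 0 = s := rfl

theorem S1_succ (s : ℝ) (x : E n) (i : Fin n) : cs s x i.succ = x i := rfl

theorem inner_cs (s t : ℝ) (x y : E n) : ⟪cs s x, cs t y⟫_ℝ = s * t + ⟪x, y⟫_ℝ := by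
  rw [PiLp.inner_apply, PiLp.inner_apply, Fin.sum_univ_succ]
  simp only [S1_zero, S1_succ]
  congr 1
  simp [mul_comm]

theorem cs_add (s t : ℝ) (x y : E n) : cs s x + cs t y = cs (s + t) (x + y) := by
  ext i
  refine Fin.cases ?_ (fun j => ?_) i
  · rfl
  · rfl

theorem cs_smul (c s : ℝ) (x : E n) : c • cs s x = cs (c * s) (c • x) := by
  ext i
  refine Fin.cases ?_ (fun j => ?_) i
  · rfl
  · rfl

theorem cs_neg (s : ℝ) (x : E n) : -cs s x = cs (-s) (-x) := by
  ext i
  refine Fin.cases ?_ (fun j => ?_) i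
  · rfl
  · rfl

theorem cs_zero : cs 0 (0 : E n) = 0 := by
  ext i
  refine Fin.cases ?_ (fun j => ?_) i
  · rfl
  · rfl

theorem norm_cs_sq (s : ℝ) (x : E n) : ‖cs s x‖ ^ 2 = s ^ 2 + ‖x‖ ^ 2 := by
  rw [← real_inner_self_eq_norm_sq, inner_cs, real_inner_self_eq_norm_sq]
  ring

theorem continuous_cs : Continuous fun p : ℝ × E n => cs p.1 p.2 := by
  refine (PiLp.continuous_toLp 2 _).comp ?_
  refine continuous_pi fun i => ?_
  refine Fin.cases ?_ (fun j => ?_) i
  · exact continuous_fst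
  · exact (continuous_apply j).comp ((PiLp.continuous_ofLp 2 _).comp continuous_snd)

theorem exists_cs (z : E (n + 1)) : ∃ s x, z = cs s x := by
  refine ⟨z 0, WithLp.toLp 2 fun i => z i.succ, ?_⟩
  ext i
  refine Fin.cases ?_ (fun j => ?_) i
  · rfl
  · rfl

theorem lintegral_cs {f : E (n + 1) → ℝ≥0∞} (hf : Measurable f) :
    ∫⁻ z, f z = ∫⁻ s : ℝ, ∫⁻ x : E n, f (cs s x) := by
  have h1 := (EuclideanSpace.volume_preserving_symm_measurableEquiv_toLp (Fin (n + 1))).symm
  have h2 := (EuclideanSpace.volume_preserving_symm_measurableEquiv_toLp (Fin n)).symm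
  rw [← h1.lintegral_comp hf]
  have hm0 : Measurable fun a : Fin (n + 1) → ℝ =>
      f ((MeasurableEquiv.toLp 2 (Fin (n + 1) → ℝ)).symm.symm a) :=
    hf.comp (MeasurableEquiv.measurable _)
  rw [Pool.Agent.Lib.MP_c95dcf_gt.pl_fubini n hm0]
  refine lintegral_congr fun s => ?_
  have hm : Measurable fun x : E n => f (cs s x) :=
    hf.comp ((continuous_cs.comp (Continuous.prodMk continuous_const continuous_id)).measurable)
  rw [← h2.lintegral_comp hm]
  refine lintegral_congr fun z => ?_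
  congr 1
  ext i
  refine Fin.cases ?_ (fun j => ?_) i
  · rfl
  · rfl

theorem lintegral_cs' {f : E (n + 1) → ℝ≥0∞} (hf : Measurable f) :
    ∫⁻ z, f z = ∫⁻ x : E n, ∫⁻ s : ℝ, f (cs s x) := by
  rw [lintegral_cs hf, lintegral_lintegral_swap]
  exact (hf.comp continuous_cs.measurable).aemeasurable

theorem volume_zero (A : Set (E 0)) (hA : A.Nonempty) : volume A = 1 := by
  have h0 : A = univ := by
    obtain ⟨a, ha⟩ := hA
    ext x
    simp only [mem_univ, iff_true]
    rwa [Subsingleton.elim x a]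
  have h1 := (EuclideanSpace.volume_preserving_symm_measurableEquiv_toLp (Fin 0)).symm
  have h2 := h1.measure_preimage (s := univ) MeasurableSet.univ.nullMeasurableSet
  rw [h0, ← h2, preimage_univ]
  simp [volume_pi]

end Pool.Agent.MP5e7226.HL
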