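import Mathlib
import Pool.Agent.Lib.MP_5e7226_co.HL.S1

/-!
Task HL S2: the volume of a body by the slices of its Steiner symmetral.

PROOF of `volume_Zp`. By `lintegral_cs'` and Tonelli: `volume Z = ∫⁻ x, len x`, `len x =` the Lebesgue
measure of the fibre `I x = {s | cs s x ∈ Z}`, a compact interval or empty (`Z` convex, compact). And
`∫⁻ t in Ioi 0, volume (Zp Z t) = ∫⁻ x, volume {t | 0 < t ∧ x ∈ Zp Z t}` and `{t > 0 | x ∈ Zp Z t} =
Ioc 0 (len x / 2)` (as `I x = [a, b]`, `b - a = len x`, or empty). For the exchange of the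
integrals: the set `{(t, x) | 0 < t ∧ x ∈ Zp Z t}` is measurable: `{(t, x) | x ∈ Zp Z t}` is closed,
being the projection along compact sets of a closed set (`isClosedMap_snd_of_compactSpace`).

`measurable_Zp`: the same measurability, `measurable_measure_prodMk_left`.
-/

set_option autoImplicit false

open MeasureTheory Set
open scoped InnerProductSpace ENNReal Pointwise

namespace Pool.Agent.MP5e7226.HL

variable {n : ℕ}

private theorem S2_bound {D : Set (E (n + 1))} (h : SB D) :
    ∃ R : ℝ, ∀ (s : ℝ) (y : E n), cs s y ∈ D → |s| ≤ R := by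
  obtain ⟨R, hR⟩ := isBounded_iff_forall_norm_le.1 h.comp.isBounded
  refine ⟨R, fun s y hy => ?_⟩
  have h1 := hR _ hy
  have h2 := norm_cs_sq s y
  have h0 : 0 ≤ R := (norm_nonneg _).trans h1
  have h3 : ‖cs s y‖ ^ 2 ≤ R ^ 2 := pow_le_pow_left₀ (norm_nonneg _) h1 2
  refine abs_le_of_sq_le_sq ?_ h0
  nlinarith [sq_nonneg ‖y‖]

theorem isClosed_Zp {Z : Set (E (n + 1))} (h : SB Z) :
    IsClosed {p : ℝ × E n | p.2 ∈ Zp Z p.1} := by
  obtain ⟨R, hR⟩ := S2_bound h
  have hT : IsClosed {q : (Icc (-R) R × Icc (-R) R) × (ℝ × E n) |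
      2 * q.2.1 ≤ (q.1.1 : ℝ) - (q.1.2 : ℝ) ∧ cs (q.1.1 : ℝ) q.2.2 ∈ Z ∧ cs (q.1.2 : ℝ) q.2.2 ∈ Z} := by
    refine IsClosed.inter ?_ (IsClosed.inter ?_ ?_)
    · exact isClosed_le
        (continuous_const.mul (continuous_fst.comp continuous_snd))
        ((continuous_subtype_val.comp (continuous_fst.comp continuous_fst)).sub
          (continuous_subtype_val.comp (continuous_snd.comp continuous_fst)))
    · exact h.comp.isClosed.preimage (continuous_cs.comp
        ((continuous_subtype_val.comp (continuous_fst.comp continuous_fst)).prodMk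
          (continuous_snd.comp continuous_snd)))
    · exact h.comp.isClosed.preimage (continuous_cs.comp
        ((continuous_subtype_val.comp (continuous_snd.comp continuous_fst)).prodMk
          (continuous_snd.comp continuous_snd)))
  have h1 := isClosedMap_snd_of_compactSpace _ hT
  have h2 : (Prod.snd '' {q : (Icc (-R) R × Icc (-R) R) × (ℝ × E n) |
      2 * q.2.1 ≤ (q.1.1 : ℝ) - (q.1.2 : ℝ) ∧ cs (q.1.1 : ℝ) q.2.2 ∈ Z ∧ cs (q.1.2 : ℝ) q.2.2 ∈ Z}) =
      {p : ℝ × E n | p.2 ∈ Zp Z p.1} := by
    ext p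
    constructor
    · rintro ⟨q, ⟨hq1, hq2, hq3⟩, rfl⟩
      exact ⟨q.1.1, q.1.2, hq1, hq2, hq3⟩
    · rintro ⟨s1, s2, hq1, hq2, hq3⟩
      have b1 := abs_le.1 (hR _ _ hq2)
      have b2 := abs_le.1 (hR _ _ hq3)
      exact ⟨((⟨s1, b1⟩, ⟨s2, b2⟩), p), ⟨hq1, hq2, hq3⟩, rfl⟩
  rw [← h2]
  exact h1

theorem measurable_Zp {Z : Set (E (n + 1))} (h : SB Z) :
    Measurable fun t : ℝ => volume (Zp Z t) :=
  measurable_measure_prodMk_left (ν := (volume : Measure (E n))) (isClosed_Zp h).measurableSet

/-- the fibre over `x` -/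
private theorem S2_fibre {Z : Set (E (n + 1))} (h : SB Z) (x : E n) :
    volume {s : ℝ | cs s x ∈ Z} = 2 * volume {t : ℝ | t ∈ Ioi (0 : ℝ) ∧ x ∈ Zp Z t} := by
  obtain ⟨R, hR⟩ := S2_bound h
  rcases (eq_empty_or_nonempty {s : ℝ | cs s x ∈ Z}) with he | hne
  · have h2 : {t : ℝ | t ∈ Ioi (0 : ℝ) ∧ x ∈ Zp Z t} = ∅ := by
      ext t
      simp only [mem_ofPred_eq, mem_empty_iff_false, iff_false]
      rintro ⟨-, s1, s2, -, hs1, -⟩
      have : s1 ∈ {s : ℝ | cs s x ∈ Z} := hs1
      rw [he] at this
      exact this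
    rw [he, h2]
    simp
  · have hcl : IsClosed {s : ℝ | cs s x ∈ Z} :=
      h.comp.isClosed.preimage (continuous_cs.comp (Continuous.prodMk continuous_id continuous_const))
    have hco : IsCompact {s : ℝ | cs s x ∈ Z} := by
      refine Metric.isCompact_of_isClosed_isBounded hcl ?_
      exact isBounded_iff_forall_norm_le.2 ⟨R, fun s hs => by
        rw [Real.norm_eq_abs]
        exact hR s x hs⟩
    obtain ⟨a, ha, ha'⟩ := hco.exists_isLeast hne
    obtain ⟨b, hb, hb'⟩ := hco.exists_isGreatest hne
    have hab : a ≤ b := ha' hb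
    have hI : {s : ℝ | cs s x ∈ Z} = Icc a b := by
      ext s
      constructor
      · intro hs
        exact ⟨ha' hs, hb' hs⟩
      · intro hs
        rcases hab.eq_or_lt with e | hlt
        · have : s = a := le_antisymm (by rw [e]; exact hs.2) hs.1
          rw [this]
          exact ha
        · have hd : 0 < b - a := by linarith
          have h3 := h.conv ha hb (a := (b - s) / (b - a)) (b := (s - a) / (b - a))
            (div_nonneg (by linarith [hs.2]) hd.le) (div_nonneg (by linarith [hs.1]) hd.le)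
            (by
              rw [← add_div]
              rw [div_eq_one_iff_eq hd.ne']
              ring)
          rw [cs_smul, cs_smul, cs_add, ← add_smul] at h3
          have e1 : (b - s) / (b - a) * a + (s - a) / (b - a) * b = s := by
            field_simp
            ring
          have e2 : (b - s) / (b - a) + (s - a) / (b - a) = 1 := by
            rw [← add_div, div_eq_one_iff_eq hd.ne']
            ring
          rw [e1, e2, one_smul] at h3
          exact h3
    have hJ : {t : ℝ | t ∈ Ioi (0 : ℝ) ∧ x ∈ Zp Z t} = Ioc 0 ((b - a) / 2) := by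
      ext t
      constructor
      · rintro ⟨ht, s1, s2, h12, hs1, hs2⟩
        have h4 : s1 ∈ Icc a b := by
          rw [← hI]
          exact hs1
        have h5 : s2 ∈ Icc a b := by
          rw [← hI]
          exact hs2
        refine ⟨ht, ?_⟩
        have := h4.2
        have := h5.1
        linarith
      · rintro ⟨ht, ht2⟩
        exact ⟨ht, b, a, by linarith, hb, ha⟩
    rw [hI, hJ, Real.volume_Icc, Real.volume_Ioc, sub_zero]
    rw [← ENNReal.ofReal_ofNat 2, ← ENNReal.ofReal_mul (by norm_num)]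
    congr 1
    ring

theorem volume_Zp {Z : Set (E (n + 1))} (h : SB Z) :
    volume Z = 2 * ∫⁻ t in Ioi (0 : ℝ), volume (Zp Z t) := by
  have hZ : MeasurableSet Z := h.comp.isClosed.measurableSet
  have hW : MeasurableSet {p : ℝ × E n | p.1 ∈ Ioi (0 : ℝ) ∧ p.2 ∈ Zp Z p.1} :=
    (measurable_fst measurableSet_Ioi).inter (isClosed_Zp h).measurableSet
  have h1 : volume Z = ∫⁻ x : E n, volume {s : ℝ | cs s x ∈ Z} := by
    rw [← lintegral_indicator_one hZ, lintegral_cs' (measurable_one.indicator hZ)]
    refine lintegral_congr fun x => ?_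
    have hm : MeasurableSet {s : ℝ | cs s x ∈ Z} :=
      (continuous_cs.comp (Continuous.prodMk continuous_id continuous_const)).measurable hZ
    rw [← lintegral_indicator_one hm]
    rfl
  have h2 : ∫⁻ t in Ioi (0 : ℝ), volume (Zp Z t) =
      ∫⁻ x : E n, volume {t : ℝ | t ∈ Ioi (0 : ℝ) ∧ x ∈ Zp Z t} := by
    have a1 : ∫⁻ t in Ioi (0 : ℝ), volume (Zp Z t) = ∫⁻ t : ℝ, ∫⁻ x : E n,
        ({p : ℝ × E n | p.1 ∈ Ioi (0 : ℝ) ∧ p.2 ∈ Zp Z p.1}.indicator 1 (t, x) : ℝ≥0∞) := by
      rw [← lintegral_indicator measurableSet_Ioi]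
      refine lintegral_congr fun t => ?_
      by_cases ht : t ∈ Ioi (0 : ℝ)
      · rw [indicator_of_mem ht]
        have hm : MeasurableSet (Zp Z t) :=
          (Continuous.prodMk continuous_const continuous_id).measurable (isClosed_Zp h).measurableSet
        rw [← lintegral_indicator_one hm]
        refine lintegral_congr fun x => ?_
        by_cases hx : x ∈ Zp Z t
        · rw [indicator_of_mem hx, indicator_of_mem (show (t, x) ∈
            {p : ℝ × E n | p.1 ∈ Ioi (0 : ℝ) ∧ p.2 ∈ Zp Z p.1} from ⟨ht, hx⟩)]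
          rfl
        · rw [indicator_of_notMem hx, indicator_of_notMem (fun hc => hx hc.2)]
      · rw [indicator_of_notMem ht]
        symm
        rw [lintegral_eq_zero_iff' (by
          exact ((measurable_one.indicator hW).comp
            (Continuous.prodMk continuous_const continuous_id).measurable).aemeasurable)]
        refine Filter.Eventually.of_forall fun x => ?_
        exact indicator_of_notMem (fun hc => ht hc.1) _
    rw [a1, lintegral_lintegral_swap]
    · refine lintegral_congr fun x => ?_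
      have hm : MeasurableSet {t : ℝ | t ∈ Ioi (0 : ℝ) ∧ x ∈ Zp Z t} :=
        (Continuous.prodMk continuous_id continuous_const).measurable hW
      rw [← lintegral_indicator_one hm]
      rfl
    · exact (measurable_one.indicator hW).aemeasurable
  rw [h1, h2, ← lintegral_const_mul' _ _ (by norm_num)]
  exact lintegral_congr fun x => S2_fibre h x

end Pool.Agent.MP5e7226.HL
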