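import Mathlib
import Pool.Agent.Lib.MP_5e7226_co.HL.S1
import Pool.Agent.Lib.MP_5e7226_co.HL.A2

/-!
Task HL S3: the volume of a body by its slices, and the symmetrized slices.

PROOFS. `volume_sl`: `volume D = ∫⁻ s, volume (sl D s)` by `lintegral_cs` with `f = D.indicator 1`, and
`sl D (-s) = -sl D s` has the same volume (`Measure.measure_neg`-type lemma), so the integral over
`ℝ` is twice the integral over `Ioi 0` (`lintegral_add_compl`/`setLIntegral` on `Ioi 0`, `Iio 0`,
`{0}` null; `MeasurePreserving` of `neg`).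
`volume_sl_le_Ds`: `bm_mid` with `A = sl D s`, `B = -sl D s`, `C = Ds D s`: `a + b = a - b'` with `b' = -b ∈
sl D s`. So `volume (sl) ^ 2 ≤ volume (Ds) ^ 2`. The sets are compact (`sl D s` is the preimage of a
compact set under the closed embedding `y ↦ cs s y`, bounded by `norm_cs_sq`; `Ds` is the image of
`sl ×ˢ sl`).
`measurable_Ds`: `{(s, y) | y ∈ Ds D s}` is compact: the image of the compact set
`{(s, y1, y2) | cs s y1 ∈ D, cs s y2 ∈ D}` under a continuous map; `measurable_measure_prodMk_left`.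
-/

set_option autoImplicit false

open MeasureTheory Set
open scoped InnerProductSpace ENNReal Pointwise

namespace Pool.Agent.MP5e7226.HL

variable {n : ℕ}

private theorem S3_bound {D : Set (E (n + 1))} (h : SB D) :
    ∃ R : ℝ, ∀ (s : ℝ) (y : E n), cs s y ∈ D → |s| ≤ R ∧ ‖y‖ ≤ R := by
  obtain ⟨R, hR⟩ := isBounded_iff_forall_norm_le.1 h.comp.isBounded
  refine ⟨R, fun s y hy => ?_⟩
  have h1 := hR _ hy
  have h2 := norm_cs_sq s y
  have h0 : 0 ≤ R := (norm_nonneg _).trans h1
  have h3 : ‖cs s y‖ ^ 2 ≤ R ^ 2 := pow_le_pow_left₀ (norm_nonneg _) h1 2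
  constructor
  · refine abs_le_of_sq_le_sq ?_ h0
    nlinarith [sq_nonneg ‖y‖]
  · refine le_of_sq_le_sq ?_ h0
    nlinarith [sq_nonneg s]

private theorem S3_closed {D : Set (E (n + 1))} (h : SB D) :
    IsClosed {p : ℝ × E n | cs p.1 p.2 ∈ D} :=
  h.comp.isClosed.preimage continuous_cs

theorem isCompact_sl {D : Set (E (n + 1))} (h : SB D) (s : ℝ) : IsCompact (sl D s) := by
  obtain ⟨R, hR⟩ := S3_bound h
  refine Metric.isCompact_of_isClosed_isBounded ?_ ?_
  · exact h.comp.isClosed.preimage (continuous_cs.comp (continuous_const.prodMk continuous_id))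
  · exact isBounded_iff_forall_norm_le.2 ⟨R, fun y hy => (hR s y hy).2⟩

theorem convex_sl {D : Set (E (n + 1))} (h : SB D) (s : ℝ) : Convex ℝ (sl D s) := by
  intro x hx y hy a b ha hb hab
  have h1 := h.conv hx hy ha hb hab
  rw [cs_smul, cs_smul, cs_add, ← add_mul, hab, one_mul] at h1
  exact h1

theorem isCompact_Ds {D : Set (E (n + 1))} (h : SB D) (s : ℝ) : IsCompact (Ds D s) := by
  have h1 := isCompact_sl h s
  have h2 : Continuous fun p : E n × E n => (1 / 2 : ℝ) • (p.1 - p.2) := by fun_prop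
  have h3 := (h1.prod h1).image h2
  have h4 : (fun p : E n × E n => (1 / 2 : ℝ) • (p.1 - p.2)) '' (sl D s ×ˢ sl D s) = Ds D s := by
    ext y
    constructor
    · rintro ⟨p, hp, rfl⟩
      exact ⟨p.1, hp.1, p.2, hp.2, rfl⟩
    · rintro ⟨y1, h5, y2, h6, rfl⟩
      exact ⟨(y1, y2), ⟨h5, h6⟩, rfl⟩
  rw [← h4]
  exact h3

theorem convex_Ds {D : Set (E (n + 1))} (h : SB D) (s : ℝ) : Convex ℝ (Ds D s) := by
  rintro _ ⟨x1, hx1, x2, hx2, rfl⟩ _ ⟨y1, hy1, y2, hy2, rfl⟩ a b ha hb hab
  refine ⟨a • x1 + b • y1, convex_sl h s hx1 hy1 ha hb hab, a • x2 + b • y2,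
    convex_sl h s hx2 hy2 ha hb hab, ?_⟩
  module

theorem neg_Ds {D : Set (E (n + 1))} (s : ℝ) : ∀ y ∈ Ds D s, -y ∈ Ds D s := by
  rintro _ ⟨y1, h1, y2, h2, rfl⟩
  exact ⟨y2, h2, y1, h1, by module⟩

theorem measurable_Ds {D : Set (E (n + 1))} (h : SB D) :
    Measurable fun s : ℝ => volume (Ds D s) := by
  obtain ⟨R, hR⟩ := S3_bound h
  have hcl := S3_closed h
  have hT : IsCompact {p : ℝ × E n × E n | cs p.1 p.2.1 ∈ D ∧ cs p.1 p.2.2 ∈ D} := by
    refine Metric.isCompact_of_isClosed_isBounded ?_ ?_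
    · refine IsClosed.inter (hcl.preimage (f := fun p : ℝ × E n × E n => (p.1, p.2.1)) ?_)
        (hcl.preimage (f := fun p : ℝ × E n × E n => (p.1, p.2.2)) ?_)
      · exact continuous_fst.prodMk (continuous_fst.comp continuous_snd)
      · exact continuous_fst.prodMk (continuous_snd.comp continuous_snd)
    · refine isBounded_iff_forall_norm_le.2 ⟨R, fun p hp => ?_⟩
      obtain ⟨h1, h2⟩ := hR _ _ hp.1
      obtain ⟨_, h3⟩ := hR _ _ hp.2
      rw [Prod.norm_def, Prod.norm_def]
      exact max_le h1 (max_le h2 h3)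
  have hS : IsCompact {p : ℝ × E n | p.2 ∈ Ds D p.1} := by
    have h1 : Continuous fun p : ℝ × E n × E n => (p.1, (1 / 2 : ℝ) • (p.2.1 - p.2.2)) := by
      fun_prop
    have h2 := hT.image h1
    have h3 : (fun p : ℝ × E n × E n => (p.1, (1 / 2 : ℝ) • (p.2.1 - p.2.2))) ''
        {p : ℝ × E n × E n | cs p.1 p.2.1 ∈ D ∧ cs p.1 p.2.2 ∈ D} =
        {p : ℝ × E n | p.2 ∈ Ds D p.1} := by
      ext ⟨s, y⟩
      constructor
      · rintro ⟨p, hp, hpe⟩
        obtain ⟨rfl, rfl⟩ := Prod.mk.inj hpe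
        exact ⟨p.2.1, hp.1, p.2.2, hp.2, rfl⟩
      · rintro ⟨y1, h5, y2, h6, h7⟩
        exact ⟨(s, y1, y2), ⟨h5, h6⟩, Prod.ext rfl h7.symm⟩
    rw [← h3]
    exact h2
  exact measurable_measure_prodMk_left (ν := (volume : Measure (E n))) hS.measurableSet

private theorem S3_meas {D : Set (E (n + 1))} (h : SB D) :
    Measurable fun s : ℝ => volume (sl D s) :=
  measurable_measure_prodMk_left (ν := (volume : Measure (E n))) (S3_closed h).measurableSet

private theorem S3_neg {D : Set (E (n + 1))} (h : SB D) (s : ℝ) :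
    volume (sl D (-s)) = volume (sl D s) := by
  have h1 : sl D (-s) = -sl D s := by
    ext y
    constructor
    · intro hy
      have h2 := h.neg _ hy
      rw [cs_neg, neg_neg] at h2
      exact h2
    · intro hy
      have h2 := h.neg _ hy
      rw [cs_neg, neg_neg] at h2
      exact h2
  rw [h1]
  exact Measure.measure_neg _ _

theorem volume_sl {D : Set (E (n + 1))} (h : SB D) :
    volume D = 2 * ∫⁻ s in Ioi (0 : ℝ), volume (sl D s) := by
  have hDm : MeasurableSet D := h.comp.isClosed.measurableSet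
  have h1 : volume D = ∫⁻ s : ℝ, volume (sl D s) := by
    rw [← lintegral_indicator_one hDm, lintegral_cs (measurable_one.indicator hDm)]
    refine lintegral_congr fun s => ?_
    rw [← lintegral_indicator_one (isCompact_sl h s).isClosed.measurableSet]
    rfl
  have h2 : ∫⁻ s in Iio (0 : ℝ), volume (sl D s) = ∫⁻ s in Ioi (0 : ℝ), volume (sl D s) := by
    have h3 := (Measure.measurePreserving_neg (volume : Measure ℝ)).setLIntegral_comp_preimage
      (s := Iio (0 : ℝ)) measurableSet_Iio (S3_meas h)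
    rw [← h3]
    have h4 : Neg.neg ⁻¹' Iio (0 : ℝ) = Ioi 0 := by
      ext x
      simp
    rw [h4]
    exact lintegral_congr fun s => S3_neg h s
  rw [h1, ← lintegral_add_compl _ (measurableSet_Ioi (a := (0 : ℝ))), compl_Ioi,
    setLIntegral_congr (Iio_ae_eq_Iic (a := (0 : ℝ))).symm, h2, two_mul]

theorem volume_sl_le_Ds {D : Set (E (n + 1))} (h : SB D) (s : ℝ) :
    volume (sl D s) ≤ volume (Ds D s) := by
  have h1 := (isCompact_sl h s).isClosed.measurableSet
  have h2 := bm_mid (A := sl D s) (B := -sl D s) (C := Ds D s) h1 h1.neg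
    (isCompact_Ds h s).isClosed.measurableSet (fun a ha b hb => ⟨a, ha, -b, hb, by
      rw [sub_neg_eq_add]⟩)
  have h3 : volume (-sl D s) = volume (sl D s) := Measure.measure_neg _ _
  rw [h3, ← sq] at h2
  by_contra hcon
  push Not at hcon
  exact absurd h2 (not_le.2 (ENNReal.pow_lt_pow_left two_ne_zero hcon))

end Pool.Agent.MP5e7226.HL
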