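import Mathlib
import Pool.Agent.Lib.MP_5e7226_co.HL.S3

/-!
Task HL S4: the product of the slices (Meyer–Pajor).

PROOF. `Z` is a symmetric body of `E (n + 1)`, `D = pol Z`, `s, t > 0`.
KEY: for `x ∈ Zp Z t`, `y ∈ Ds D s`: `⟪x, y⟫ ≤ 1 - s t`. Indeed `cs s1 x, cs s2 x ∈ Z` with `2 t ≤ s1 - s2`
and `y = (y1 - y2)/2` with `cs s y1, cs s y2 ∈ D`. Then `s1 s + ⟪x, y1⟫ ≤ 1` and, since
`-(cs s y2) ∈ D`, `-s2 s - ⟪x, y2⟫ ≤ 1`. Half of the sum: `⟪x, y⟫ + s (s1 - s2)/2 ≤ 1`.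
Both sets are symmetric (`-x`: exchange `s1, s2` with `-s2, -s1`).
Case `volume (Ds D s) = 0` or `Zp Z t = ∅` or `Ds D s = ∅`: trivial.
Otherwise `Ds D s` is a body (`SB.of_volume` with `convex_Ds`, `isCompact_Ds`, `neg_Ds`).
* `s t > 1`: `⟪x, y⟫ ≤ 1 - s t < 0` and the same for `-x`, a contradiction; so one of the sets is empty.
* `s t = 1`, `n = 0`: both volumes are `≤ 1` (`volume_zero`) and `hM` applied to `univ` (a body of `E 0`,
  `pol univ = univ`) gives `1 ≤ M`; `(1 - 1)^0 = 1`. In fact for `n = 0` the same argument works for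
  all `s t ≤ 1`.
* `s t = 1`, `n ≥ 1`: `⟪x, y⟫ ≤ 0` for all `y ∈ Ds D s`, which contains a ball about `0`, so `x = 0`,
  `Zp Z t ⊆ {0}` has volume `0`.
* `s t < 1`: `Zp Z t ⊆ (1 - s t) • pol (Ds D s)` so `volume (Zp Z t) ≤ (1 - s t)^n volume (pol (Ds D s))`
  (`Measure.addHaar_smul`), and `hM` for the body `Ds D s`.
-/

set_option autoImplicit false

open MeasureTheory Set
open scoped InnerProductSpace ENNReal Pointwise

namespace Pool.Agent.MP5e7226.HL

variable {n : ℕ}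

private theorem S4_key {Z : Set (E (n + 1))} (h : SB Z) {s t : ℝ} (hs : 0 < s) {x y : E n}
    (hx : x ∈ Zp Z t) (hy : y ∈ Ds (pol Z) s) : ⟪x, y⟫_ℝ ≤ 1 - s * t := by
  obtain ⟨s1, s2, h12, h1, h2⟩ := hx
  obtain ⟨y1, hy1, y2, hy2, rfl⟩ := hy
  have e1 : ⟪cs s1 x, cs s y1⟫_ℝ ≤ 1 := hy1 _ h1
  have e2 : ⟪-cs s2 x, cs s y2⟫_ℝ ≤ 1 := hy2 _ (h.neg _ h2)
  rw [inner_cs] at e1
  rw [inner_neg_left, inner_cs] at e2
  rw [inner_smul_right, inner_sub_right]
  nlinarith

theorem slice_prod {M : ℝ} (hM : ∀ Y : Set (E n), SB Y → volume Y * volume (pol Y) ≤ ENNReal.ofReal M)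
    {Z : Set (E (n + 1))} (h : SB Z) {s t : ℝ} (hs : 0 < s) (ht : 0 < t) :
    volume (Zp Z t) * volume (Ds (pol Z) s) ≤ ENNReal.ofReal M * kn n (s * t) := by
  by_cases hv : volume (Ds (pol Z) s) = 0
  · rw [hv, mul_zero]
    exact zero_le
  have hD : SB (Ds (pol Z) s) := SB.of_volume (convex_Ds h.polar s) (isCompact_Ds h.polar s)
    (neg_Ds s) hv
  rcases (Zp Z t).eq_empty_or_nonempty with hZ | ⟨x0, hx0⟩
  · rw [hZ, measure_empty, zero_mul]
    exact zero_le
  have hst : s * t ≤ 1 := by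
    have h1 := S4_key h hs hx0 hD.zero_mem
    rw [inner_zero_right] at h1
    linarith
  have hsub : Zp Z t ⊆ (1 - s * t) • pol (Ds (pol Z) s) := by
    intro x hx
    rcases hst.lt_or_eq with h1 | h1
    · have h2 : 0 < 1 - s * t := by linarith
      refine Set.mem_smul_set.2 ⟨(1 - s * t)⁻¹ • x, ?_, smul_inv_smul₀ h2.ne' x⟩
      intro y hy
      have h3 := S4_key h hs hx hy
      rw [inner_smul_right, real_inner_comm, ← div_eq_inv_mul, div_le_one h2]
      exact h3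
    · have hx0 : x = 0 := by
        by_contra hne
        obtain ⟨y, hy, hy2⟩ := hD.exists_hN x
        have h3 := S4_key h hs hx hy
        have h4 := hD.hN_pos hne
        rw [← hy2, real_inner_comm] at h4
        linarith
      rw [hx0]
      exact Set.mem_smul_set.2 ⟨0, fun y _ => by rw [inner_zero_right]; exact zero_le_one,
        smul_zero _⟩
  have hvol : volume (Zp Z t) ≤
      ENNReal.ofReal ((1 - s * t) ^ n) * volume (pol (Ds (pol Z) s)) := by
    refine le_trans (measure_mono hsub) ?_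
    rw [Measure.addHaar_smul, finrank_euclideanSpace_fin,
      abs_of_nonneg (pow_nonneg (by linarith) n)]
  unfold kn
  rw [if_pos hst]
  calc volume (Zp Z t) * volume (Ds (pol Z) s)
      ≤ ENNReal.ofReal ((1 - s * t) ^ n) * volume (pol (Ds (pol Z) s)) *
        volume (Ds (pol Z) s) := mul_le_mul_left hvol _
    _ = volume (Ds (pol Z) s) * volume (pol (Ds (pol Z) s)) *
        ENNReal.ofReal ((1 - s * t) ^ n) := by ring
    _ ≤ ENNReal.ofReal M * ENNReal.ofReal ((1 - s * t) ^ n) := mul_le_mul_left (hM _ hD) _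

end Pool.Agent.MP5e7226.HL
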