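import Mathlib
import Pool.Agent.Lib.MP_5e7226_co.HL.Defs
import Pool.Agent.Lib.MP_c95dcf_gt.PL1

/-!
Task HL S5: the Prékopa–Leindler inequality on `(0, ∞)` with geometric means, and an integral.

`pl_log`: substitute `s = exp u`: `∫⁻ s in Ioi 0, f s = ∫⁻ u, ofReal (exp u) * f (exp u)`
(`lintegral_image_eq_lintegral_abs_deriv_mul` for `Real.exp` on `univ`, `Real.range_exp`), then
`pl1 : Stmt_PL1` (file PL1.lean) for `F u = ofReal (exp u) * f (exp u)`, `G`, `H` similarly:
`F u * G v = ofReal (exp (u + v)) * (f (exp u) * g (exp v)) ≤ (ofReal (exp ((u+v)/2)) * h (exp ((u+v)/2)))^2`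
because `√(exp u * exp v) = exp ((u + v)/2)`.

`wallis_sq`: let `J n = ∫ r in 0..1, √((1 - r^2)^n)`. With `r = sin θ`: `J n = ∫ θ in 0..π/2, cos θ^(n+1)`.
Recursion `J (n+2) = (n+2)/(n+3) * J n` (Mathlib: `integral_cos_pow`, or `integral_sin_pow` on
`0..π`, twice the integral; or integrate by parts), `J 0 = 1`, `J 1 = π/4`. So
`P n = J (n+1) * J n` satisfies `P (n+1) = J (n+2) J (n+1) = (n+2)/(n+3) P n`, `P 0 = π/4`, hence
`P n = π / (2 (n + 2))`, and, `J` being decreasing, `(J (n+1))^2 ≤ J (n+1) J n = π/(2 (n+2))`; and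
`J 0 ^2 = 1 ≤ π/2`. So `(J n)^2 ≤ π / (2 (n + 1))` for all `n ≥ 0`.
`lintegral_kn`: with `h r = ofReal √M * (if r ≤ 1 then ofReal √((1 - r^2)^n) else 0)`; the value of the
integral over `Ioi 0` is `ofReal (√M * J n)` (`ofReal_integral_eq_lintegral_ofReal`), for `M ≥ 0`.
-/

set_option autoImplicit false

open MeasureTheory Set
open scoped InnerProductSpace ENNReal Pointwise

namespace Pool.Agent.MP5e7226.HL

private theorem S5_sub (f : ℝ → ℝ≥0∞) :
    ∫⁻ s in Ioi (0 : ℝ), f s = ∫⁻ u, ENNReal.ofReal (Real.exp u) * f (Real.exp u) := by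
  have h := lintegral_image_eq_lintegral_abs_deriv_mul (s := (univ : Set ℝ)) (f := Real.exp)
    (f' := Real.exp) MeasurableSet.univ (fun x _ => (Real.hasDerivAt_exp x).hasDerivWithinAt)
    Real.exp_injective.injOn f
  rw [image_univ, Real.range_exp, Measure.restrict_univ] at h
  rw [h]
  refine lintegral_congr fun u => ?_
  rw [abs_of_pos (Real.exp_pos u)]

theorem pl_log {f g h : ℝ → ℝ≥0∞} (hf : Measurable f) (hg : Measurable g) (hh : Measurable h)
    (H : ∀ s t, 0 < s → 0 < t → f s * g t ≤ (h (√(s * t))) ^ 2) :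
    (∫⁻ s in Ioi (0 : ℝ), f s) * (∫⁻ t in Ioi (0 : ℝ), g t) ≤ (∫⁻ r in Ioi (0 : ℝ), h r) ^ 2 := by
  rw [S5_sub f, S5_sub g, S5_sub h]
  have hm : ∀ {φ : ℝ → ℝ≥0∞}, Measurable φ →
      Measurable (fun u : ℝ => ENNReal.ofReal (Real.exp u) * φ (Real.exp u)) := fun hφ =>
    (Real.measurable_exp.ennreal_ofReal).mul (hφ.comp Real.measurable_exp)
  refine Pool.Agent.Lib.MP_c95dcf_gt.pl1 _ _ _ (hm hf) (hm hg) (hm hh) fun u v => ?_
  have h1 := H (Real.exp u) (Real.exp v) (Real.exp_pos u) (Real.exp_pos v)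
  have h2 : √(Real.exp u * Real.exp v) = Real.exp ((u + v) / 2) := by
    rw [← Real.exp_add, show u + v = (u + v) / 2 + (u + v) / 2 by ring, Real.exp_add,
      Real.sqrt_mul_self (Real.exp_pos _).le]
    congr 1
    ring
  rw [h2] at h1
  have h3 : ENNReal.ofReal (Real.exp u) * ENNReal.ofReal (Real.exp v) =
      ENNReal.ofReal (Real.exp ((u + v) / 2)) ^ 2 := by
    rw [← ENNReal.ofReal_mul (Real.exp_pos u).le, ← ENNReal.ofReal_pow (Real.exp_pos _).le,
      ← Real.exp_add, ← Real.exp_nat_mul]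
    congr 2
    push_cast
    ring
  calc ENNReal.ofReal (Real.exp u) * f (Real.exp u) *
        (ENNReal.ofReal (Real.exp v) * g (Real.exp v))
      = ENNReal.ofReal (Real.exp u) * ENNReal.ofReal (Real.exp v) *
        (f (Real.exp u) * g (Real.exp v)) := by ring
    _ ≤ ENNReal.ofReal (Real.exp ((u + v) / 2)) ^ 2 * (h (Real.exp ((u + v) / 2))) ^ 2 := by
        rw [h3]
        exact mul_le_mul' le_rfl h1
    _ = _ := by rw [mul_pow]

/-- the integral `∫_0^1 (1 - r²)^{n/2} dr` -/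
noncomputable def J (n : ℕ) : ℝ := ∫ r in (0 : ℝ)..1, √((1 - r ^ 2) ^ n)

theorem J_nonneg (n : ℕ) : 0 ≤ J n := by
  unfold J
  exact intervalIntegral.integral_nonneg (by norm_num) fun _ _ => Real.sqrt_nonneg _

private theorem S5_cont (n : ℕ) : Continuous fun r : ℝ => √((1 - r ^ 2) ^ n) := by
  fun_prop

private theorem S5_J_cos (n : ℕ) : J n = ∫ θ in (0 : ℝ)..(Real.pi / 2), Real.cos θ ^ (n + 1) := by
  have h := intervalIntegral.integral_comp_mul_deriv (a := 0) (b := Real.pi / 2) (f := Real.sin)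
    (f' := Real.cos) (g := fun r : ℝ => √((1 - r ^ 2) ^ n)) (fun x _ => Real.hasDerivAt_sin x)
    Real.continuous_cos.continuousOn (S5_cont n)
  rw [Real.sin_zero, Real.sin_pi_div_two] at h
  unfold J
  rw [← h]
  refine intervalIntegral.integral_congr fun θ hθ => ?_
  rw [uIcc_of_le (by positivity)] at hθ
  have hc : 0 ≤ Real.cos θ := Real.cos_nonneg_of_mem_Icc ⟨by linarith [hθ.1, Real.pi_pos], hθ.2⟩
  have h1 : 1 - Real.sin θ ^ 2 = Real.cos θ ^ 2 := by
    have := Real.sin_sq_add_cos_sq θ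
    linarith
  simp only [Function.comp_apply]
  rw [h1, ← pow_mul, mul_comm 2 n, pow_mul, Real.sqrt_sq (by positivity), pow_succ]

private theorem S5_rec (n : ℕ) : J (n + 2) = (n + 2) / (n + 3) * J n := by
  rw [S5_J_cos, S5_J_cos]
  have h := integral_cos_pow (a := 0) (b := Real.pi / 2) (n + 1)
  rw [show n + 2 + 1 = n + 1 + 2 by ring, h, Real.cos_pi_div_two, Real.sin_zero]
  push_cast
  rw [zero_pow (by omega)]
  simp only [zero_mul, mul_zero, sub_zero, zero_div, zero_add]
  congr 1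
  congr 1 <;> ring

private theorem S5_J0 : J 0 = 1 := by
  rw [S5_J_cos]
  simp

private theorem S5_J1 : J 1 = Real.pi / 4 := by
  rw [S5_J_cos]
  have h := integral_cos_pow (a := 0) (b := Real.pi / 2) 0
  rw [show 1 + 1 = 0 + 2 by ring, h]
  simp
  ring

private theorem S5_P (n : ℕ) : J (n + 1) * J n = Real.pi / (2 * (n + 2)) := by
  induction n with
  | zero =>
    rw [zero_add, S5_J0, S5_J1]
    push_cast
    ring
  | succ n ih =>
    have h1 : J (n + 1 + 1) * J (n + 1) = (n + 2) / (n + 3) * (J (n + 1) * J n) := by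
      rw [show n + 1 + 1 = n + 2 by ring, S5_rec]
      ring
    rw [h1, ih]
    push_cast
    field_simp
    ring

private theorem S5_anti (n : ℕ) : J (n + 1) ≤ J n := by
  unfold J
  refine intervalIntegral.integral_mono_on (by norm_num) ((S5_cont _).intervalIntegrable _ _)
    ((S5_cont _).intervalIntegrable _ _) fun x hx => ?_
  refine Real.sqrt_le_sqrt ?_
  have h1 : 0 ≤ 1 - x ^ 2 := by nlinarith [hx.1, hx.2]
  have h2 : 1 - x ^ 2 ≤ 1 := by nlinarith
  rw [pow_succ]
  exact mul_le_of_le_one_right (by positivity) h2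

theorem wallis_sq (n : ℕ) : J n ^ 2 ≤ Real.pi / (2 * (n + 1)) := by
  rcases n with _ | n
  · rw [S5_J0]
    push_cast
    have := Real.pi_gt_three
    linarith
  · have h1 := S5_P n
    have h2 := S5_anti n
    have h3 := J_nonneg (n + 1)
    calc J (n + 1) ^ 2 = J (n + 1) * J (n + 1) := sq _
      _ ≤ J (n + 1) * J n := mul_le_mul_of_nonneg_left h2 h3
      _ = Real.pi / (2 * (n + 2)) := h1
      _ = _ := by push_cast; ring

/-- the function to which `pl_log` is applied -/
noncomputable def hfun (n : ℕ) (r : ℝ) : ℝ≥0∞ :=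
  if r ≤ 1 then ENNReal.ofReal (√((1 - r ^ 2) ^ n)) else 0

theorem measurable_hfun (n : ℕ) : Measurable (hfun n) := by
  unfold hfun
  refine Measurable.ite (measurableSet_le measurable_id measurable_const) ?_ measurable_const
  exact (S5_cont n).measurable.ennreal_ofReal

theorem hfun_sq (n : ℕ) {s t : ℝ} (hs : 0 < s) (ht : 0 < t) :
    (hfun n (√(s * t))) ^ 2 = kn n (s * t) := by
  have hst : 0 < s * t := mul_pos hs ht
  unfold hfun kn
  have h1 : √(s * t) ≤ 1 ↔ s * t ≤ 1 := by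
    rw [Real.sqrt_le_one]
  by_cases h : s * t ≤ 1
  · rw [if_pos (h1.2 h), if_pos h, Real.sq_sqrt hst.le, ← ENNReal.ofReal_pow (Real.sqrt_nonneg _),
      Real.sq_sqrt (pow_nonneg (by linarith) _)]
  · rw [if_neg (fun hh => h (h1.1 hh)), if_neg h]
    simp

theorem lintegral_hfun (n : ℕ) : ∫⁻ r in Ioi (0 : ℝ), hfun n r = ENNReal.ofReal (J n) := by
  have h1 : ∫⁻ r in Ioi (0 : ℝ), hfun n r =
      ∫⁻ r in Ioc (0 : ℝ) 1, ENNReal.ofReal (√((1 - r ^ 2) ^ n)) := by
    rw [← lintegral_indicator measurableSet_Ioi, ← lintegral_indicator measurableSet_Ioc]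
    refine lintegral_congr fun r => ?_
    unfold hfun
    by_cases h0 : 0 < r
    · by_cases h2 : r ≤ 1
      · rw [indicator_of_mem (show r ∈ Ioi (0 : ℝ) from h0), if_pos h2,
          indicator_of_mem (show r ∈ Ioc (0 : ℝ) 1 from ⟨h0, h2⟩)]
      · rw [indicator_of_mem (show r ∈ Ioi (0 : ℝ) from h0), if_neg h2,
          indicator_of_notMem (show r ∉ Ioc (0 : ℝ) 1 from fun h => h2 h.2)]
    · rw [indicator_of_notMem (show r ∉ Ioi (0 : ℝ) from h0),
        indicator_of_notMem (show r ∉ Ioc (0 : ℝ) 1 from fun h => h0 h.1)]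
  rw [h1, J, intervalIntegral.integral_of_le (by norm_num), ofReal_integral_eq_lintegral_ofReal]
  · have := (S5_cont n).intervalIntegrable (μ := volume) 0 1
    rwa [intervalIntegrable_iff_integrableOn_Ioc_of_le (by norm_num)] at this
  · exact Filter.Eventually.of_forall fun _ => Real.sqrt_nonneg _

end Pool.Agent.MP5e7226.HL
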