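import Mathlib
import Pool.Agent.Lib.MP_5e7226_co.HL.S2
import Pool.Agent.Lib.MP_5e7226_co.HL.S4
import Pool.Agent.Lib.MP_5e7226_co.HL.S5

/-!
Task HL S6: the inequality of Santaló (with the constant `(2π)^n / n!`).

PROOF by induction on `n`. `n = 0`: the volumes are `1` (`volume_zero`; `0` belongs to both sets).
Step: `volume Z * volume (pol Z) = 4 (∫⁻_{t>0} volume (Zp Z t)) (∫⁻_{s>0} volume (sl (pol Z) s))` by
`volume_Zp`, `volume_sl` (for `h.polar`), `≤ 4 (∫⁻_{t>0} volume (Zp Z t)) (∫⁻_{s>0} volume (Ds (pol Z) s))`.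
Apply `pl_log` with `h r = ofReal (√M) * hfun n r`, `M = (2π)^n/n!`: `(h √(st))^2 = ofReal M * kn n (s t)`
(`hfun_sq`), hypothesis by `slice_prod`. So the product is `≤ 4 M (J n)^2 ≤ 4 M π/(2(n+1)) =
(2π)^(n+1)/(n+1)!` (`lintegral_hfun`, `wallis_sq`).
-/

set_option autoImplicit false

open MeasureTheory Set
open scoped InnerProductSpace ENNReal Pointwise Nat

namespace Pool.Agent.MP5e7226.HL

theorem santalo_ennreal (n : ℕ) : ∀ Z : Set (E n), SB Z →
    volume Z * volume (pol Z) ≤ ENNReal.ofReal ((2 * Real.pi) ^ n / (n !)) := by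
  induction n with
  | zero =>
    intro Z h
    rw [volume_zero Z ⟨0, h.zero_mem⟩, volume_zero (pol Z) ⟨0, h.polar.zero_mem⟩]
    simp
  | succ n ih =>
    intro Z h
    obtain ⟨M, hM⟩ : ∃ M : ℝ, M = (2 * Real.pi) ^ n / (n !) := ⟨_, rfl⟩
    have hM0 : 0 ≤ M := by rw [hM]; positivity
    rw [← hM] at ih
    have hpl := pl_log (f := fun s => volume (Ds (pol Z) s)) (g := fun t => volume (Zp Z t))
      (h := fun r => ENNReal.ofReal (√M) * hfun n r)
      (measurable_Ds h.polar) (measurable_Zp h) ((measurable_hfun n).const_mul _)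
      (by
        intro s t hs ht
        have h1 := slice_prod (M := M) ih h hs ht
        have h2 : (ENNReal.ofReal (√M) * hfun n (√(s * t))) ^ 2 =
            ENNReal.ofReal M * kn n (s * t) := by
          rw [mul_pow, hfun_sq n hs ht, ← ENNReal.ofReal_pow (Real.sqrt_nonneg M),
            Real.sq_sqrt hM0]
        rw [h2, mul_comm]
        exact h1)
    have hle : (∫⁻ s in Ioi (0 : ℝ), volume (sl (pol Z) s)) ≤
        ∫⁻ s in Ioi (0 : ℝ), volume (Ds (pol Z) s) :=
      lintegral_mono fun s => volume_sl_le_Ds h.polar s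
    have hint : (∫⁻ r in Ioi (0 : ℝ), ENNReal.ofReal (√M) * hfun n r) =
        ENNReal.ofReal (√M) * ENNReal.ofReal (J n) := by
      rw [lintegral_const_mul _ (measurable_hfun n), lintegral_hfun]
    rw [hint] at hpl
    have hsq : (ENNReal.ofReal (√M) * ENNReal.ofReal (J n)) ^ 2 =
        ENNReal.ofReal (M * J n ^ 2) := by
      rw [mul_pow, ← ENNReal.ofReal_pow (Real.sqrt_nonneg M), Real.sq_sqrt hM0,
        ← ENNReal.ofReal_pow (J_nonneg n), ← ENNReal.ofReal_mul hM0]
    rw [hsq] at hpl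
    calc volume Z * volume (pol Z)
        = (2 * ∫⁻ t in Ioi (0 : ℝ), volume (Zp Z t)) *
            (2 * ∫⁻ s in Ioi (0 : ℝ), volume (sl (pol Z) s)) := by
          rw [volume_Zp h, volume_sl h.polar]
      _ ≤ (2 * ∫⁻ t in Ioi (0 : ℝ), volume (Zp Z t)) *
            (2 * ∫⁻ s in Ioi (0 : ℝ), volume (Ds (pol Z) s)) := by gcongr
      _ = 4 * ((∫⁻ s in Ioi (0 : ℝ), volume (Ds (pol Z) s)) *
            (∫⁻ t in Ioi (0 : ℝ), volume (Zp Z t))) := by ring
      _ ≤ 4 * ENNReal.ofReal (M * J n ^ 2) := by gcongr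
      _ = ENNReal.ofReal (4 * (M * J n ^ 2)) := by
          rw [ENNReal.ofReal_mul (by norm_num : (0 : ℝ) ≤ 4)]
          norm_num
      _ ≤ ENNReal.ofReal ((2 * Real.pi) ^ (n + 1) / ((n + 1) !)) := by
          apply ENNReal.ofReal_le_ofReal
          have h3 : M * J n ^ 2 ≤ M * (Real.pi / (2 * (n + 1))) :=
            mul_le_mul_of_nonneg_left (wallis_sq n) hM0
          have h4 : 4 * (M * (Real.pi / (2 * ((n : ℝ) + 1)))) =
              (2 * Real.pi) ^ (n + 1) / ((n + 1) !) := by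
            rw [hM, Nat.factorial_succ]
            have h5 : ((n !) : ℝ) ≠ 0 := by positivity
            push_cast
            field_simp
            ring
          linarith

theorem santalo {n : ℕ} {Z : Set (E n)} (h : SB Z) :
    vol Z * vol (pol Z) ≤ (2 * Real.pi) ^ n / (n !) := by
  unfold vol
  rw [← ENNReal.toReal_mul]
  exact ENNReal.toReal_le_of_le_ofReal (by positivity) (santalo_ennreal n Z h)

end Pool.Agent.MP5e7226.HL
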