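import Mathlib
import Pool.Agent.Lib.MP_5e7226_co.HL.S6
import Pool.Agent.Lib.MP_5e7226_co.HL.B11
import Pool.Agent.Lib.MP_5e7226_co.HL.G3
import Pool.Agent.Lib.MP_5e7226_co.HL.G4

/-!
Task HL G5: the counting theorem.

PROOFS. `du`: `santalo` for `Y`, `bourgain_milman` for `Z`: `(2π)^n/n! = 2^n π^n/n!`.
`cap_large`: by `du` (`Y = K`, `Z = Zx K x r`, `pol_Zx`) and `vol_Mx`: `vol K vol (pol K) ≤ 2^n vol (Zx) vol (Mx) ≤
2^n vol (Zx) 2^n vol (pol K)`, so `vol K ≤ 4^n vol (Zx) ≤ 4^n 2 4^n vol (cap K x (2r))` (`Zx_volume`).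
`count_le`: let `V_x = cap K x (2r)`, `N f = #{x ∈ X | f ∈ V_x}`.
(1) For every `f`: `N f * vol (TT K f) ≤ (1 + 4r/δ)^n 2^n vol K`. If `volume (TT K f) = 0` clear. Otherwise
`packing` with `T = TT K f`, `a = 2 r`, the finset `X.filter (f ∈ V_x)` and `hN_TT`:
`N f (δ/2)^n vol (pol K) ≤ (2r + δ/2)^n vol (pol T)`; multiply by `vol T` and use `du` (`Y = T`, `Z = K`).
(2) `∑_x ∫⁻ volume (TT V_x f) = ∑_x 2^-n volume (V_x)^2 ≥ |X| 2^-n (vol K / (2 16^n))^2`.
(3) `TT V_x f ⊆ TT K f`, and it is empty unless `f ∈ V_x ⊆ K` (`TT_mem`). So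
`∑_x volume (TT V_x f) ≤ N f volume (TT K f)`, which is zero for `f ∉ K`, and the integral over `K` is
`≤ (1 + 4r/δ)^n 2^n vol K * vol K`.
So `|X| ≤ 2^n (2 16^n)^2 2^n (1 + 4r/δ)^n = 4 1024^n (1 + 4r/δ)^n`.
-/

set_option autoImplicit false

open MeasureTheory Set
open scoped InnerProductSpace ENNReal Pointwise Nat

namespace Pool.Agent.MP5e7226.HL

variable {n : ℕ} {K : Set (E n)}

theorem du {Y Z : Set (E n)} (hY : SB Y) (hZ : SB Z) :
    vol Y * vol (pol Y) ≤ 2 ^ n * (vol Z * vol (pol Z)) := by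
  refine (santalo hY).trans ?_
  have h1 : (2 * Real.pi) ^ n / (n ! : ℝ) = 2 ^ n * (Real.pi ^ n / (n !)) := by
    rw [mul_pow, mul_div_assoc]
  rw [h1]
  exact mul_le_mul_of_nonneg_left (bourgain_milman hZ) (by positivity)

theorem cap_large (h : SB K) {x : E n} (hx : hN K x = 1) {j : ℕ} (hj : 1 ≤ j)
    (hjn : 1 ≤ (2 * (1 / 2 : ℝ) ^ j) * n)
    (hA : vol (Ax K x) ^ (2 ^ j) ≤ 2 ^ n * vol (pol K) ^ (2 ^ j)) :
    vol K ≤ 2 * 16 ^ n * vol (cap K x (2 * (2 * (1 / 2) ^ j))) := by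
  have hM := vol_Mx h hx hj hA
  obtain ⟨r, hr⟩ : ∃ r : ℝ, r = 2 * (1 / 2) ^ j := ⟨_, rfl⟩
  rw [← hr] at hM hjn ⊢
  have hr0 : 0 < r := by rw [hr]; positivity
  have hr1 : r ≤ 1 := by
    have h1 : (1 / 2 : ℝ) ^ j ≤ (1 / 2) ^ 1 :=
      pow_le_pow_of_le_one (by norm_num) (by norm_num) hj
    rw [hr]
    linarith
  have hZ := SB_Zx h hx hr0
  have h1 := du h hZ
  rw [pol_Zx K x r ((interior_cap h hx hr0).mono interior_subset)] at h1
  have hL : 0 < vol (pol K) := h.polar.vol_pos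
  have hZ0 : 0 < vol (Zx K x r) := hZ.vol_pos
  have h2 : vol K * vol (pol K) ≤ (4 ^ n * vol (Zx K x r)) * vol (pol K) := by
    refine h1.trans ?_
    have h3 : vol (Zx K x r) * vol (Mx K x r) ≤ vol (Zx K x r) * (2 ^ n * vol (pol K)) :=
      mul_le_mul_of_nonneg_left hM hZ0.le
    refine (mul_le_mul_of_nonneg_left h3 (by positivity)).trans (le_of_eq ?_)
    have h4 : (4 : ℝ) ^ n = 2 ^ n * 2 ^ n := by rw [← mul_pow]; norm_num
    rw [h4]
    ring
  have h3 : vol K ≤ 4 ^ n * vol (Zx K x r) := le_of_mul_le_mul_right h2 hL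
  have h4 := Zx_volume h hx hr0 hr1 hjn
  have h5 : (4 : ℝ) ^ n * vol (Zx K x r) ≤ 4 ^ n * (2 * 4 ^ n * vol (cap K x (2 * r))) :=
    mul_le_mul_of_nonneg_left h4 (by positivity)
  refine (h3.trans h5).trans (le_of_eq ?_)
  have h6 : (16 : ℝ) ^ n = 4 ^ n * 4 ^ n := by rw [← mul_pow]; norm_num
  rw [h6]
  ring

open Classical in
/-- the number of caps through a point times the volume of `TT K f` -/
theorem G5_point (h : SB K) {X : Finset (E n)} {δ r : ℝ} (hδ : 0 < δ) (hr : 0 < r)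
    (hsep : ∀ x ∈ X, ∀ y ∈ X, x ≠ y → δ ≤ hN K (x - y)) (hX : ∀ x ∈ X, hN K x = 1) (f : E n) :
    ((X.filter fun x => f ∈ cap K x (2 * r)).card : ℝ) * vol (TT K f) ≤
      (1 + 4 * r / δ) ^ n * 2 ^ n * vol K := by
  have hB : 0 ≤ (1 + 4 * r / δ) ^ n * 2 ^ n * vol K :=
    mul_nonneg (by positivity) (vol_nonneg K)
  by_cases hf : volume (TT K f) = 0
  · have h1 : vol (TT K f) = 0 := by
      unfold vol
      rw [hf, ENNReal.toReal_zero]
    rw [h1, mul_zero]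
    exact hB
  have hT := SB_TT h hf
  have h1 := packing h hT (TT_sub h f) (X := X.filter fun x => f ∈ cap K x (2 * r))
    (a := 2 * r) (δ := δ) (by positivity) hδ (fun x hx => by
      rw [Finset.mem_filter] at hx
      exact hN_TT h hf (hX x hx.1) hx.2) (fun x hx y hy hxy => by
      rw [Finset.mem_filter] at hx hy
      exact hsep x hx.1 y hy.1 hxy)
  have hL : 0 < vol (pol K) := h.polar.vol_pos
  have hTv : 0 < vol (TT K f) := hT.vol_pos
  obtain ⟨N, hN⟩ : ∃ N : ℝ, N = ((X.filter fun x => f ∈ cap K x (2 * r)).card : ℝ) := ⟨_, rfl⟩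
  rw [← hN] at h1 ⊢
  have h2 := du hT h
  have hc : 0 < (δ / 2) ^ n * vol (pol K) := mul_pos (by positivity) hL
  have h3 : ((δ / 2) ^ n * vol (pol K)) * (N * vol (TT K f)) ≤
      ((δ / 2) ^ n * vol (pol K)) * ((1 + 4 * r / δ) ^ n * 2 ^ n * vol K) := by
    have h4 : (2 * r + δ / 2) ^ n = (δ / 2) ^ n * (1 + 4 * r / δ) ^ n := by
      rw [← mul_pow]
      congr 1
      field_simp
      ring
    calc ((δ / 2) ^ n * vol (pol K)) * (N * vol (TT K f)) =
        (N * ((δ / 2) ^ n * vol (pol K))) * vol (TT K f) := by ring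
      _ ≤ ((2 * r + δ / 2) ^ n * vol (pol (TT K f))) * vol (TT K f) :=
        mul_le_mul_of_nonneg_right h1 hTv.le
      _ = (2 * r + δ / 2) ^ n * (vol (TT K f) * vol (pol (TT K f))) := by ring
      _ ≤ (2 * r + δ / 2) ^ n * (2 ^ n * (vol K * vol (pol K))) :=
        mul_le_mul_of_nonneg_left h2 (by positivity)
      _ = ((δ / 2) ^ n * vol (pol K)) * ((1 + 4 * r / δ) ^ n * 2 ^ n * vol K) := by
        rw [h4]
        ring
  exact le_of_mul_le_mul_left h3 hc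

theorem count_le (h : SB K) {X : Finset (E n)} {δ : ℝ} (hδ : 0 < δ)
    (hsep : ∀ x ∈ X, ∀ y ∈ X, x ≠ y → δ ≤ hN K (x - y)) (hX : ∀ x ∈ X, hN K x = 1) {j : ℕ}
    (hj : 1 ≤ j) (hjn : 1 ≤ (2 * (1 / 2 : ℝ) ^ j) * n)
    (hA : ∀ x ∈ X, vol (Ax K x) ^ (2 ^ j) ≤ 2 ^ n * vol (pol K) ^ (2 ^ j)) :
    (X.card : ℝ) ≤ 4 * 1024 ^ n * (1 + 4 * (2 * (1 / 2) ^ j) / δ) ^ n := by
  classical
  have hcap : ∀ x ∈ X, vol K ≤ 2 * 16 ^ n * vol (cap K x (2 * (2 * (1 / 2) ^ j))) :=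
    fun x hx => cap_large h (hX x hx) hj hjn (hA x hx)
  obtain ⟨r, hr⟩ : ∃ r : ℝ, r = 2 * (1 / 2) ^ j := ⟨_, rfl⟩
  rw [← hr] at hcap ⊢
  have hr0 : 0 < r := by rw [hr]; positivity
  obtain ⟨B, hB⟩ : ∃ B, B = (1 + 4 * r / δ) ^ n * 2 ^ n * vol K := ⟨_, rfl⟩
  have hK : 0 < vol K := h.vol_pos
  have hB0 : 0 ≤ B := by
    rw [hB]
    positivity
  have hVc : ∀ x, IsCompact (cap K x (2 * r)) := fun x => isCompact_cap h x _
  -- the pointwise bound
  have hpt : ∀ f, ∑ x ∈ X, volume (TT (cap K x (2 * r)) f) ≤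
      K.indicator (fun _ => ENNReal.ofReal B) f := by
    intro f
    have h1 : ∑ x ∈ X, volume (TT (cap K x (2 * r)) f) =
        ∑ x ∈ X.filter (fun x => f ∈ cap K x (2 * r)), volume (TT (cap K x (2 * r)) f) := by
      refine (Finset.sum_subset (Finset.filter_subset _ _) fun x hx hxf => ?_).symm
      have h2 : TT (cap K x (2 * r)) f = ∅ := by
        by_contra h3
        exact hxf (Finset.mem_filter.2 ⟨hx, TT_mem (convex_cap h x _)
          (nonempty_iff_ne_empty.2 h3)⟩)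
      rw [h2, measure_empty]
    rw [h1]
    by_cases hf : f ∈ K
    · rw [indicator_of_mem hf]
      have h2 : ∑ x ∈ X.filter (fun x => f ∈ cap K x (2 * r)), volume (TT (cap K x (2 * r)) f) ≤
          ∑ _x ∈ X.filter (fun x => f ∈ cap K x (2 * r)), volume (TT K f) :=
        Finset.sum_le_sum fun x _ => measure_mono (TT_mono (fun y hy => hy.1) f)
      refine h2.trans ?_
      rw [Finset.sum_const, nsmul_eq_mul]
      have h3 := G5_point h hδ hr0 hsep hX f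
      have h4 : volume (TT K f) ≠ ⊤ :=
        ((measure_mono (TT_sub h f)).trans_lt h.volume_lt_top).ne
      have h5 : ENNReal.ofReal (vol (TT K f)) = volume (TT K f) := ENNReal.ofReal_toReal h4
      rw [← h5, ← ENNReal.ofReal_natCast, ← ENNReal.ofReal_mul (Nat.cast_nonneg _)]
      refine ENNReal.ofReal_le_ofReal ?_
      rw [hB]
      exact h3
    · have h2 : X.filter (fun x => f ∈ cap K x (2 * r)) = ∅ :=
        Finset.filter_eq_empty_iff.2 fun x _ hx => hf hx.1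
      rw [h2, Finset.sum_empty]
      exact zero_le
  have h1 : ∫⁻ f, ∑ x ∈ X, volume (TT (cap K x (2 * r)) f) ≤ ENNReal.ofReal B * volume K := by
    refine (lintegral_mono hpt).trans (le_of_eq ?_)
    rw [lintegral_indicator_const h.measurableSet]
  rw [lintegral_finsetSum _ (fun x _ => measurable_TT (hVc x))] at h1
  have h2 : ∑ x ∈ X, ∫⁻ f, volume (TT (cap K x (2 * r)) f) =
      ∑ x ∈ X, ENNReal.ofReal ((1 / 2) ^ n) * volume (cap K x (2 * r)) ^ 2 :=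
    Finset.sum_congr rfl fun x _ => lintegral_TT (hVc x)
  rw [h2] at h1
  have h3 : ∑ x ∈ X, (1 / 2 : ℝ) ^ n * vol (cap K x (2 * r)) ^ 2 ≤ B * vol K := by
    have h4 := ENNReal.toReal_mono
      (ENNReal.mul_ne_top ENNReal.ofReal_ne_top h.volume_lt_top.ne) h1
    rw [ENNReal.toReal_mul, ENNReal.toReal_ofReal hB0, ENNReal.toReal_sum] at h4
    · refine le_trans (le_of_eq ?_) h4
      refine Finset.sum_congr rfl fun x _ => ?_
      rw [ENNReal.toReal_mul, ENNReal.toReal_ofReal (by positivity), ENNReal.toReal_pow]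
      rfl
    · intro x _
      exact ENNReal.mul_ne_top ENNReal.ofReal_ne_top
        (ENNReal.pow_ne_top (hVc x).measure_lt_top.ne)
  obtain ⟨v, hv⟩ : ∃ v, v = vol K / (2 * 16 ^ n) := ⟨_, rfl⟩
  have hv0 : 0 < v := by
    rw [hv]
    positivity
  have h4 : (X.card : ℝ) * ((1 / 2) ^ n * v ^ 2) ≤ B * vol K := by
    refine le_trans ?_ h3
    rw [← nsmul_eq_mul, ← Finset.sum_const]
    refine Finset.sum_le_sum fun x hx => ?_
    refine mul_le_mul_of_nonneg_left (pow_le_pow_left₀ hv0.le ?_ 2) (by positivity)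
    rw [hv, div_le_iff₀ (by positivity)]
    refine (hcap x hx).trans (le_of_eq ?_)
    ring
  have h5 : vol K = 2 * 16 ^ n * v := by
    rw [hv]
    field_simp
  rw [hB, h5] at h4
  have h6 : 0 < (1 / 2 : ℝ) ^ n * v ^ 2 := by positivity
  have h7 : (X.card : ℝ) * ((1 / 2) ^ n * v ^ 2) ≤
      (4 * 1024 ^ n * (1 + 4 * r / δ) ^ n) * ((1 / 2) ^ n * v ^ 2) := by
    refine h4.trans (le_of_eq ?_)
    have h8 : (1024 : ℝ) ^ n = 2 ^ n * 2 ^ n * 16 ^ n * 16 ^ n := by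
      rw [← mul_pow, ← mul_pow, ← mul_pow]
      norm_num
    have h9 : (2 : ℝ) ^ n * (1 / 2) ^ n = 1 := by
      rw [← mul_pow]
      norm_num
    rw [h8]
    linear_combination (-(4 * 2 ^ n * 16 ^ n * 16 ^ n * (1 + 4 * r / δ) ^ n * v ^ 2)) * h9
  exact le_of_mul_le_mul_right h7 h6

end Pool.Agent.MP5e7226.HL
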