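import Mathlib
import Pool.Agent.Lib.MP_5e7226_co.HL.G1
import Pool.Agent.Lib.MP_5e7226_co.HL.G5
import Pool.Agent.Lib.MP_5e7226_co.HL.C1
import Pool.Agent.Lib.MP_5e7226_co.HL.C2
import Pool.Agent.Lib.MP_5e7226_co.HL.C3

/-!
Task HL C4: the covering theorem.

PROOF. `η = 1/(16 n)`, `δ = η/2 = 1/(32 n)`, `S` the net of `exists_net` (`2/δ = 64 n`), `L = pol K`,
`g x = vol (Ax K x) / vol L ≥ 1` (`pol_subset_Ax`). `μ` = the normalised volume on `L`, i.e.
`(volume L)⁻¹ • volume.restrict L` (`ProbabilityTheory.cond` or by hand). `C x = {b | hN K b ≤ 1 ∧ hN K (x - b) ≤ 1 - η}`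
has `μ (C x) = volume (C x) / volume L ≥ ((1 - 2η)/2)^n g x ≥ (7/8) 2^-n g x =: p x` (`hit`; Bernoulli
`(1 - 1/(8n))^n ≥ 7/8`, `one_add_mul_le_pow`). `m = 16 n 2^n`: `(1 - p x)^m ≤ exp(-m p x) = exp(-14 n g x)` (note
`p x ≤ 1` since `μ` is a probability measure). `level_sum` with the counts from `count_le`
(`4 * (2 (1/2)^j)/δ = 256 n/2^j`; the condition `2^j ≤ 2 n` is `1 ≤ 2 (1/2)^j n`; `vol (Ax)^(2^j) ≤ 2^n vol L^(2^j)`
iff `g^(2^j) ≤ 2^n`). So `derand` gives `b : Fin m → E n` with at most `n 2^n` points `x ∈ S` which are in no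
`C`-relation; add these points themselves. Total number `N ≤ 17 n 2^n`. For `x` with `hN K x = 1` take
`y ∈ S` with `hN K (x - y) < η/2`; if `hN K (y - b i) ≤ 1 - η` then `hN K (x - b i) ≤ 1 - η/2`; otherwise `b = y` works,
`hN K (x - y) < η/2 ≤ 1 - η/2`. The union of the two families as a function on `Fin N`: finite set of
points `T` with `T.card ≤ 17 n 2^n` is the convenient form.
-/

set_option autoImplicit false

open MeasureTheory Set
open scoped InnerProductSpace ENNReal Pointwise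

namespace Pool.Agent.MP5e7226.HL

variable {n : ℕ} {K : Set (E n)}

theorem cover (hn : 1 ≤ n) (h : SB K) :
    ∃ T : Finset (E n), T.card ≤ 17 * n * 2 ^ n ∧ ∃ ε : ℝ, 0 < ε ∧
      ∀ x, hN K x = 1 → ∃ b ∈ T, hN K (x - b) ≤ 1 - ε := by
  classical
  have hn' : (1 : ℝ) ≤ n := by exact_mod_cast hn
  have hn0 : (0 : ℝ) < n := by linarith
  set η : ℝ := 1 / (16 * n) with hη
  have hη0 : 0 < η := by positivity
  have hη16 : η ≤ 1 / 16 := by
    rw [hη]
    apply one_div_le_one_div_of_le (by norm_num)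
    linarith
  have hη1 : η < 1 / 2 := by linarith
  have hδ : 0 < η / 2 := by positivity
  obtain ⟨S, hS1, hS2, hS3, hS4⟩ := exists_net h hδ
  have hL : SB (pol K) := h.polar
  have hLv : 0 < vol (pol K) := hL.vol_pos
  set g : E n → ℝ := fun x => vol (Ax K x) / vol (pol K) with hgdef
  have hg : ∀ x ∈ S, 1 ≤ g x := by
    intro x hx
    rw [hgdef]
    simp only
    rw [le_div_iff₀ hLv, one_mul]
    exact vol_mono (pol_subset_Ax h (hS1 x hx)) (isCompact_Ax h x)
  -- the normalised volume on the polar body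
  let μ : Measure (E n) := (volume (pol K))⁻¹ • volume.restrict (pol K)
  have hprob : IsProbabilityMeasure μ := by
    refine ⟨?_⟩
    rw [Measure.smul_apply, Measure.restrict_apply_univ, smul_eq_mul]
    exact ENNReal.inv_mul_cancel hL.volume_pos.ne' hL.volume_lt_top.ne
  obtain ⟨C, hC⟩ : ∃ C : E n → Set (E n),
      ∀ x, C x = {b | hN K b ≤ 1 ∧ hN K (x - b) ≤ 1 - η} := ⟨_, fun _ => rfl⟩
  have hCm : ∀ x, MeasurableSet (C x) := fun x => by
    rw [hC x]
    exact ((isClosed_le h.continuous_hN continuous_const).inter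
      (isClosed_le (h.continuous_hN.comp (continuous_const.sub continuous_id))
        continuous_const)).measurableSet
  have hCsub : ∀ x, C x ⊆ pol K := fun x b hb => by
    rw [hC x] at hb
    exact h.mem_pol.2 hb.1
  have hμC : ∀ x, (μ (C x)).toReal = (vol (pol K))⁻¹ * vol (C x) := by
    intro x
    rw [Measure.smul_apply, Measure.restrict_apply (hCm x), inter_eq_left.2 (hCsub x),
      smul_eq_mul, ENNReal.toReal_mul, ENNReal.toReal_inv]
    rfl
  have hber : (7 / 8 : ℝ) * (1 / 2) ^ n ≤ ((1 - 2 * η) / 2) ^ n := by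
    have h1 : (7 / 8 : ℝ) ≤ (1 - 2 * η) ^ n := by
      have h2 := one_add_mul_le_pow (a := -(2 * η)) (by linarith) n
      have e : (1 : ℝ) + n * -(2 * η) = 7 / 8 := by
        rw [hη]
        field_simp
        ring
      rw [e] at h2
      exact h2
    have e : ((1 - 2 * η) / 2) ^ n = (1 - 2 * η) ^ n * (1 / 2) ^ n := by
      rw [← mul_pow]
      congr 1
      ring
    rw [e]
    exact mul_le_mul_of_nonneg_right h1 (by positivity)
  set p : E n → ℝ := fun x => 7 / 8 * (1 / 2) ^ n * g x with hpdef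
  have hp0 : ∀ x ∈ S, 0 ≤ p x := by
    intro x hx
    have := hg x hx
    rw [hpdef]
    positivity
  have hp : ∀ x ∈ S, p x ≤ (μ (C x)).toReal := by
    intro x hx
    have h1 := hit h (hS1 x hx) hη0 hη1
    rw [← hC x] at h1
    have hfin : volume (C x) ≠ ⊤ := ((measure_mono (hCsub x)).trans_lt hL.volume_lt_top).ne
    have h2 : ((1 - 2 * η) / 2) ^ n * vol (Ax K x) ≤ vol (C x) := by
      have h3 := ENNReal.toReal_mono hfin h1
      rw [ENNReal.toReal_mul, ENNReal.toReal_ofReal (by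
        have : 0 ≤ (1 - 2 * η) / 2 := by linarith
        positivity)] at h3
      exact h3
    rw [hμC]
    have h4 : 7 / 8 * (1 / 2) ^ n * vol (Ax K x) ≤ vol (C x) :=
      (mul_le_mul_of_nonneg_right hber (vol_nonneg _)).trans h2
    have e : p x = (vol (pol K))⁻¹ * (7 / 8 * (1 / 2) ^ n * vol (Ax K x)) := by
      rw [hpdef, hgdef]
      simp only
      rw [div_eq_mul_inv]
      ring
    rw [e]
    exact mul_le_mul_of_nonneg_left h4 (by positivity)
  obtain ⟨b, hb⟩ := derand μ S C (fun x _ => hCm x) p hp0 hp (16 * n * 2 ^ n)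
  have hle : ∑ x ∈ S, (1 - p x) ^ (16 * n * 2 ^ n) ≤ ∑ x ∈ S, Real.exp (-(14 * n * g x)) := by
    refine Finset.sum_le_sum fun x hx => ?_
    have h1 : p x ≤ 1 := by
      refine (hp x hx).trans ?_
      have h2 : μ (C x) ≤ 1 := prob_le_one
      have h3 := ENNReal.toReal_mono ENNReal.one_ne_top h2
      rwa [ENNReal.toReal_one] at h3
    have h2 : 1 - p x ≤ Real.exp (-(p x)) := Real.one_sub_le_exp_neg _
    calc (1 - p x) ^ (16 * n * 2 ^ n) ≤ (Real.exp (-(p x))) ^ (16 * n * 2 ^ n) :=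
          pow_le_pow_left₀ (by linarith) h2 _
      _ = Real.exp (-(14 * n * g x)) := by
          rw [← Real.exp_nat_mul]
          congr 1
          rw [hpdef]
          push_cast
          have e : (2 : ℝ) ^ n * (1 / 2) ^ n = 1 := by
            rw [← mul_pow]
            norm_num
          calc 16 * (n : ℝ) * 2 ^ n * -(7 / 8 * (1 / 2) ^ n * g x)
              = -(14 * n * g x) * (2 ^ n * (1 / 2) ^ n) := by ring
            _ = -(14 * n * g x) := by rw [e, mul_one]
  have hSc : (S.card : ℝ) ≤ (1 + 64 * n) ^ n := by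
    have e : 2 / (η / 2) = 64 * (n : ℝ) := by
      rw [hη]
      field_simp
      norm_num
    rw [← e]
    exact hS4
  have hcount : ∀ j : ℕ, 1 ≤ j → 2 ^ j ≤ 2 * n →
      ((S.filter fun x => g x ^ (2 ^ j) ≤ 2 ^ n).card : ℝ) ≤
        4 * 1024 ^ n * (1 + 256 * (n / 2 ^ j)) ^ n := by
    intro j hj hjn
    have hjn' : (2 : ℝ) ^ j ≤ 2 * n := by exact_mod_cast hjn
    have h2j : (0 : ℝ) < 2 ^ j := by positivity
    have h1 := count_le h (X := S.filter fun x => g x ^ (2 ^ j) ≤ 2 ^ n) hδ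
      (fun x hx y hy hxy => hS2 x (Finset.mem_filter.1 hx).1 y (Finset.mem_filter.1 hy).1 hxy)
      (fun x hx => hS1 x (Finset.mem_filter.1 hx).1) hj (by
        rw [one_div, inv_pow, mul_assoc, inv_mul_eq_div, mul_div_assoc', le_div_iff₀ h2j, one_mul]
        exact hjn') (fun x hx => by
        have h3 := (Finset.mem_filter.1 hx).2
        rw [hgdef] at h3
        simp only at h3
        rw [div_pow, div_le_iff₀ (by positivity)] at h3
        exact h3)
    have e : 4 * (2 * (1 / 2 : ℝ) ^ j) / (η / 2) = 256 * (n / 2 ^ j) := by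
      rw [hη, one_div, inv_pow]
      field_simp
      norm_num
    rw [e] at h1
    exact h1
  have hsum := level_sum hn S g hg hSc hcount
  obtain ⟨B, hBs, hB⟩ : ∃ B : Finset (E n), (B.card : ℝ) ≤ ∑ x ∈ S, (1 - p x) ^ (16 * n * 2 ^ n) ∧
      ∀ y ∈ S, y ∉ B → ∃ i, b i ∈ C y := by
    refine ⟨_, hb, fun y hy hyB => ?_⟩
    by_contra hcon
    push Not at hcon
    exact hyB (Finset.mem_filter.2 ⟨hy, hcon⟩)
  have hBc : B.card ≤ n * 2 ^ n := by
    have h1 : (B.card : ℝ) ≤ n * 2 ^ n := hBs.trans (hle.trans hsum)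
    exact_mod_cast h1
  refine ⟨B ∪ Finset.univ.image b, ?_, η / 2, hδ, ?_⟩
  · refine (Finset.card_union_le _ _).trans ?_
    have h1 : (Finset.univ.image b).card ≤ 16 * n * 2 ^ n := by
      refine Finset.card_image_le.trans ?_
      rw [Finset.card_univ, Fintype.card_fin]
    calc B.card + (Finset.univ.image b).card ≤ n * 2 ^ n + 16 * n * 2 ^ n := by omega
      _ = 17 * n * 2 ^ n := by ring
  · intro x hx
    obtain ⟨y, hy, hxy⟩ := hS3 x hx
    by_cases hyB : y ∈ B
    · exact ⟨y, Finset.mem_union_left _ hyB, by linarith⟩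
    · obtain ⟨i, hi⟩ := hB y hy hyB
      refine ⟨b i, Finset.mem_union_right _ (Finset.mem_image_of_mem _ (Finset.mem_univ i)), ?_⟩
      have h2 := h.hN_add_le (x - y) (y - b i)
      rw [sub_add_sub_cancel] at h2
      rw [hC y] at hi
      have h3 := hi.2
      linarith

end Pool.Agent.MP5e7226.HL
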