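import Mathlib
import Pool.Agent.Lib.MP_5e7226_co.HL.C4

/-!
Task HL C5: separation of the faces of a centrally symmetric body from its centre.

PROOF. `K' = (fun x => x - o) '' K` (or `{y | o + y ∈ K}`) is a body symmetric about `0` (`SB`). Take `T`, `ε` from
`cover`; enumerate `T` (`T.equivFin`, padded to `Fin (17 n 2^n)` by the zero vector, or use
`Finset.exists_..`), `w i = b i`, `β i = ⟪b i, o⟫ + ε/2`. Let `u ≠ 0`, `x₀ ∈ K` maximal for `⟪u, ·⟫`. Then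
`hN K' u = ⟪u, x₀ - o⟫ > 0`, `x = (hN K' u)⁻¹ • u`, `hN K' x = 1`, `b ∈ T` with `hN K' (x - b) ≤ 1 - ε`. For `y ∈ K` with
`⟪u, y⟫ = ⟪u, x₀⟫`: `f = y - o ∈ K'`, `⟪f, x⟫ = 1`, `⟪f, x - b⟫ ≤ 1 - ε`, so `⟪f, b⟫ ≥ ε > ε/2`. And `⟪b, o⟫ < ⟪b, o⟫ + ε/2`.
-/

set_option autoImplicit false

open MeasureTheory Set
open scoped InnerProductSpace ENNReal Pointwise

namespace Pool.Agent.MP5e7226.HL

variable {n : ℕ}

theorem separated (hn : 1 ≤ n) {K : Set (E n)} (hc : Convex ℝ K) (hK : IsCompact K) {o : E n}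
    (ho : o ∈ interior K) (hs : ∀ x ∈ K, o + (o - x) ∈ K) :
    ∃ w : Fin (17 * n * 2 ^ n) → E n, ∃ β : Fin (17 * n * 2 ^ n) → ℝ,
      ∀ u x₀ : E n, u ≠ 0 → x₀ ∈ K → (∀ y ∈ K, ⟪u, y⟫_ℝ ≤ ⟪u, x₀⟫_ℝ) →
        ∃ i, ⟪w i, o⟫_ℝ < β i ∧ ∀ x ∈ K, ⟪u, x⟫_ℝ = ⟪u, x₀⟫_ℝ → β i < ⟪w i, x⟫_ℝ := by
  have hSB : SB {y : E n | o + y ∈ K} := by
    refine ⟨hc.translate_preimage_right o, ?_, ?_, ?_⟩
    · exact (Homeomorph.addLeft o).isCompact_preimage.2 hK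
    · intro y hy
      have h1 := hs _ hy
      have e : o + (o - (o + y)) = o + -y := by abel
      rw [e] at h1
      exact h1
    · have h1 : interior ((Homeomorph.addLeft o) ⁻¹' K) = (Homeomorph.addLeft o) ⁻¹' interior K :=
        ((Homeomorph.addLeft o).preimage_interior K).symm
      change (0 : E n) ∈ interior ((Homeomorph.addLeft o) ⁻¹' K)
      rw [h1]
      change o + 0 ∈ interior K
      rw [add_zero]
      exact ho
  set K' : Set (E n) := {y : E n | o + y ∈ K} with hK'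
  obtain ⟨T, hT, ε, hε, hcov⟩ := cover hn hSB
  let w : Fin (17 * n * 2 ^ n) → E n := fun i =>
    if hi : (i : ℕ) < T.card then (T.equivFin.symm ⟨i, hi⟩ : E n) else 0
  have hw : ∀ b ∈ T, ∃ i, w i = b := by
    intro b hb
    refine ⟨Fin.castLE hT (T.equivFin ⟨b, hb⟩), ?_⟩
    have hi : ((Fin.castLE hT (T.equivFin ⟨b, hb⟩) : Fin (17 * n * 2 ^ n)) : ℕ) < T.card :=
      (T.equivFin ⟨b, hb⟩).2
    change (if hi : ((Fin.castLE hT (T.equivFin ⟨b, hb⟩) : Fin (17 * n * 2 ^ n)) : ℕ) < T.card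
      then (T.equivFin.symm ⟨_, hi⟩ : E n) else 0) = b
    rw [dif_pos hi]
    have e : (⟨((Fin.castLE hT (T.equivFin ⟨b, hb⟩) : Fin (17 * n * 2 ^ n)) : ℕ), hi⟩ : Fin T.card)
        = T.equivFin ⟨b, hb⟩ := Fin.ext rfl
    rw [e, Equiv.symm_apply_apply]
  refine ⟨w, fun i => ⟪w i, o⟫_ℝ + ε / 2, ?_⟩
  intro u x₀ hu hx₀ hmax
  have hx₀' : x₀ - o ∈ K' := by
    change o + (x₀ - o) ∈ K
    rwa [add_sub_cancel]
  have hval : hN K' u = ⟪x₀ - o, u⟫_ℝ := by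
    refine le_antisymm (hSB.hN_le_iff.2 fun y hy => ?_) (hSB.le_hN hx₀' u)
    have h1 := hmax (o + y) hy
    rw [inner_add_right] at h1
    rw [inner_sub_left, real_inner_comm u y, real_inner_comm u x₀, real_inner_comm u o]
    linarith
  have hpos : 0 < hN K' u := hSB.hN_pos hu
  obtain ⟨b, hbT, hb⟩ := hcov ((hN K' u)⁻¹ • u) (by
    rw [hSB.hN_smul, abs_of_pos (inv_pos.2 hpos), inv_mul_cancel₀ hpos.ne'])
  obtain ⟨i, hi⟩ := hw b hbT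
  refine ⟨i, by linarith, fun y hy hyu => ?_⟩
  have hf : y - o ∈ K' := by
    change o + (y - o) ∈ K
    rwa [add_sub_cancel]
  have h1 : ⟪y - o, (hN K' u)⁻¹ • u⟫_ℝ = 1 := by
    have h2 : ⟪y - o, u⟫_ℝ = hN K' u := by
      rw [hval, inner_sub_left, inner_sub_left, real_inner_comm u y, hyu, real_inner_comm u x₀]
    rw [inner_smul_right, h2, inv_mul_cancel₀ hpos.ne']
  have h2 := (hSB.hN_le_iff.1 hb) (y - o) hf
  rw [inner_sub_right, h1] at h2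
  have h3 : ⟪y - o, b⟫_ℝ = ⟪b, y⟫_ℝ - ⟪b, o⟫_ℝ := by
    rw [real_inner_comm, inner_sub_right]
  rw [h3] at h2
  change ⟪w i, o⟫_ℝ + ε / 2 < ⟪w i, y⟫_ℝ
  rw [hi]
  linarith

end Pool.Agent.MP5e7226.HL
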