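import Mathlib
import Pool.Agent.Lib.MP_5e7226_co.HL.C5

/-!
The bipolar theorem; bodies whose polar body at `o` has a centre of symmetry; illumination.
-/

set_option autoImplicit false

open MeasureTheory Set
open scoped InnerProductSpace ENNReal Pointwise

namespace Pool.Agent.MP5e7226.HL

variable {n : ℕ}

theorem C6_bipolar {L : Set (E n)} (h : SB L) {x : E n} (hx : x ∈ pol (pol L)) : x ∈ L := by
  by_contra hxL
  obtain ⟨f, u, hf1, hf2⟩ := geometric_hahn_banach_closed_point h.conv h.comp.isClosed hxL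
  have hu : 0 < u := by
    have := hf1 0 h.zero_mem
    simpa using this
  set g : E n := (InnerProductSpace.toDual ℝ (E n)).symm f with hg
  have hgf : ∀ y, ⟪g, y⟫_ℝ = f y := fun y => by
    rw [hg, InnerProductSpace.toDual_symm_apply]
  have h1 : u⁻¹ • g ∈ pol L := by
    intro y hy
    rw [inner_smul_right, real_inner_comm, hgf]
    rw [inv_mul_le_iff₀ hu, mul_one]
    exact (hf1 y hy).le
  have h2 := hx _ h1
  rw [inner_smul_left, hgf, conj_trivial, inv_mul_le_iff₀ hu, mul_one] at h2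
  linarith

theorem C6_le_one {L : Set (E n)} (h : SB L) {x : E n} : hN (pol L) x ≤ 1 ↔ x ∈ L := by
  rw [← h.polar.mem_pol]
  refine ⟨C6_bipolar h, fun hx y hy => ?_⟩
  rw [real_inner_comm]
  exact hy x hx

theorem C6_le {L : Set (E n)} (h : SB L) {x : E n} {r : ℝ} (hr : 0 < r) (hx : hN (pol L) x ≤ r) :
    r⁻¹ • x ∈ L := by
  rw [← C6_le_one h, h.polar.hN_smul, abs_of_pos (inv_pos.2 hr), inv_mul_le_iff₀ hr, mul_one]
  exact hx

theorem C6_lt {L : Set (E n)} (h : SB L) {x : E n} (hx : hN (pol L) x < 1) : x ∈ interior L := by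
  rw [mem_interior]
  refine ⟨{y | hN (pol L) y < 1}, fun y hy => (C6_le_one h).1 (le_of_lt hy), ?_, hx⟩
  exact isOpen_lt h.polar.continuous_hN continuous_const

theorem C6_frontier {L : Set (E n)} (h : SB L) {x : E n} (hx : x ∈ L) (hx' : x ∉ interior L) :
    hN (pol L) x = 1 := by
  refine le_antisymm ((C6_le_one h).2 hx) ?_
  by_contra hlt
  exact hx' (C6_lt h (not_le.1 hlt))

/-- enumeration of a finite set -/
theorem C6_enum {α : Type*} (T : Finset α) {N : ℕ} (hT : T.card ≤ N) (a : α) :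
    ∃ w : Fin N → α, (∀ i, w i ∈ T ∨ w i = a) ∧ ∀ b ∈ T, ∃ i, w i = b := by
  classical
  refine ⟨fun i => if hi : (i : ℕ) < T.card then (T.equivFin.symm ⟨i, hi⟩ : α) else a, ?_, ?_⟩
  · intro i
    by_cases hi : (i : ℕ) < T.card
    · left
      simp only [hi, dite_true]
      exact (T.equivFin.symm ⟨i, hi⟩).2
    · right
      simp only [hi, dite_false]
  · intro b hb
    refine ⟨Fin.castLE hT (T.equivFin ⟨b, hb⟩), ?_⟩
    have hi : ((Fin.castLE hT (T.equivFin ⟨b, hb⟩) : Fin N) : ℕ) < T.card :=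
      (T.equivFin ⟨b, hb⟩).2
    simp only [hi, dite_true]
    have e : (⟨((Fin.castLE hT (T.equivFin ⟨b, hb⟩) : Fin N) : ℕ), hi⟩ : Fin T.card)
        = T.equivFin ⟨b, hb⟩ := Fin.ext rfl
    rw [e, Equiv.symm_apply_apply]

/-- the cover for a body given by itself, not by its polar -/
theorem C6_cover (hn : 1 ≤ n) {L : Set (E n)} (h : SB L) :
    ∃ T : Finset (E n), T.card ≤ 17 * n * 2 ^ n ∧ ∃ ε : ℝ, 0 < ε ∧ ε < 1 ∧
      ∀ x ∈ L, x ∉ interior L → ∃ b ∈ T, hN (pol L) (x - b) ≤ 1 - ε := by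
  obtain ⟨T, hT, ε, hε, hcov⟩ := cover hn h.polar
  refine ⟨T, hT, min ε (1 / 2), lt_min hε (by norm_num), (min_le_right _ _).trans_lt (by norm_num),
    fun x hx hx' => ?_⟩
  obtain ⟨b, hb, hxb⟩ := hcov x (C6_frontier h hx hx')
  exact ⟨b, hb, hxb.trans (by linarith [min_le_left ε (1 / 2)])⟩

theorem separated_polar (hn : 1 ≤ n) {K : Set (E n)} (hK : IsCompact K) {o : E n}
    (ho : o ∈ interior K) {z : E n}
    (hz : ∀ x : E n, (∀ y ∈ K, ⟪x, y - o⟫_ℝ ≤ 1) → ∀ y ∈ K, ⟪z + (z - x), y - o⟫_ℝ ≤ 1) :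
    ∃ w : Fin (17 * n * 2 ^ n) → E n, ∃ β : Fin (17 * n * 2 ^ n) → ℝ,
      ∀ u x₀ : E n, u ≠ 0 → x₀ ∈ K → (∀ y ∈ K, ⟪u, y⟫_ℝ ≤ ⟪u, x₀⟫_ℝ) →
        ∃ i, ⟪w i, o⟫_ℝ < β i ∧ ∀ x ∈ K, ⟪u, x⟫_ℝ = ⟪u, x₀⟫_ℝ → β i < ⟪w i, x⟫_ℝ := by
  -- the polar body
  set L : Set (E n) := {x | ∀ y ∈ K, ⟪x, y - o⟫_ℝ ≤ 1} with hL
  have hLconv : Convex ℝ L := by
    intro x hx y hy a b ha hb hab v hv
    rw [inner_add_left, inner_smul_left, inner_smul_left, conj_trivial, conj_trivial]
    have h1 := mul_le_mul_of_nonneg_left (hx v hv) ha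
    have h2 := mul_le_mul_of_nonneg_left (hy v hv) hb
    linarith
  have hLclosed : IsClosed L := by
    have : L = ⋂ y ∈ K, {x : E n | ⟪x, y - o⟫_ℝ ≤ 1} := by
      ext x
      simp [hL]
    rw [this]
    exact isClosed_biInter fun y _ => isClosed_le (by fun_prop) continuous_const
  obtain ⟨r, hr, hball⟩ := Metric.isOpen_iff.1 isOpen_interior o ho
  have hLbd : ∀ x ∈ L, ‖x‖ ≤ 2 / r := by
    intro x hx
    by_cases hx0 : x = 0
    · rw [hx0, norm_zero]
      positivity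
    have hxn : 0 < ‖x‖ := norm_pos_iff.2 hx0
    have hmem : o + (r / 2 / ‖x‖) • x ∈ K := by
      apply interior_subset
      apply hball
      rw [Metric.mem_ball, dist_eq_norm, add_sub_cancel_left, norm_smul, Real.norm_eq_abs,
        abs_of_pos (by positivity), div_mul_cancel₀ _ hxn.ne']
      linarith
    have h1 := hx _ hmem
    rw [add_sub_cancel_left, inner_smul_right, real_inner_self_eq_norm_sq] at h1
    have h2 : r / 2 / ‖x‖ * ‖x‖ ^ 2 = r / 2 * ‖x‖ := by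
      field_simp
    rw [h2] at h1
    rw [le_div_iff₀ hr]
    linarith
  have hLcomp : IsCompact L := by
    refine Metric.isCompact_of_isClosed_isBounded hLclosed ?_
    exact (Metric.isBounded_closedBall (x := (0 : E n)) (r := 2 / r)).subset fun x hx =>
      mem_closedBall_zero_iff.2 (hLbd x hx)
  obtain ⟨R, hR, hKR⟩ : ∃ R, 0 < R ∧ ∀ y ∈ K, ‖y - o‖ ≤ R := by
    obtain ⟨R, hR⟩ := hK.isBounded.exists_norm_le
    refine ⟨max (R + ‖o‖) 1, by positivity, fun y hy => ?_⟩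
    exact ((norm_sub_le y o).trans (add_le_add (hR y hy) le_rfl)).trans (le_max_left _ _)
  have hL0 : Metric.ball (0 : E n) (1 / R) ⊆ L := by
    intro x hx y hy
    rw [mem_ball_zero_iff, lt_div_iff₀ hR] at hx
    calc ⟪x, y - o⟫_ℝ ≤ ‖x‖ * ‖y - o‖ := real_inner_le_norm _ _
      _ ≤ ‖x‖ * R := mul_le_mul_of_nonneg_left (hKR y hy) (norm_nonneg _)
      _ ≤ 1 := hx.le
  -- the centred polar body
  set L0 : Set (E n) := (fun v => z + v) ⁻¹' L with hL0def
  have hL0conv : Convex ℝ L0 := hLconv.translate_preimage_right z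
  have hL0comp : IsCompact L0 := (Homeomorph.addLeft z).isCompact_preimage.2 hLcomp
  have hL0neg : ∀ x ∈ L0, -x ∈ L0 := by
    intro x hx y hy
    have h1 := hz (z + x) hx y hy
    have e : z + (z - (z + x)) = z + -x := by abel
    rw [e] at h1
    exact h1
  have hL0vol : volume L0 ≠ 0 := by
    have h1 : Metric.ball (-z) (1 / R) ⊆ L0 := by
      intro x hx
      apply hL0
      rw [mem_ball_zero_iff]
      rw [Metric.mem_ball, dist_eq_norm, sub_neg_eq_add] at hx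
      change ‖z + x‖ < 1 / R
      rwa [add_comm]
    have h2 : 0 < volume (Metric.ball (-z) (1 / R)) := Metric.measure_ball_pos _ _ (by positivity)
    exact (h2.trans_le (measure_mono h1)).ne'
  have hSB : SB L0 := SB.of_volume hL0conv hL0comp hL0neg hL0vol
  obtain ⟨T, hT, ε, hε, hε1, hcov⟩ := C6_cover hn hSB
  obtain ⟨w, -, hw⟩ := C6_enum T hT 0
  -- a ball around the centre
  obtain ⟨ρ, hρ, hball0⟩ := Metric.isOpen_iff.1 isOpen_interior (0 : E n) hSB.int
  have hzf : ∀ f : E n, (∀ x ∈ L, ⟪x, f⟫_ℝ ≤ 1) → (∃ x ∈ L, ⟪x, f⟫_ℝ = 1) →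
      ρ * r / 4 ≤ 1 - ⟪z, f⟫_ℝ := by
    rintro f hf ⟨x, hx, hxf⟩
    have hf0 : f ≠ 0 := by
      rintro rfl
      rw [inner_zero_right] at hxf
      norm_num at hxf
    have hfn : 0 < ‖f‖ := norm_pos_iff.2 hf0
    have h1 : r / 2 ≤ ‖f‖ := by
      have h2 : 1 ≤ ‖x‖ * ‖f‖ := hxf ▸ real_inner_le_norm x f
      have h3 : ‖x‖ * ‖f‖ ≤ 2 / r * ‖f‖ := mul_le_mul_of_nonneg_right (hLbd x hx) hfn.le
      have h4 : 1 ≤ 2 / r * ‖f‖ := h2.trans h3
      rw [div_mul_eq_mul_div, le_div_iff₀ hr] at h4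
      linarith
    have h2 : (ρ / 2 / ‖f‖) • f ∈ L0 := by
      apply interior_subset
      apply hball0
      rw [mem_ball_zero_iff, norm_smul, Real.norm_eq_abs, abs_of_pos (by positivity),
        div_mul_cancel₀ _ hfn.ne']
      linarith
    have h3 := hf _ h2
    rw [inner_add_left, inner_smul_left, conj_trivial, real_inner_self_eq_norm_sq] at h3
    have h4 : ρ / 2 / ‖f‖ * ‖f‖ ^ 2 = ρ / 2 * ‖f‖ := by field_simp
    rw [h4] at h3
    have h5 : ρ / 2 * (r / 2) ≤ ρ / 2 * ‖f‖ := mul_le_mul_of_nonneg_left h1 (by positivity)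
    linarith
  set c : ℝ := ρ * r / 4 with hc
  have hcpos : 0 < c := by positivity
  refine ⟨w, fun i => ⟪w i, o⟫_ℝ + ε * c / 2, ?_⟩
  intro u x₀ hu hx₀ hmax
  -- the support number is positive
  have hun : 0 < ‖u‖ := norm_pos_iff.2 hu
  have hpos : 0 < ⟪u, x₀ - o⟫_ℝ := by
    have hmem : o + (r / 2 / ‖u‖) • u ∈ K := by
      apply interior_subset
      apply hball
      rw [Metric.mem_ball, dist_eq_norm, add_sub_cancel_left, norm_smul, Real.norm_eq_abs,
        abs_of_pos (by positivity), div_mul_cancel₀ _ hun.ne']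
      linarith
    have h1 := hmax _ hmem
    rw [inner_add_right, inner_smul_right, real_inner_self_eq_norm_sq] at h1
    rw [inner_sub_right]
    have : 0 < r / 2 / ‖u‖ * ‖u‖ ^ 2 := by positivity
    linarith
  set t : ℝ := ⟪u, x₀ - o⟫_ℝ with ht
  have hxL : t⁻¹ • u ∈ L := by
    intro y hy
    rw [inner_smul_left, conj_trivial, inv_mul_le_iff₀ hpos, mul_one, ht, inner_sub_right,
      inner_sub_right]
    linarith [hmax y hy]
  have hxx₀ : ⟪t⁻¹ • u, x₀ - o⟫_ℝ = 1 := by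
    rw [inner_smul_left, conj_trivial, ← ht, inv_mul_cancel₀ hpos.ne']
  have hxint : t⁻¹ • u - z ∉ interior L0 := by
    intro hint
    obtain ⟨δ, hδ, hb⟩ := Metric.isOpen_iff.1 isOpen_interior _ hint
    have hun' : 0 < ‖t⁻¹ • u‖ := by
      rw [norm_smul, Real.norm_eq_abs, abs_of_pos (inv_pos.2 hpos)]
      exact mul_pos (inv_pos.2 hpos) hun
    set a : ℝ := δ / 2 / ‖t⁻¹ • u‖ with ha
    have hapos : 0 < a := by positivity
    have h1 : (1 + a) • (t⁻¹ • u) - z ∈ L0 := by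
      apply interior_subset
      apply hb
      rw [Metric.mem_ball, dist_eq_norm, add_smul, one_smul, add_sub_right_comm,
        add_sub_cancel_left, norm_smul, Real.norm_eq_abs, abs_of_pos hapos, ha,
        div_mul_cancel₀ _ hun'.ne']
      linarith
    have h2 : z + ((1 + a) • (t⁻¹ • u) - z) ∈ L := h1
    rw [add_sub_cancel] at h2
    have h3 := h2 x₀ hx₀
    rw [inner_smul_left, conj_trivial, hxx₀, mul_one] at h3
    linarith
  have hxL0 : t⁻¹ • u - z ∈ L0 := by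
    change z + (t⁻¹ • u - z) ∈ L
    rwa [add_sub_cancel]
  obtain ⟨b, hbT, hb⟩ := hcov _ hxL0 hxint
  obtain ⟨i, hi⟩ := hw b hbT
  refine ⟨i, by linarith [mul_pos hε hcpos], fun y hy hyu => ?_⟩
  set f : E n := y - o with hf
  have hfL : ∀ x ∈ L, ⟪x, f⟫_ℝ ≤ 1 := fun x hx => hx y hy
  have hxf : ⟪t⁻¹ • u, f⟫_ℝ = 1 := by
    rw [hf, inner_smul_left, conj_trivial, inner_sub_right, hyu, ← inner_sub_right, ← ht,
      inv_mul_cancel₀ hpos.ne']
  have hcz := hzf f hfL ⟨_, hxL, hxf⟩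
  have hε1' : 0 < 1 - ε := by linarith
  have hv := C6_le hSB hε1' hb
  have hv2 : ⟪z + (1 - ε)⁻¹ • (t⁻¹ • u - z - b), f⟫_ℝ ≤ 1 := hfL _ hv
  rw [inner_add_left, inner_smul_left, conj_trivial] at hv2
  have hv3 : ⟪t⁻¹ • u - z - b, f⟫_ℝ ≤ (1 - ε) * (1 - ⟪z, f⟫_ℝ) := by
    have h1 : (1 - ε)⁻¹ * ⟪t⁻¹ • u - z - b, f⟫_ℝ ≤ 1 - ⟪z, f⟫_ℝ := by linarith
    rwa [inv_mul_le_iff₀ hε1'] at h1
  rw [inner_sub_left, inner_sub_left, hxf] at hv3
  have hbf : ε * c ≤ ⟪b, f⟫_ℝ := by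
    have h1 : ε * c ≤ ε * (1 - ⟪z, f⟫_ℝ) := mul_le_mul_of_nonneg_left hcz hε.le
    linarith
  have hbf' : ⟪b, f⟫_ℝ = ⟪b, y⟫_ℝ - ⟪b, o⟫_ℝ := by
    rw [hf, inner_sub_right]
  change ⟪w i, o⟫_ℝ + ε * c / 2 < ⟪w i, y⟫_ℝ
  rw [hi]
  have : 0 < ε * c := mul_pos hε hcpos
  linarith

theorem illuminated (hn : 1 ≤ n) {K : Set (E n)} (hc : Convex ℝ K) (hK : IsCompact K) {c : E n}
    (hi : (interior K).Nonempty) (hs : ∀ x ∈ K, c + (c - x) ∈ K) :
    ∃ p : Fin (17 * n * 2 ^ n) → E n, (∀ i, p i ∉ K) ∧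
      ∀ q ∈ frontier K, ∃ i, ∃ s : ℝ, 0 < s ∧ q + s • (q - p i) ∈ interior K := by
  set L : Set (E n) := (fun v => c + v) ⁻¹' K with hL
  have hLconv : Convex ℝ L := hc.translate_preimage_right c
  have hLcomp : IsCompact L := (Homeomorph.addLeft c).isCompact_preimage.2 hK
  have hLint : interior L = (fun v => c + v) ⁻¹' interior K :=
    ((Homeomorph.addLeft c).preimage_interior K).symm
  have hLneg : ∀ x ∈ L, -x ∈ L := by
    intro x hx
    have h1 := hs _ hx
    have e : c + (c - (c + x)) = c + -x := by abel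
    rw [e] at h1
    exact h1
  have hLvol : volume L ≠ 0 := by
    obtain ⟨q, hq⟩ := hi
    have h1 : (interior L).Nonempty := by
      rw [hLint]
      refine ⟨q - c, ?_⟩
      change c + (q - c) ∈ interior K
      rwa [add_sub_cancel]
    exact (isOpen_interior.measure_pos volume h1 |>.trans_le (measure_mono interior_subset)).ne'
  have hSB : SB L := SB.of_volume hLconv hLcomp hLneg hLvol
  obtain ⟨T, hT, ε, hε, hε1, hcov⟩ := C6_cover hn hSB
  obtain ⟨w, -, hw⟩ := C6_enum T hT 0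
  -- an exterior point
  obtain ⟨R, hR, hRK⟩ := hSB.exists_bound
  have hne : ∃ q₀ : E n, q₀ ∉ K := by
    refine ⟨c + (EuclideanSpace.single ⟨0, hn⟩ (R + 1)), fun hq => ?_⟩
    have h1 := hRK _ hq
    rw [PiLp.norm_single, Real.norm_eq_abs, abs_of_pos (by linarith)] at h1
    linarith
  obtain ⟨q₀, hq₀⟩ := hne
  classical
  refine ⟨fun i => if c + (2 / ε) • w i ∈ K then q₀ else c + (2 / ε) • w i, ?_, ?_⟩
  · intro i
    change (if c + (2 / ε) • w i ∈ K then q₀ else c + (2 / ε) • w i) ∉ K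
    by_cases h : c + (2 / ε) • w i ∈ K
    · rw [if_pos h]
      exact hq₀
    · rw [if_neg h]
      exact h
  · intro q hq
    have hqK : q ∈ K := hK.isClosed.frontier_subset hq
    have hx : q - c ∈ L := by
      change c + (q - c) ∈ K
      rwa [add_sub_cancel]
    have hx' : q - c ∉ interior L := by
      rw [hLint]
      intro h
      have h1 : c + (q - c) ∈ interior K := h
      rw [add_sub_cancel] at h1
      exact hq.2 h1
    have hx1 := C6_frontier hSB hx hx'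
    obtain ⟨b, hbT, hb⟩ := hcov _ hx hx'
    obtain ⟨i, hi⟩ := hw b hbT
    have hbN : ε ≤ hN (pol L) b := by
      have h1 := hSB.polar.hN_add_le (q - c - b) b
      rw [sub_add_cancel, hx1] at h1
      linarith
    have hext : c + (2 / ε) • b ∉ K := by
      intro h
      have h1 : (2 / ε) • b ∈ L := h
      rw [← C6_le_one hSB, hSB.polar.hN_smul, abs_of_pos (by positivity), div_mul_eq_mul_div,
        div_le_iff₀ hε] at h1
      linarith
    refine ⟨i, ε / 2, by positivity, ?_⟩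
    change q + (ε / 2) • (q - (if c + (2 / ε) • w i ∈ K then q₀ else c + (2 / ε) • w i)) ∈ interior K
    rw [hi, if_neg hext]
    have h1 : q + (ε / 2) • (q - (c + (2 / ε) • b)) - c = (ε / 2) • (q - c) + (q - c - b) := by
      have e : (ε / 2) • ((2 / ε) • b) = b := by
        rw [smul_smul]
        have : ε / 2 * (2 / ε) = 1 := by field_simp
        rw [this, one_smul]
      have e2 : (ε / 2) • (q - (c + (2 / ε) • b)) = (ε / 2) • (q - c) - b := by
        rw [← sub_sub, smul_sub, e]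
      rw [e2]
      abel
    have h2 : q + (ε / 2) • (q - (c + (2 / ε) • b)) - c ∈ interior L := by
      apply C6_lt hSB
      rw [h1]
      refine (hSB.polar.hN_add_le _ _).trans_lt ?_
      rw [hSB.polar.hN_smul, hx1, abs_of_pos (by positivity)]
      linarith
    rw [hLint] at h2
    have h3 : c + (q + (ε / 2) • (q - (c + (2 / ε) • b)) - c) ∈ interior K := h2
    rwa [add_sub_cancel] at h3

end Pool.Agent.MP5e7226.HL
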